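import Mathlib

/-!
# The Riemann mapping theorem

Montel's theorem along an ultrafilter, Hurwitz's theorem, and the Riemann mapping theorem.
-/

open Filter Metric Set Topology
open scoped ComplexConjugate

namespace Pool.Agent.Work.MP_a2a261_an

/-- Holomorphic maps into the unit disc are equicontinuous. -/
theorem equicontinuousAt_of_mapsTo {ι : Type*} {U : Set ℂ} (hU : IsOpen U) {F : ι → ℂ → ℂ}
    (hd : ∀ n, DifferentiableOn ℂ (F n) U) (hb : ∀ n, MapsTo (F n) U (ball 0 1)) {z : ℂ}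
    (hz : z ∈ U) : EquicontinuousAt F z := by
  rw [Metric.equicontinuousAt_iff]
  intro ε hε
  obtain ⟨r, hr, hrU⟩ := Metric.isOpen_iff.1 hU z hz
  refine ⟨min r (ε * r / 2), lt_min hr (by positivity), fun x hx n => ?_⟩
  have hxr : x ∈ ball z r := mem_ball.2 (lt_of_lt_of_le hx (min_le_left _ _))
  have hmaps : MapsTo (F n) (ball z r) (closedBall (F n z) 2) := by
    intro y hy
    have h1 := hb n (hrU hy)
    have h2 := hb n hz
    rw [mem_ball_zero_iff] at h1 h2
    rw [mem_closedBall, dist_eq_norm]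
    exact (norm_sub_le _ _).trans (by linarith)
  have h := Complex.dist_le_div_mul_dist_of_mapsTo_ball ((hd n).mono hrU) hmaps hxr
  rw [dist_comm]
  refine lt_of_le_of_lt h ?_
  have hx2 : dist x z < ε * r / 2 := lt_of_lt_of_le hx (min_le_right _ _)
  calc 2 / r * dist x z < 2 / r * (ε * r / 2) := by gcongr
    _ = ε := by field_simp

/-- **Montel's theorem** along an ultrafilter. -/
theorem montel {ι : Type*} {U : Set ℂ} (hU : IsOpen U) {F : ι → ℂ → ℂ}
    (hd : ∀ n, DifferentiableOn ℂ (F n) U) (hb : ∀ n, MapsTo (F n) U (ball 0 1))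
    (𝒰 : Ultrafilter ι) : ∃ f : ℂ → ℂ, TendstoLocallyUniformlyOn F f 𝒰 U := by
  have h1 : ∀ z, ∃ w : ℂ, z ∈ U → Tendsto (fun n => F n z) 𝒰 (𝓝 w) := by
    intro z
    by_cases hz : z ∈ U
    · have hc : IsCompact (closedBall (0 : ℂ) 1) := isCompact_closedBall _ _
      have h2 : (𝒰.map fun n => F n z : Filter ℂ) ≤ 𝓟 (closedBall (0 : ℂ) 1) := by
        rw [le_principal_iff]
        exact Filter.mem_map.2 (Filter.univ_mem' fun n => ball_subset_closedBall (hb n hz))
      obtain ⟨w, -, hw⟩ := isCompact_iff_ultrafilter_le_nhds.1 hc _ h2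
      exact ⟨w, fun _ => hw⟩
    · exact ⟨0, fun h => absurd h hz⟩
  choose f hf using h1
  refine ⟨f, ?_⟩
  rw [tendstoLocallyUniformlyOn_iff_forall_isCompact hU]
  set 𝔖 : Set (Set ℂ) := {K | K ⊆ U ∧ IsCompact K} with h𝔖
  have hsU : ⋃₀ 𝔖 = U := by
    apply subset_antisymm
    · exact sUnion_subset fun K hK => hK.1
    · intro z hz
      exact ⟨{z}, ⟨singleton_subset_iff.2 hz, isCompact_singleton⟩, mem_singleton _⟩
  have key := (EquicontinuousOn.tendsto_uniformOnFun_iff_pi' (𝔖 := 𝔖) (F := F)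
    (fun K hK => hK.2) (fun K hK z hz =>
      (equicontinuousAt_of_mapsTo hU hd hb (hK.1 hz)).equicontinuousWithinAt K)
    (𝒰 : Filter ι) f).2 (by
      rw [tendsto_pi_nhds]
      rintro ⟨z, hz⟩
      rw [hsU] at hz
      exact hf z hz)
  rw [UniformOnFun.tendsto_iff_tendstoUniformlyOn] at key
  intro K hKU hK
  exact key K ⟨hKU, hK⟩

/-- **Hurwitz's theorem**: limits of nonvanishing holomorphic functions are nonvanishing or
vanish identically. -/
theorem hurwitz {ι : Type*} {φ : Filter ι} [NeBot φ] {U : Set ℂ} (hU : IsOpen U)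
    (hUc : IsPreconnected U) {F : ι → ℂ → ℂ} {f : ℂ → ℂ}
    (hd : ∀ᶠ n in φ, DifferentiableOn ℂ (F n) U) (hF : TendstoLocallyUniformlyOn F f φ U)
    (h0 : ∀ᶠ n in φ, ∀ z ∈ U, F n z ≠ 0) (hf : ∃ z ∈ U, f z ≠ 0) : ∀ z ∈ U, f z ≠ 0 := by
  intro z₀ hz₀ hfz₀
  have hfd : DifferentiableOn ℂ f U := hF.differentiableOn hd hU
  have hfa : AnalyticOnNhd ℂ f U := hfd.analyticOnNhd hU
  -- isolated zero
  have hev : ∀ᶠ z in 𝓝[≠] z₀, f z ≠ 0 := by
    by_contra hcon
    have hfreq : ∃ᶠ z in 𝓝[≠] z₀, f z = 0 := by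
      intro h
      exact hcon h
    have := hfa.eqOn_zero_of_preconnected_of_frequently_eq_zero hUc hz₀ hfreq
    obtain ⟨z, hz, hz'⟩ := hf
    exact hz' (this hz)
  rw [eventually_nhdsWithin_iff, Metric.eventually_nhds_iff] at hev
  obtain ⟨r₁, hr₁, hr₁'⟩ := hev
  obtain ⟨r₂, hr₂, hr₂'⟩ := Metric.isOpen_iff.1 hU z₀ hz₀
  set r := min r₁ r₂ / 2 with hr
  have hrpos : 0 < r := by
    have := lt_min hr₁ hr₂
    rw [hr]; linarith
  have hrr₁ : r < r₁ := by
    have := min_le_left r₁ r₂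
    have := lt_min hr₁ hr₂
    rw [hr]; linarith
  have hrr₂ : r < r₂ := by
    have := min_le_right r₁ r₂
    have := lt_min hr₁ hr₂
    rw [hr]; linarith
  have hball : closedBall z₀ r ⊆ U := (closedBall_subset_ball hrr₂).trans hr₂'
  have hsph : IsCompact (sphere z₀ r) := isCompact_sphere _ _
  have hne : (sphere z₀ r).Nonempty := NormedSpace.sphere_nonempty.2 hrpos.le
  have hcont : ContinuousOn (fun z => ‖f z‖) (sphere z₀ r) :=
    (hfd.continuousOn.mono (sphere_subset_closedBall.trans hball)).norm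
  obtain ⟨z₁, hz₁, hmin⟩ := hsph.exists_isMinOn hne hcont
  set m := ‖f z₁‖ with hm
  have hmpos : 0 < m := by
    rw [hm, norm_pos_iff]
    refine hr₁' (by rw [mem_sphere.1 hz₁]; exact hrr₁) ?_
    intro h
    rw [mem_singleton_iff] at h
    rw [mem_sphere, h, dist_self] at hz₁
    exact hrpos.ne hz₁
  have hunif := (tendstoLocallyUniformlyOn_iff_forall_isCompact hU).1 hF _ hball
    (isCompact_closedBall _ _)
  rw [Metric.tendstoUniformlyOn_iff] at hunif
  obtain ⟨n, hn1, hn2, hn3⟩ := ((hunif (m / 2) (by linarith)).and (hd.and h0)).exists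
  have hlow : ∀ z ∈ sphere z₀ r, m / 2 ≤ ‖F n z‖ := by
    intro z hz
    have h1 := hn1 z (sphere_subset_closedBall hz)
    have h2 : m ≤ ‖f z‖ := hmin hz
    rw [dist_eq_norm] at h1
    have h3 := norm_sub_norm_le (f z) (F n z)
    linarith
  have hup : ‖F n z₀‖ < m / 2 := by
    have h1 := hn1 z₀ (mem_closedBall_self hrpos.le)
    rwa [hfz₀, dist_zero_left] at h1
  have hinv : DiffContOnCl ℂ (fun z => (F n z)⁻¹) (ball z₀ r) := by
    apply DifferentiableOn.diffContOnCl
    intro z hz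
    have hzc : z ∈ closedBall z₀ r := closure_ball_subset_closedBall hz
    have h1 : DifferentiableAt ℂ (F n) z := hn2.differentiableAt (hU.mem_nhds (hball hzc))
    exact (h1.inv (hn3 z (hball hzc))).differentiableWithinAt
  have hmax := Complex.norm_le_of_forall_mem_frontier_norm_le isBounded_ball hinv
    (C := (m / 2)⁻¹) (fun z hz => by
      rw [frontier_ball _ hrpos.ne'] at hz
      rw [norm_inv]
      exact inv_anti₀ (by linarith) (hlow z hz)) (subset_closure (mem_ball_self hrpos))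
  rw [norm_inv] at hmax
  have h5 : 0 < ‖F n z₀‖ := norm_pos_iff.2 (hn3 z₀ hz₀)
  have h6 := (inv_le_inv₀ h5 (by linarith)).1 hmax
  linarith

/-- Limits of injective holomorphic functions are injective or constant. -/
theorem hurwitz_injOn {ι : Type*} {φ : Filter ι} [NeBot φ] {U : Set ℂ} (hU : IsOpen U)
    (hUc : IsPreconnected U) {F : ι → ℂ → ℂ} {f : ℂ → ℂ}
    (hd : ∀ᶠ n in φ, DifferentiableOn ℂ (F n) U) (hF : TendstoLocallyUniformlyOn F f φ U)
    (h0 : ∀ᶠ n in φ, InjOn (F n) U) (hf : ∃ z ∈ U, deriv f z ≠ 0) : InjOn f U := by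
  intro z₁ hz₁ z₂ hz₂ h12
  by_contra hne
  have hfd : DifferentiableOn ℂ f U := hF.differentiableOn hd hU
  obtain ⟨r, hr, hrU⟩ := Metric.isOpen_iff.1 (hU.sdiff isClosed_singleton) z₂
    (show z₂ ∈ U \ {z₁} from ⟨hz₂, fun h => hne (by rw [mem_singleton_iff] at h; exact h.symm)⟩)
  have hBU : ball z₂ r ⊆ U := fun z hz => (hrU hz).1
  have hnot : z₁ ∉ ball z₂ r := fun h => (hrU h).2 rfl
  have hpt : Tendsto (fun n => F n z₁) φ (𝓝 (f z₁)) := hF.tendsto_at hz₁
  have hconv : TendstoLocallyUniformlyOn (fun n z => F n z - F n z₁) (fun z => f z - f z₁) φ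
      (ball z₂ r) := by
    have h1 := hF.mono hBU
    have h2 : TendstoLocallyUniformlyOn (fun n (_ : ℂ) => F n z₁) (fun _ => f z₁) φ
        (ball z₂ r) := by
      rw [Metric.tendstoLocallyUniformlyOn_iff]
      intro ε hε x _
      refine ⟨univ, univ_mem, ?_⟩
      filter_upwards [Metric.tendsto_nhds.1 hpt ε hε] with n hn y _
      rw [dist_comm]
      exact hn
    exact h1.sub h2
  have hfan : ∃ z ∈ ball z₂ r, f z - f z₁ ≠ 0 := by
    by_contra hcon
    push Not at hcon
    have hconst : ∀ z ∈ U, f z = f z₁ := by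
      have hana : AnalyticOnNhd ℂ f U := hfd.analyticOnNhd hU
      have := hana.eqOn_of_preconnected_of_eventuallyEq (g := fun _ => f z₁)
        analyticOnNhd_const hUc hz₂
        (by
          filter_upwards [ball_mem_nhds z₂ hr] with z hz
          exact sub_eq_zero.1 (hcon z hz))
      exact this
    obtain ⟨z, hz, hz'⟩ := hf
    apply hz'
    have : f =ᶠ[𝓝 z] fun _ => f z₁ := by
      filter_upwards [hU.mem_nhds hz] with w hw
      exact hconst w hw
    rw [this.deriv_eq, deriv_const]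
  refine hurwitz isOpen_ball (convex_ball _ _).isPreconnected ?_ hconv ?_ hfan z₂
    (mem_ball_self hr) (sub_eq_zero.2 h12.symm)
  · filter_upwards [hd] with n hn
    exact (hn.mono hBU).sub_const _
  · filter_upwards [h0] with n hn z hz h
    have := hn (hBU hz) hz₁ (sub_eq_zero.1 h)
    exact hnot (this ▸ hz)

/-- The disc automorphisms. -/
noncomputable def mob (w ζ : ℂ) : ℂ := (ζ - w) / (1 - conj w * ζ)

theorem one_sub_ne_zero {w ζ : ℂ} (hw : ‖w‖ < 1) (hζ : ‖ζ‖ < 1) : 1 - conj w * ζ ≠ 0 := by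
  intro h
  have h1 : conj w * ζ = 1 := (sub_eq_zero.1 h).symm
  have h2 : ‖conj w * ζ‖ < 1 := by
    rw [norm_mul, RCLike.norm_conj]
    nlinarith [norm_nonneg w, norm_nonneg ζ]
  rw [h1, norm_one] at h2
  exact lt_irrefl _ h2

theorem norm_mob_lt_one {w ζ : ℂ} (hw : ‖w‖ < 1) (hζ : ‖ζ‖ < 1) : ‖mob w ζ‖ < 1 := by
  have h0 := one_sub_ne_zero hw hζ
  rw [mob, norm_div, div_lt_one (norm_pos_iff.2 h0)]
  have key : ‖1 - conj w * ζ‖ ^ 2 - ‖ζ - w‖ ^ 2 = (1 - ‖w‖ ^ 2) * (1 - ‖ζ‖ ^ 2) := by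
    simp only [← Complex.normSq_eq_norm_sq, Complex.normSq_apply]
    simp
    ring
  have h1 : 0 < (1 - ‖w‖ ^ 2) * (1 - ‖ζ‖ ^ 2) := by
    apply mul_pos <;> nlinarith [norm_nonneg w, norm_nonneg ζ]
  have h2 : ‖ζ - w‖ ^ 2 < ‖1 - conj w * ζ‖ ^ 2 := by linarith
  exact lt_of_pow_lt_pow_left₀ 2 (norm_nonneg _) h2

theorem mob_self (w : ℂ) : mob w w = 0 := by rw [mob, sub_self, zero_div]

theorem mob_zero (w : ℂ) : mob w 0 = -w := by simp [mob]

theorem mob_eq_zero {w ζ : ℂ} (hw : ‖w‖ < 1) (hζ : ‖ζ‖ < 1) (h : mob w ζ = 0) : ζ = w := by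
  rw [mob, div_eq_zero_iff] at h
  rcases h with h | h
  · exact sub_eq_zero.1 h
  · exact absurd h (one_sub_ne_zero hw hζ)

theorem mob_injOn {w : ℂ} (hw : ‖w‖ < 1) : InjOn (mob w) (ball 0 1) := by
  intro a ha b hb hab
  rw [mem_ball_zero_iff] at ha hb
  have h1 := one_sub_ne_zero hw ha
  have h2 := one_sub_ne_zero hw hb
  rw [mob, mob, div_eq_div_iff h1 h2] at hab
  have h3 : (1 - conj w * w) * (a - b) = 0 := by linear_combination hab
  have h4 := one_sub_ne_zero hw hw
  rcases mul_eq_zero.1 h3 with h | h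
  · exact absurd h h4
  · exact sub_eq_zero.1 h

theorem hasDerivAt_mob {w ζ : ℂ} (hw : ‖w‖ < 1) (hζ : ‖ζ‖ < 1) :
    HasDerivAt (mob w) ((1 - conj w * w) / (1 - conj w * ζ) ^ 2) ζ := by
  have h0 := one_sub_ne_zero hw hζ
  have h1 : HasDerivAt (fun ζ => ζ - w) 1 ζ := (hasDerivAt_id ζ).sub_const w
  have h2 : HasDerivAt (fun ζ => 1 - conj w * ζ) (-conj w) ζ := by
    have := ((hasDerivAt_id ζ).const_mul (conj w)).const_sub 1
    simpa using this
  have h3 := h1.div h2 h0
  have h4 : (1 * (1 - conj w * ζ) - (ζ - w) * -conj w) / (1 - conj w * ζ) ^ 2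
      = (1 - conj w * w) / (1 - conj w * ζ) ^ 2 := by
    congr 1
    ring
  rw [← h4]
  exact h3

/-- Square roots of holomorphic functions. -/
theorem hasDerivAt_of_sq {G h : ℂ → ℂ} {G' z : ℂ} (hh : ContinuousAt h z) (h0 : h z ≠ 0)
    (hsq : ∀ x, h x ^ 2 = G x) (hG : HasDerivAt G G' z) : HasDerivAt h (G' / (2 * h z)) z := by
  rw [hasDerivAt_iff_tendsto_slope] at hG ⊢
  have h1 : Tendsto (fun w => h w + h z) (𝓝[≠] z) (𝓝 (2 * h z)) := by
    have : Tendsto (fun w => h w + h z) (𝓝 z) (𝓝 (h z + h z)) := hh.add tendsto_const_nhds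
    rw [two_mul]
    exact this.mono_left nhdsWithin_le_nhds
  have h2 : 2 * h z ≠ 0 := mul_ne_zero two_ne_zero h0
  have h3 := hG.div h1 h2
  refine h3.congr' ?_
  have h4 : ∀ᶠ w in 𝓝[≠] z, h w + h z ≠ 0 := h1.eventually_ne h2
  filter_upwards [h4, self_mem_nhdsWithin] with w hw hwz
  have hwz' : w - z ≠ 0 := sub_ne_zero.2 hwz
  show slope G z w / (h w + h z) = slope h z w
  rw [slope_def_field, slope_def_field, ← hsq, ← hsq, div_div, div_eq_div_iff
    (mul_ne_zero hwz' hw) hwz']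
  ring

section Steps

open Complex Function
open scoped Pointwise

/-- Proof of the Riemann Mapping Theorem, step 1.

If `U` is an open simply connected subset of `ℂ` that is not the whole `ℂ`,
then there exists a function `f : ℂ → ℂ` such that

- `f` is injective;
- the image `f '' U` isn't dense in `ℂ`;
- `f` is complex differentiable on `U` with nonzero derivative.

E.g., one can choose `a ∉ U`, then take `f z` to be the square root of `z - a`.
-/
theorem rmt_step_one_exists_injective_not_dense_image_deriv_ne_zero {U : Set ℂ} (hUo : IsOpen U)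
    (hUc : IsSimplyConnected U) (hU : U ≠ univ) :
    ∃ f : ℂ → ℂ, Injective f ∧ ¬Dense (f '' U) ∧ ∀ z ∈ U, deriv f z ≠ 0 := by
  -- WLOG, `0 ∉ U`, otherwise we choose `a ∉ U` and replace `U` with `-a +ᵥ U`
  wlog hU₀ : 0 ∉ U
  · rw [ne_univ_iff_exists_notMem] at hU
    rcases hU with ⟨a, ha⟩
    specialize this (hUo.vadd (-a)) (by simpa) (by simp [hU])
      (by simpa [mem_vadd_set_iff_neg_vadd_mem])
    rcases this with ⟨f, hf_inj, hf_dense, hdf⟩
    refine ⟨f ∘ (-a + ·), hf_inj.comp (add_right_injective (-a)), ?_, fun z hz ↦ ?_⟩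
    · simpa only [← image_vadd, Set.image_image] using! hf_dense
    · simpa [Function.comp_def, deriv_comp_const_add] using hdf (-a + z) (mapsTo_image _ _ hz)
  -- Choose a continuous branch of `√z` on `U`.
  -- This is the function we're looking for.
  rcases exists_continuousOn_pow_eq hUc hUo continuousOn_id (by rwa [image_id]) two_ne_zero
    with ⟨f, hfc, hf_inv⟩
  replace hf_inv : LeftInverse (· ^ 2) f := hf_inv
  -- Then `0 ∉ f '' U`
  have hf₀ : ∀ z ∈ U, f z ≠ 0 := by
    intro z hz hfz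
    simpa [hfz, (ne_of_mem_of_not_mem hz hU₀).symm] using hf_inv z
  -- Note that `f` is strictly differentiable at every point of `U`
  -- with derivative `1 / (2 * f z)`.
  have hdf : ∀ z ∈ U, HasStrictDerivAt f (2 * f z)⁻¹ z := by
    intro z hz
    apply HasStrictDerivAt.of_local_left_inverse
    · exact hfc.continuousAt <| hUo.mem_nhds hz
    · simpa using hasStrictDerivAt_pow 2 (f z)
    · simpa using hf₀ z hz
    · exact .of_forall hf_inv
  -- `f` has a left inverse, so it's injective. Let's show that `f '' U` isn't dense in `ℂ`.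
  refine ⟨f, hf_inv.injective, ?_, fun z hz ↦ ?_⟩
  · -- Take a point `x ∈ U`.
    simp only [Dense, not_forall, mem_closure_iff_frequently, not_frequently]
    rcases hUc.nonempty with ⟨x, hx⟩
    -- Show that `-f x` has a neighborhood disjoint with `f '' U`.
    use -f x
    -- Since `f` is strictly differentiable at `x` with nonzero derivative,
    -- `f '' U` is a neighborhood of `f x`.
    have : f '' U ∈ 𝓝 (f x) := by
      rw [← (hdf x hx).map_nhds_eq (by simpa using hf₀ x hx)]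
      exact Filter.image_mem_map <| hUo.mem_nhds hx
    -- Then `-f '' U` is a neighborhood of `-f x`.
    rw [nhds_neg, eventually_neg]
    -- This neighborhood has to be disjoint with `f '' U`,
    -- because `f a = - f b` implies `a = (f a) ^ 2 = (- f b) ^ 2 = b`, hence `f a = f b = 0`,
    -- which is impossible.
    filter_upwards [this]
    rintro _ ⟨a, ha, rfl⟩ ⟨b, hb, hab⟩
    obtain rfl : a = b := by
      rw [← hf_inv b, hab]
      simp [hf_inv a]
    refine hf₀ a ha ?_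
    linear_combination hab / 2
  · simpa [(hdf z hz).hasDerivAt.deriv] using hf₀ z hz

/-- Proof of the Riemann Mapping Theorem, step 2.

If `U` is an open simply connected subset of `ℂ` which is not the whole field,
then there exists a map `f : ℂ → ℂ` such that

- `f` maps `U` to the unit disk;
- `f` is injective on `U`;
- `f` is differentiable on `U` with nonzero derivative.

Once the proof of the Riemann Mapping Theorem gets merged into Mathlib,
this lemma will be made private.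
-/
theorem rmt_step_two_exists_mapsTo_unitBall_injOn_deriv_ne_zero {U : Set ℂ} (hUo : IsOpen U)
    (hUc : IsSimplyConnected U) (hU : U ≠ univ) :
    ∃ f : ℂ → ℂ, MapsTo f U (ball 0 1) ∧ InjOn f U ∧ ∀ z ∈ U, deriv f z ≠ 0 := by
  -- Take a continuous branch of the square root on `U`.
  -- It is injective, differentiable function on `U`, and `f '' U` isn't dense in `ℂ`.
  rcases rmt_step_one_exists_injective_not_dense_image_deriv_ne_zero hUo hUc hU with ⟨f, hf_inj, hfd, hdf⟩
  -- Choose a closed ball `Metric.closedBall x ε`, `ε > 0`, that is disjoint with `f '' U`.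
  obtain ⟨x, ε, hε₀, hε⟩ : ∃ (x : ℂ) (ε : ℝ), 0 < ε ∧ ∀ a ∈ U, ε < dist (f a) x := by
    simpa [Dense, mem_closure_iff_nhds_basis Metric.nhds_basis_closedBall] using hfd
  have hfx : ∀ z ∈ U, f z ≠ x := fun z hz ↦ by simpa using hε₀.trans (hε z hz)
  -- Then `z ↦ ε / (f z - x)` satisfies all the assertions.
  use fun z ↦ ε / (f z - x)
  refine ⟨?mapsTo, ?injOn, ?deriv⟩
  case mapsTo =>
    intro z hz
    rw [mem_ball_zero_iff, norm_div, norm_real, Real.norm_of_nonneg hε₀.le, div_lt_one₀]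
    · simpa [dist_eq_norm] using hε z hz
    · simpa [sub_eq_zero] using hfx z hz
  case injOn =>
    intro z hz w hw heq
    simpa [div_eq_mul_inv, hε₀.ne', hf_inj.eq_iff] using heq
  case deriv =>
    intro z hz
    have hdz : DifferentiableAt ℂ f z := differentiableAt_of_deriv_ne_zero (hdf z hz)
    rw [(hasDerivAt_const _ _).fun_div (hdz.hasDerivAt.sub_const _) _ |>.deriv] <;>
      simp [*, ne_of_gt, sub_eq_zero]


end Steps

/-- The class of maps used in the proof of the Riemann mapping theorem. -/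
structure InClass (U : Set ℂ) (z₀ : ℂ) (f : ℂ → ℂ) : Prop where
  diff : DifferentiableOn ℂ f U
  maps : MapsTo f U (ball 0 1)
  inj : InjOn f U
  deriv_ne : ∀ z ∈ U, deriv f z ≠ 0
  zero : f z₀ = 0

theorem InClass.mob_comp {U : Set ℂ} (hU : IsOpen U) {z₀ : ℂ} (hz₀ : z₀ ∈ U) {f : ℂ → ℂ}
    (hd : DifferentiableOn ℂ f U) (hm : MapsTo f U (ball 0 1)) (hi : InjOn f U)
    (hne : ∀ z ∈ U, deriv f z ≠ 0) : InClass U z₀ (fun z => mob (f z₀) (f z)) := by
  have hw : ‖f z₀‖ < 1 := mem_ball_zero_iff.1 (hm hz₀)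
  have hder : ∀ z ∈ U, HasDerivAt (fun z => mob (f z₀) (f z))
      ((1 - conj (f z₀) * f z₀) / (1 - conj (f z₀) * f z) ^ 2 * deriv f z) z := by
    intro z hz
    have h1 := hasDerivAt_mob hw (mem_ball_zero_iff.1 (hm hz))
    have h2 : HasDerivAt f (deriv f z) z := (hd.differentiableAt (hU.mem_nhds hz)).hasDerivAt
    exact h1.comp z h2
  refine ⟨fun z hz => (hder z hz).differentiableAt.differentiableWithinAt, ?_, ?_, ?_, ?_⟩
  · intro z hz
    exact mem_ball_zero_iff.2 (norm_mob_lt_one hw (mem_ball_zero_iff.1 (hm hz)))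
  · intro a ha b hb hab
    exact hi ha hb (mob_injOn hw (hm ha) (hm hb) hab)
  · intro z hz
    rw [(hder z hz).deriv]
    refine mul_ne_zero (div_ne_zero (one_sub_ne_zero hw hw) (pow_ne_zero _ ?_)) (hne z hz)
    exact one_sub_ne_zero hw (mem_ball_zero_iff.1 (hm hz))
  · exact mob_self _

/-- **Riemann mapping theorem.** -/
theorem riemann_mapping {U : Set ℂ} (hU : IsOpen U) (hUs : IsSimplyConnected U)
    (hUne : U ≠ univ) {z₀ : ℂ} (hz₀ : z₀ ∈ U) :
    ∃ f : ℂ → ℂ, DifferentiableOn ℂ f U ∧ InjOn f U ∧ f '' U = ball 0 1 ∧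
      (∀ z ∈ U, deriv f z ≠ 0) ∧ f z₀ = 0 ∧ 0 < (deriv f z₀).re ∧ (deriv f z₀).im = 0 := by
  have hUc : IsPreconnected U := hUs.isPathConnected.isConnected.isPreconnected
  -- the class is nonempty
  obtain ⟨f₀, hf₀⟩ : ∃ f₀, InClass U z₀ f₀ := by
    obtain ⟨f, hm, hi, hne⟩ := rmt_step_two_exists_mapsTo_unitBall_injOn_deriv_ne_zero hU hUs hUne
    exact ⟨_, InClass.mob_comp hU hz₀
      (fun z hz => (differentiableAt_of_deriv_ne_zero (hne z hz)).differentiableWithinAt)
      hm hi hne⟩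
  obtain ⟨r, hr, hrU⟩ := Metric.isOpen_iff.1 hU z₀ hz₀
  set A : Set ℝ := {x | ∃ f, InClass U z₀ f ∧ ‖deriv f z₀‖ = x} with hA
  have hAne : A.Nonempty := ⟨_, f₀, hf₀, rfl⟩
  have hAbdd : BddAbove A := by
    refine ⟨1 / r, ?_⟩
    rintro x ⟨f, hf, rfl⟩
    refine Complex.norm_deriv_le_div_of_mapsTo_ball (hf.diff.mono hrU) ?_ hr
    rw [hf.zero]
    exact fun z hz => ball_subset_closedBall (hf.maps (hrU hz))
  set M := sSup A with hM
  have hMpos : 0 < M := lt_of_lt_of_le (norm_pos_iff.2 (hf₀.deriv_ne z₀ hz₀))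
    (le_csSup hAbdd ⟨f₀, hf₀, rfl⟩)
  -- a maximising sequence
  obtain ⟨x, -, hx, hxA⟩ := exists_seq_tendsto_sSup hAne hAbdd
  choose F hF hFx using hxA
  obtain ⟨f, hf⟩ := montel hU (fun n => (hF n).diff) (fun n => (hF n).maps)
    (hyperfilter ℕ)
  have hle : ((hyperfilter ℕ : Ultrafilter ℕ) : Filter ℕ) ≤ atTop := by
    rw [← Nat.cofinite_eq_atTop]
    exact hyperfilter_le_cofinite
  have hdall : ∀ᶠ n in ((hyperfilter ℕ : Ultrafilter ℕ) : Filter ℕ),
      DifferentiableOn ℂ (F n) U := Eventually.of_forall fun n => (hF n).diff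
  have hfd : DifferentiableOn ℂ f U := hf.differentiableOn hdall hU
  have hfder := hf.deriv hdall hU
  have hfM : ‖deriv f z₀‖ = M := by
    have h1 : Tendsto (fun n => ‖deriv (F n) z₀‖) (hyperfilter ℕ : Ultrafilter ℕ)
        (𝓝 ‖deriv f z₀‖) := (hfder.tendsto_at hz₀).norm
    have h2 : Tendsto (fun n => ‖deriv (F n) z₀‖) (hyperfilter ℕ : Ultrafilter ℕ) (𝓝 M) := by
      simp only [hFx]
      exact hx.mono_left hle
    exact tendsto_nhds_unique h1 h2
  have hfz₀ : deriv f z₀ ≠ 0 := by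
    rw [← norm_pos_iff, hfM]; exact hMpos
  have hfi : InjOn f U := hurwitz_injOn hU hUc hdall hf
    (Eventually.of_forall fun n => (hF n).inj) ⟨z₀, hz₀, hfz₀⟩
  have hfne : ∀ z ∈ U, deriv f z ≠ 0 :=
    hurwitz hU hUc (F := fun n => deriv (F n))
      (Eventually.of_forall fun n => ((hF n).diff.deriv hU)) hfder
      (Eventually.of_forall fun n => (hF n).deriv_ne) ⟨z₀, hz₀, hfz₀⟩
  have hf0 : f z₀ = 0 := by
    have h1 := hf.tendsto_at hz₀
    simp only [(hF _).zero] at h1
    exact tendsto_nhds_unique h1 tendsto_const_nhds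
  have hfle : ∀ z ∈ U, ‖f z‖ ≤ 1 := by
    intro z hz
    refine le_of_tendsto (hf.tendsto_at hz).norm (Eventually.of_forall fun n => ?_)
    exact (mem_ball_zero_iff.1 ((hF n).maps hz)).le
  have hfm : MapsTo f U (ball 0 1) := by
    intro z hz
    rw [mem_ball_zero_iff]
    refine lt_of_le_of_ne (hfle z hz) fun h1 => ?_
    have hmax : IsMaxOn (norm ∘ f) U z := fun y hy => by
      show ‖f y‖ ≤ ‖f z‖
      rw [h1]; exact hfle y hy
    have := Complex.eqOn_of_isPreconnected_of_isMaxOn_norm hUc hU hfd hz hmax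
    apply hfz₀
    have h2 : f =ᶠ[𝓝 z₀] fun _ => f z := by
      filter_upwards [hU.mem_nhds hz₀] with w hw
      exact this hw
    rw [h2.deriv_eq, deriv_const]
  -- surjectivity
  have hsurj : ball 0 1 ⊆ f '' U := by
    intro w hw
    by_contra hwim
    rw [mem_ball_zero_iff] at hw
    have hw0 : w ≠ 0 := by
      rintro rfl
      exact hwim ⟨z₀, hz₀, hf0⟩
    -- the square root
    have hGd : ∀ z ∈ U, HasDerivAt (fun z => mob w (f z))
        ((1 - conj w * w) / (1 - conj w * f z) ^ 2 * deriv f z) z := by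
      intro z hz
      exact (hasDerivAt_mob hw (mem_ball_zero_iff.1 (hfm hz))).comp z
        (hfd.differentiableAt (hU.mem_nhds hz)).hasDerivAt
    have hGc : ContinuousOn (fun z => mob w (f z)) U := fun z hz =>
      (hGd z hz).continuousAt.continuousWithinAt
    have hG0 : ∀ z ∈ U, mob w (f z) ≠ 0 := by
      intro z hz h
      exact hwim ⟨z, hz, mob_eq_zero hw (mem_ball_zero_iff.1 (hfm hz)) h⟩
    obtain ⟨h, hhc, hh⟩ := Complex.exists_continuousOn_pow_eq hUs hU hGc (by
      rintro ⟨z, hz, hz'⟩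
      exact hG0 z hz hz') two_ne_zero
    have hh0 : ∀ z ∈ U, h z ≠ 0 := by
      intro z hz hz'
      apply hG0 z hz
      rw [← hh z, hz']
      norm_num
    have hhd : ∀ z ∈ U, HasDerivAt h
        ((1 - conj w * w) / (1 - conj w * f z) ^ 2 * deriv f z / (2 * h z)) z := by
      intro z hz
      exact hasDerivAt_of_sq (hhc.continuousAt (hU.mem_nhds hz)) (hh0 z hz) hh (hGd z hz)
    have hhm : MapsTo h U (ball 0 1) := by
      intro z hz
      rw [mem_ball_zero_iff]
      have h1 : ‖h z‖ ^ 2 < 1 := by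
        rw [← norm_pow, hh z]
        exact norm_mob_lt_one hw (mem_ball_zero_iff.1 (hfm hz))
      nlinarith [norm_nonneg (h z)]
    have hhi : InjOn h U := by
      intro a ha b hb hab
      have h1 : mob w (f a) = mob w (f b) := by rw [← hh a, ← hh b, hab]
      exact hfi ha hb (mob_injOn hw (hfm ha) (hfm hb) h1)
    have hhne : ∀ z ∈ U, deriv h z ≠ 0 := by
      intro z hz
      rw [(hhd z hz).deriv]
      exact div_ne_zero (mul_ne_zero (div_ne_zero (one_sub_ne_zero hw hw)
        (pow_ne_zero _ (one_sub_ne_zero hw (mem_ball_zero_iff.1 (hfm hz))))) (hfne z hz))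
        (mul_ne_zero two_ne_zero (hh0 z hz))
    have hg := InClass.mob_comp hU hz₀
      (fun z hz => (hhd z hz).differentiableAt.differentiableWithinAt) hhm hhi hhne
    -- its derivative is bigger
    have hnh : ‖h z₀‖ < 1 := mem_ball_zero_iff.1 (hhm hz₀)
    have hgd : HasDerivAt (fun z => mob (h z₀) (h z))
        ((1 - conj (h z₀) * h z₀) / (1 - conj (h z₀) * h z₀) ^ 2 *
          ((1 - conj w * w) / (1 - conj w * f z₀) ^ 2 * deriv f z₀ / (2 * h z₀))) z₀ :=
      (hasDerivAt_mob hnh hnh).comp z₀ (hhd z₀ hz₀)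
    have hle2 : ‖deriv (fun z => mob (h z₀) (h z)) z₀‖ ≤ M := le_csSup hAbdd ⟨_, hg, rfl⟩
    rw [hgd.deriv, hf0, mul_zero, sub_zero, one_pow, div_one] at hle2
    have hsq : ‖h z₀‖ ^ 2 = ‖w‖ := by
      rw [← norm_pow, hh z₀, hf0, mob_zero, norm_neg]
    have e1 : ∀ x : ℂ, ‖x‖ < 1 → ‖1 - conj x * x‖ = 1 - ‖x‖ ^ 2 := by
      intro x hx
      have h2 : (1 - conj x * x : ℂ) = ((1 - ‖x‖ ^ 2 : ℝ) : ℂ) := by
        rw [← Complex.normSq_eq_conj_mul_self, Complex.normSq_eq_norm_sq]
        push_cast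
        ring
      rw [h2, Complex.norm_real, Real.norm_of_nonneg]
      nlinarith [norm_nonneg x]
    rw [norm_mul, norm_div, norm_pow, norm_div, norm_mul, norm_mul, e1 _ hnh, e1 _ hw, hfM,
      Complex.norm_two, hsq] at hle2
    set s := ‖h z₀‖ with hs
    have hspos : 0 < s := norm_pos_iff.2 (hh0 z₀ hz₀)
    have hw1 : ‖w‖ = s ^ 2 := hsq.symm
    rw [hw1] at hle2 hw
    have hs1 : 0 < 1 - s ^ 2 := by linarith
    have e2 : (1 - s ^ 2) / (1 - s ^ 2) ^ 2 * ((1 - (s ^ 2) ^ 2) * M / (2 * s))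
        = (1 + s ^ 2) / (2 * s) * M := by
      have : (1 - (s ^ 2) ^ 2) = (1 - s ^ 2) * (1 + s ^ 2) := by ring
      rw [this]
      field_simp
    rw [e2] at hle2
    have h3 : 1 < (1 + s ^ 2) / (2 * s) := by
      rw [one_lt_div (by positivity)]
      nlinarith [sq_nonneg (1 - s)]
    nlinarith
  -- normalisation
  have hM0 : deriv f z₀ ≠ 0 := hfz₀
  set c : ℂ := conj (deriv f z₀) / ‖deriv f z₀‖ with hc
  have hcn : ‖c‖ = 1 := by
    rw [hc, norm_div, RCLike.norm_conj, Complex.norm_real, norm_norm,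
      div_self (norm_ne_zero_iff.2 hM0)]
  have hc0 : c ≠ 0 := by
    rw [← norm_pos_iff, hcn]; exact one_pos
  have hder : ∀ z ∈ U, deriv (fun z => c * f z) z = c * deriv f z := by
    intro z hz
    exact deriv_const_mul _ (hfd.differentiableAt (hU.mem_nhds hz))
  have hder0 : deriv (fun z => c * f z) z₀ = ((‖deriv f z₀‖ : ℝ) : ℂ) := by
    rw [hder z₀ hz₀, hc, div_mul_eq_mul_div, ← Complex.normSq_eq_conj_mul_self,
      Complex.normSq_eq_norm_sq]
    have : ((‖deriv f z₀‖ : ℝ) : ℂ) ≠ 0 := by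
      rw [Complex.ofReal_ne_zero]; exact norm_ne_zero_iff.2 hM0
    push_cast
    field_simp
  refine ⟨fun z => c * f z, hfd.const_mul c, ?_, ?_, ?_, ?_, ?_, ?_⟩
  · intro a ha b hb hab
    exact hfi ha hb (mul_left_cancel₀ hc0 hab)
  · apply subset_antisymm
    · rintro _ ⟨z, hz, rfl⟩
      rw [mem_ball_zero_iff, norm_mul, hcn, one_mul]
      exact mem_ball_zero_iff.1 (hfm hz)
    · intro w hw
      have : c⁻¹ * w ∈ ball (0 : ℂ) 1 := by
        rw [mem_ball_zero_iff, norm_mul, norm_inv, hcn, inv_one, one_mul]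
        exact mem_ball_zero_iff.1 hw
      obtain ⟨z, hz, hz'⟩ := hsurj this
      exact ⟨z, hz, by simp only [hz']; rw [mul_inv_cancel_left₀ hc0]⟩
  · intro z hz
    rw [hder z hz]
    exact mul_ne_zero hc0 (hfne z hz)
  · simp only [hf0, mul_zero]
  · rw [hder0, Complex.ofReal_re]
    exact norm_pos_iff.2 hM0
  · rw [hder0, Complex.ofReal_im]

end Pool.Agent.Work.MP_a2a261_an
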