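import Mathlib
import Pool.Agent.Work.MP_a2a261_an.RMT

/-!
# Riemann maps of symmetric star-shaped domains
-/

open Filter Metric Set Topology
open scoped ComplexConjugate

namespace Pool.Agent.Work.MP_a2a261_an

/-- `f` is the normalised Riemann map of `U` onto the unit disc. -/
structure IsRM (U : Set ℂ) (f : ℂ → ℂ) : Prop where
  diff : DifferentiableOn ℂ f U
  inj : InjOn f U
  img : f '' U = ball 0 1
  deriv_ne : ∀ z ∈ U, deriv f z ≠ 0
  zero : f 0 = 0
  pos : 0 < (deriv f 0).re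
  im : (deriv f 0).im = 0

theorem isSimplyConnected_of_starConvex {U : Set ℂ} (h : StarConvex ℝ 0 U) (h0 : (0 : ℂ) ∈ U) :
    IsSimplyConnected U := by
  have : ContractibleSpace U := h.contractibleSpace ⟨0, h0⟩
  exact inferInstanceAs (SimplyConnectedSpace U)

theorem exists_RM {U : Set ℂ} (hU : IsOpen U) (h : StarConvex ℝ 0 U) (h0 : (0 : ℂ) ∈ U)
    (hne : U ≠ univ) : ∃ f, IsRM U f := by
  obtain ⟨f, h1, h2, h3, h4, h5, h6, h7⟩ :=
    riemann_mapping hU (isSimplyConnected_of_starConvex h h0) hne h0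
  exact ⟨f, h1, h2, h3, h4, h5, h6, h7⟩

theorem IsRM.mapsTo {U : Set ℂ} {f : ℂ → ℂ} (hf : IsRM U f) : MapsTo f U (ball 0 1) := by
  rw [← hf.img]
  exact mapsTo_image f U

/-- The inverse of an injective holomorphic map. -/
theorem exists_inverse {U V : Set ℂ} (hU : IsOpen U) (hV : IsOpen V) {f : ℂ → ℂ}
    (hd : DifferentiableOn ℂ f U) (hi : InjOn f U) (himg : f '' U = V)
    (hne : ∀ z ∈ U, deriv f z ≠ 0) :
    ∃ g : ℂ → ℂ, DifferentiableOn ℂ g V ∧ MapsTo g V U ∧ (∀ w ∈ V, f (g w) = w) ∧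
      (∀ z ∈ U, g (f z) = z) ∧ (∀ w ∈ V, deriv g w ≠ 0) := by
  classical
  have hex : ∀ w, ∃ z, w ∈ V → z ∈ U ∧ f z = w := by
    intro w
    by_cases hw : w ∈ V
    · rw [← himg] at hw
      obtain ⟨z, hz, hz'⟩ := hw
      exact ⟨z, fun _ => ⟨hz, hz'⟩⟩
    · exact ⟨0, fun h => absurd h hw⟩
  choose g hg using hex
  have hgm : MapsTo g V U := fun w hw => (hg w hw).1
  have hfg : ∀ w ∈ V, f (g w) = w := fun w hw => (hg w hw).2
  have hgf : ∀ z ∈ U, g (f z) = z := by
    intro z hz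
    have hfz : f z ∈ V := by rw [← himg]; exact ⟨z, hz, rfl⟩
    exact hi (hgm hfz) hz (hfg _ hfz)
  have hcont : ∀ w ∈ V, ContinuousAt g w := by
    intro w hw
    have hz : g w ∈ U := hgm hw
    have hdz : HasStrictDerivAt f (deriv f (g w)) (g w) := by
      have h1 : AnalyticAt ℂ f (g w) := hd.analyticAt (hU.mem_nhds hz)
      exact h1.hasStrictDerivAt
    rw [ContinuousAt]
    intro N hN
    have h2 : f '' (N ∩ U) ∈ 𝓝 w := by
      have h3 := hdz.map_nhds_eq (hne _ hz)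
      rw [hfg w hw] at h3
      rw [← h3]
      exact image_mem_map (inter_mem hN (hU.mem_nhds hz))
    rw [mem_map]
    filter_upwards [h2]
    rintro _ ⟨y, hy, rfl⟩
    rw [mem_preimage, hgf y hy.2]
    exact hy.1
  have hder : ∀ w ∈ V, HasDerivAt g (deriv f (g w))⁻¹ w := by
    intro w hw
    refine HasDerivAt.of_local_left_inverse (hcont w hw)
      (hd.differentiableAt (hU.mem_nhds (hgm hw))).hasDerivAt (hne _ (hgm hw)) ?_
    filter_upwards [hV.mem_nhds hw] with y hy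
    exact hfg y hy
  refine ⟨g, fun w hw => (hder w hw).differentiableAt.differentiableWithinAt, hgm, hfg, hgf,
    fun w hw => ?_⟩
  rw [(hder w hw).deriv]
  exact inv_ne_zero (hne _ (hgm hw))

theorem IsRM.exists_inverse {U : Set ℂ} (hU : IsOpen U) {f : ℂ → ℂ} (hf : IsRM U f) :
    ∃ g : ℂ → ℂ, DifferentiableOn ℂ g (ball 0 1) ∧ MapsTo g (ball 0 1) U ∧
      (∀ w ∈ ball (0 : ℂ) 1, f (g w) = w) ∧ (∀ z ∈ U, g (f z) = z) ∧
      (∀ w ∈ ball (0 : ℂ) 1, deriv g w ≠ 0) :=
  Pool.Agent.Work.MP_a2a261_an.exists_inverse hU isOpen_ball hf.diff hf.inj hf.img hf.deriv_ne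

/-- Schwarz lemma for maps from discs. -/
theorem schwarz_disc {U : Set ℂ} {f G : ℂ → ℂ} {r : ℝ}
    (hd : DifferentiableOn ℂ f U) (hm : MapsTo f U (ball 0 1)) (hf0 : f 0 = 0)
    (hG : DifferentiableOn ℂ G (ball 0 r)) (hGm : MapsTo G (ball 0 r) U) (hG0 : G 0 = 0)
    {ζ : ℂ} (hζ : ζ ∈ ball (0 : ℂ) r) : ‖f (G ζ)‖ ≤ ‖ζ‖ / r := by
  have h1 : DifferentiableOn ℂ (fun z => f (G z)) (ball 0 r) :=
    hd.comp hG hGm
  have h2 := Complex.dist_le_div_mul_dist_of_mapsTo_ball h1 (R₂ := 1) (fun z hz => by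
    show f (G z) ∈ closedBall (f (G 0)) 1
    rw [hG0, hf0]
    exact ball_subset_closedBall (hm (hGm hz))) hζ
  simp only [hG0, hf0, dist_zero_right] at h2
  calc ‖f (G ζ)‖ ≤ 1 / r * ‖ζ‖ := h2
    _ = ‖ζ‖ / r := by ring

/-- Monotonicity of Riemann maps. -/
theorem norm_le_of_subset {U V : Set ℂ} (hU : IsOpen U) {f g : ℂ → ℂ} (hf : IsRM U f)
    (hg : IsRM V g) (hUV : U ⊆ V) (h0 : (0 : ℂ) ∈ U) {z : ℂ} (hz : z ∈ U) : ‖g z‖ ≤ ‖f z‖ := by
  obtain ⟨k, hk1, hk2, hk3, hk4, -⟩ := hf.exists_inverse hU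
  have hk0 : k 0 = 0 := by
    have := hk4 0 h0
    rwa [hf.zero] at this
  have h := schwarz_disc (r := 1) hg.diff hg.mapsTo hg.zero hk1
    (fun w hw => hUV (hk2 hw)) hk0 (hf.mapsTo hz)
  rwa [hk4 z hz, div_one] at h

/-- Uniqueness of the Riemann map. -/
theorem IsRM.unique {U : Set ℂ} (hU : IsOpen U) {f g : ℂ → ℂ} (hf : IsRM U f)
    (hg : IsRM U g) (h0 : (0 : ℂ) ∈ U) : EqOn f g U := by
  obtain ⟨k, hk1, hk2, hk3, hk4, hk5⟩ := hg.exists_inverse hU
  have hk0 : k 0 = 0 := by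
    have := hk4 0 h0
    rwa [hg.zero] at this
  set h : ℂ → ℂ := fun w => f (k w) with hh
  have hhd : DifferentiableOn ℂ h (ball 0 1) := hf.diff.comp hk1 hk2
  have hhm : MapsTo h (ball 0 1) (ball 0 1) := fun w hw => hf.mapsTo (hk2 hw)
  have hh0 : h 0 = 0 := by rw [hh]; simp only [hk0, hf.zero]
  have hnorm : ∀ w ∈ ball (0 : ℂ) 1, ‖h w‖ = ‖w‖ := by
    intro w hw
    have h1 := norm_le_of_subset hU hf hg subset_rfl h0 (hk2 hw)
    have h2 := norm_le_of_subset hU hg hf subset_rfl h0 (hk2 hw)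
    rw [hk3 w hw] at h1 h2
    exact le_antisymm h2 h1
  have hhalf : (1 / 2 : ℂ) ∈ ball (0 : ℂ) 1 := by
    rw [mem_ball_zero_iff]; norm_num
  have hds : ‖dslope h 0 (1 / 2)‖ = 1 / 1 := by
    rw [dslope_of_ne _ (by norm_num), slope_def_field, hh0, sub_zero, sub_zero, norm_div,
      hnorm _ hhalf, div_self (by norm_num)]
    norm_num
  have haff := Complex.affine_of_mapsTo_ball_of_norm_dslope_eq_div hhd
    (R₂ := 1) (by rw [hh0]; exact fun w hw => ball_subset_closedBall (hhm hw)) hhalf hds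
  set c := dslope h 0 (1 / 2) with hc
  have hlin : ∀ w ∈ ball (0 : ℂ) 1, h w = w * c := by
    intro w hw
    have := haff hw
    simpa [hh0] using this
  have hcn : ‖c‖ = 1 := by rw [hds]; norm_num
  -- `c` is positive
  have hfg : ∀ z ∈ U, f z = g z * c := by
    intro z hz
    have := hlin (g z) (hg.mapsTo hz)
    rw [hh] at this
    simp only [hk4 z hz] at this
    exact this
  have hder : deriv f 0 = deriv g 0 * c := by
    have h1 : f =ᶠ[𝓝 0] fun z => g z * c := by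
      filter_upwards [hU.mem_nhds h0] with z hz
      exact hfg z hz
    rw [h1.deriv_eq, deriv_mul_const (hg.diff.differentiableAt (hU.mem_nhds h0))]
  have hfr : deriv f 0 = (((deriv f 0).re : ℝ) : ℂ) := Complex.ext rfl (by simp [hf.im])
  have hgr : deriv g 0 = (((deriv g 0).re : ℝ) : ℂ) := Complex.ext rfl (by simp [hg.im])
  have hc1 : c = (((deriv f 0).re / (deriv g 0).re : ℝ) : ℂ) := by
    have : (deriv g 0) ≠ 0 := hg.deriv_ne 0 h0
    have h2 : c = deriv f 0 / deriv g 0 := by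
      rw [hder, mul_div_cancel_left₀ _ this]
    rw [h2]
    conv_lhs => rw [hfr, hgr]
    push_cast
    rfl
  have hc2 : c = 1 := by
    have hp : 0 < (deriv f 0).re / (deriv g 0).re := div_pos hf.pos hg.pos
    rw [hc1, Complex.norm_real, Real.norm_of_nonneg hp.le] at hcn
    rw [hc1, hcn]
    simp
  intro z hz
  rw [hfg z hz, hc2, mul_one]

/-- Symmetry under complex conjugation. -/
theorem IsRM.conj_symm {U : Set ℂ} (hU : IsOpen U) {f : ℂ → ℂ} (hf : IsRM U f)
    (h0 : (0 : ℂ) ∈ U) (hs : ∀ z ∈ U, conj z ∈ U) {z : ℂ} (hz : z ∈ U) :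
    f (conj z) = conj (f z) := by
  have hder : ∀ z ∈ U, HasDerivAt (fun w => conj (f (conj w))) (conj (deriv f (conj z))) z := by
    intro z hz
    have h1 : HasDerivAt f (deriv f (conj z)) (conj z) :=
      (hf.diff.differentiableAt (hU.mem_nhds (hs z hz))).hasDerivAt
    have h2 := h1.conj_conj
    rwa [Complex.conj_conj] at h2
  have hg : IsRM U (fun w => conj (f (conj w))) := by
    refine ⟨fun z hz => (hder z hz).differentiableAt.differentiableWithinAt, ?_, ?_, ?_, ?_, ?_, ?_⟩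
    · intro a ha b hb hab
      have h1 : f (conj a) = f (conj b) := by
        have := congrArg conj hab
        simpa using this
      have h2 := hf.inj (hs a ha) (hs b hb) h1
      have := congrArg conj h2
      simpa using this
    · apply subset_antisymm
      · rintro _ ⟨w, hw, rfl⟩
        have := hf.mapsTo (hs w hw)
        rw [mem_ball_zero_iff] at this ⊢
        rwa [RCLike.norm_conj]
      · intro w hw
        have hw' : conj w ∈ f '' U := by
          rw [hf.img, mem_ball_zero_iff, RCLike.norm_conj]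
          exact mem_ball_zero_iff.1 hw
        obtain ⟨y, hy, hy'⟩ := hw'
        refine ⟨conj y, hs y hy, ?_⟩
        simp only [Complex.conj_conj, hy']
    · intro z hz
      rw [(hder z hz).deriv]
      intro h
      rw [map_eq_zero] at h
      exact hf.deriv_ne _ (hs z hz) h
    · simp [hf.zero]
    · rw [(hder 0 h0).deriv, map_zero, Complex.conj_re]
      exact hf.pos
    · rw [(hder 0 h0).deriv, map_zero, Complex.conj_im, hf.im, neg_zero]
  have := hf.unique hU hg h0 (hs z hz)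
  simp only [Complex.conj_conj] at this
  exact this

/-- Symmetry under `z ↦ -z`. -/
theorem IsRM.neg_symm {U : Set ℂ} (hU : IsOpen U) {f : ℂ → ℂ} (hf : IsRM U f)
    (h0 : (0 : ℂ) ∈ U) (hs : ∀ z ∈ U, -z ∈ U) {z : ℂ} (hz : z ∈ U) :
    f (-z) = -f z := by
  have hder : ∀ z ∈ U, HasDerivAt (fun w => -f (-w)) (deriv f (-z)) z := by
    intro z hz
    have h1 : HasDerivAt f (deriv f (-z)) (-z) :=
      (hf.diff.differentiableAt (hU.mem_nhds (hs z hz))).hasDerivAt
    have h2 : HasDerivAt (fun w => -f (-w)) (-(deriv f (-z) * -1)) z :=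
      (h1.comp z (hasDerivAt_neg z)).neg
    have h3 : -(deriv f (-z) * -1) = deriv f (-z) := by ring
    rwa [h3] at h2
  have hg : IsRM U (fun w => -f (-w)) := by
    refine ⟨fun z hz => (hder z hz).differentiableAt.differentiableWithinAt, ?_, ?_, ?_, ?_, ?_, ?_⟩
    · intro a ha b hb hab
      have h1 : f (-a) = f (-b) := neg_injective hab
      exact neg_injective (hf.inj (hs a ha) (hs b hb) h1)
    · apply subset_antisymm
      · rintro _ ⟨w, hw, rfl⟩
        have := hf.mapsTo (hs w hw)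
        rw [mem_ball_zero_iff] at this ⊢
        rwa [norm_neg]
      · intro w hw
        have hw' : -w ∈ f '' U := by
          rw [hf.img, mem_ball_zero_iff, norm_neg]
          exact mem_ball_zero_iff.1 hw
        obtain ⟨y, hy, hy'⟩ := hw'
        refine ⟨-y, hs y hy, ?_⟩
        simp only [neg_neg, hy']
    · intro z hz
      rw [(hder z hz).deriv]
      exact hf.deriv_ne _ (hs z hz)
    · simp [hf.zero]
    · rw [(hder 0 h0).deriv, neg_zero]
      exact hf.pos
    · rw [(hder 0 h0).deriv, neg_zero]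
      exact hf.im
  have := hf.unique hU hg h0 (hs z hz)
  simp only [neg_neg] at this
  exact this

/-- The real segment `[-a, a]` as a subset of `ℂ`. -/
def slit (a : ℝ) : Set ℂ := (fun x : ℝ => (x : ℂ)) '' Icc (-a) a

theorem mem_slit {a : ℝ} {z : ℂ} : z ∈ slit a ↔ z.im = 0 ∧ |z.re| ≤ a := by
  constructor
  · rintro ⟨x, hx, rfl⟩
    exact ⟨Complex.ofReal_im x, by rw [Complex.ofReal_re]; exact abs_le.2 hx⟩
  · rintro ⟨h1, h2⟩
    exact ⟨z.re, abs_le.1 h2, Complex.ext (Complex.ofReal_re _) (by rw [Complex.ofReal_im, h1])⟩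

/-- The Riemann map of a symmetric domain maps `[-a, a]` onto `[-t, t]`, `t = |f a|`. -/
theorem IsRM.image_slit {U : Set ℂ} (hU : IsOpen U) {f : ℂ → ℂ} (hf : IsRM U f)
    (hs : ∀ z ∈ U, conj z ∈ U) (hn : ∀ z ∈ U, -z ∈ U) {a : ℝ} (ha : 0 ≤ a)
    (haU : slit a ⊆ U) : f '' slit a = slit ‖f a‖ := by
  have hmemU : ∀ x ∈ Icc (-a) a, ((x : ℝ) : ℂ) ∈ U := fun x hx => haU ⟨x, hx, rfl⟩
  have h0 : (0 : ℂ) ∈ U := by
    have := hmemU 0 ⟨by linarith, ha⟩
    simpa using this
  have haa : ((a : ℝ) : ℂ) ∈ U := hmemU a ⟨by linarith, le_rfl⟩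
  have hreal : ∀ x ∈ Icc (-a) a, f (x : ℂ) = (((f (x : ℂ)).re : ℝ) : ℂ) := by
    intro x hx
    have h1 := hf.conj_symm hU h0 hs (hmemU x hx)
    rw [Complex.conj_ofReal] at h1
    exact (Complex.conj_eq_iff_re.1 h1.symm).symm
  set φ : ℝ → ℝ := fun x => (f (x : ℂ)).re with hφ
  have hφc : ContinuousOn φ (Icc (-a) a) := by
    have h1 : ContinuousOn (fun x : ℝ => f (x : ℂ)) (Icc (-a) a) :=
      hf.diff.continuousOn.comp Complex.continuous_ofReal.continuousOn hmemU
    exact Complex.continuous_re.comp_continuousOn h1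
  have hφi : InjOn φ (Icc (-a) a) := by
    intro x hx y hy hxy
    have h1 : f (x : ℂ) = f (y : ℂ) := by
      rw [hreal x hx, hreal y hy]
      exact congrArg _ hxy
    exact Complex.ofReal_injective (hf.inj (hmemU x hx) (hmemU y hy) h1)
  have hodd : φ (-a) = -φ a := by
    have h1 := hf.neg_symm hU h0 hn haa
    show (f ((-a : ℝ) : ℂ)).re = -(f (a : ℂ)).re
    rw [Complex.ofReal_neg, h1, Complex.neg_re]
  have hnorm : ‖f a‖ = |φ a| := by
    rw [hreal a ⟨by linarith, le_rfl⟩, Complex.norm_real, Real.norm_eq_abs]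
  rw [hnorm]
  have himg : φ '' Icc (-a) a = Icc (-|φ a|) |φ a| := by
    rcases hφc.strictMonoOn_of_injOn_Icc' (by linarith) hφi with hmono | hanti
    · have h1 : φ (-a) ≤ φ a := hmono.monotoneOn ⟨le_rfl, by linarith⟩ ⟨by linarith, le_rfl⟩
        (by linarith)
      have h2 : 0 ≤ φ a := by rw [hodd] at h1; linarith
      rw [abs_of_nonneg h2, ← hodd]
      apply subset_antisymm
      · rintro _ ⟨x, hx, rfl⟩
        exact ⟨hmono.monotoneOn ⟨le_rfl, by linarith⟩ hx hx.1,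
          hmono.monotoneOn hx ⟨by linarith, le_rfl⟩ hx.2⟩
      · exact intermediate_value_Icc (by linarith) hφc
    · have h1 : φ a ≤ φ (-a) := hanti.antitoneOn ⟨le_rfl, by linarith⟩ ⟨by linarith, le_rfl⟩
        (by linarith)
      have h2 : φ a ≤ 0 := by rw [hodd] at h1; linarith
      rw [abs_of_nonpos h2, neg_neg, ← hodd]
      apply subset_antisymm
      · rintro _ ⟨x, hx, rfl⟩
        exact ⟨hanti.antitoneOn hx ⟨by linarith, le_rfl⟩ hx.2,
          hanti.antitoneOn ⟨le_rfl, by linarith⟩ hx hx.1⟩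
      · exact intermediate_value_Icc' (by linarith) hφc
  rw [slit, slit, ← himg]
  apply subset_antisymm
  · rintro _ ⟨_, ⟨x, hx, rfl⟩, rfl⟩
    exact ⟨φ x, ⟨x, hx, rfl⟩, (hreal x hx).symm⟩
  · rintro _ ⟨_, ⟨x, hx, rfl⟩, rfl⟩
    exact ⟨(x : ℂ), ⟨x, hx, rfl⟩, hreal x hx⟩

end Pool.Agent.Work.MP_a2a261_an
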