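import Mathlib

/-!
# Definitions: energy-minimal homeomorphisms between planar domains
-/

open MeasureTheory Set

namespace Pool.Agent.Work.MP_a2a261_an

/-- A domain `D ⊆ ℂ` (nonempty, open, connected) is `k`-connected if its complement in the
Riemann sphere has exactly `k` connected components. -/
def IsKConnectedDomain (k : ℕ) (D : Set ℂ) : Prop :=
  IsOpen D ∧ IsConnected D ∧
    Nat.card (ConnectedComponents ((((↑) : ℂ → OnePoint ℂ) '' D)ᶜ : Set (OnePoint ℂ))) = k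

/-- The restriction of `h` to `Ω` is a homeomorphism of `Ω` onto `Ω'`. -/
def IsHomeoOnto (Ω Ω' : Set ℂ) (h : ℂ → ℂ) : Prop := ∃ e : Ω ≃ₜ Ω', ∀ z : Ω, h z = e z

/-- `g` is the weak partial derivative of `h` on the open set `Ω` in the direction `v`:
`∫_Ω (∂_v φ) h = - ∫_Ω φ g` for all real test functions `φ ∈ C_c^∞(Ω)`. -/
def IsWeakPartial (Ω : Set ℂ) (v : ℂ) (h g : ℂ → ℂ) : Prop :=
  ∀ φ : ℂ → ℝ, ContDiff ℝ (⊤ : ℕ∞) φ → HasCompactSupport φ → tsupport φ ⊆ Ω →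
    ∫ z in Ω, (fderiv ℝ φ z v : ℂ) * h z = -∫ z in Ω, (φ z : ℂ) * g z

/-- `h` belongs to the Sobolev class `W^{1,2}(Ω)` and `hx`, `hy` are its weak partial derivatives
in the directions `1` and `i`. -/
structure IsW12 (Ω : Set ℂ) (h hx hy : ℂ → ℂ) : Prop where
  memLp : MemLp h 2 (volume.restrict Ω)
  memLp_x : MemLp hx 2 (volume.restrict Ω)
  memLp_y : MemLp hy 2 (volume.restrict Ω)
  weak_x : IsWeakPartial Ω 1 h hx
  weak_y : IsWeakPartial Ω Complex.I h hy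

/-- The Dirichlet energy `∫_Ω |Dh|²`, `|Dh|² = |hx|² + |hy|²` (Hilbert-Schmidt norm). -/
noncomputable def energy (Ω : Set ℂ) (hx hy : ℂ → ℂ) : ℝ :=
  ∫ z in Ω, (‖hx z‖ ^ 2 + ‖hy z‖ ^ 2)

/-- `h` is an energy-minimal homeomorphism of `Ω` onto `Ω'`: a homeomorphism of class
`W^{1,2}(Ω)` whose energy is not larger than that of any other such homeomorphism. -/
def IsEnergyMinimal (Ω Ω' : Set ℂ) (h : ℂ → ℂ) : Prop :=
  ∃ hx hy : ℂ → ℂ, IsHomeoOnto Ω Ω' h ∧ IsW12 Ω h hx hy ∧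
    ∀ g gx gy : ℂ → ℂ, IsHomeoOnto Ω Ω' g → IsW12 Ω g gx gy → energy Ω hx hy ≤ energy Ω gx gy

/-- The horizontal compression `x + iy ↦ εx + iy`. -/
noncomputable def compress (ε : ℝ) (z : ℂ) : ℂ := ⟨ε * z.re, z.im⟩

end Pool.Agent.Work.MP_a2a261_an
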