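import Mathlib
import Pool.Agent.Work.MP_a2a261_an.Defs
import Pool.Agent.Work.MP_a2a261_an.Conf

/-!
# A star-shaped domain minus a slit is doubly connected
-/

open Set Metric Filter Topology

namespace Pool.Agent.Work.MP_a2a261_an

theorem isOpen_diff_slit' {U : Set ℂ} (hU : IsOpen U) (a : ℝ) : IsOpen (U \ slit a) := by
  have hc : IsCompact (slit a) := isCompact_Icc.image Complex.continuous_ofReal
  exact hU.sdiff hc.isClosed

theorem star_smul_mem {U : Set ℂ} (hstar : StarConvex ℝ 0 U) {z : ℂ} (hz : z ∈ U) {t : ℝ}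
    (h0 : 0 ≤ t) (h1 : t ≤ 1) : t • z ∈ U :=
  starConvex_zero_iff.1 hstar hz h0 h1

theorem half_preconnected {U : Set ℂ} (hstar : StarConvex ℝ 0 U) {η : ℝ} (hη : 0 < η)
    (hball : ball (0 : ℂ) η ⊆ U) {s : ℝ} (hs : |s| = 1) :
    IsPreconnected (U ∩ {z : ℂ | 0 < s * z.im}) := by
  have hconv : Convex ℝ {z : ℂ | 0 < s * z.im} := by
    intro x hx y hy p q hp hq hpq
    simp only [mem_ofPred_eq] at hx hy ⊢
    rw [Complex.add_im, Complex.smul_im, Complex.smul_im, smul_eq_mul, smul_eq_mul]
    have h1 : s * (p * x.im + q * y.im) = p * (s * x.im) + q * (s * y.im) := by ring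
    rw [h1]
    rcases eq_or_lt_of_le hp with h | h
    · have : q = 1 := by linarith
      rw [← h, this]
      linarith
    · have h2 : 0 < p * (s * x.im) := mul_pos h hx
      have h3 : 0 ≤ q * (s * y.im) := mul_nonneg hq hy.le
      linarith
  set D : Set ℂ := ball (0 : ℂ) η ∩ {z : ℂ | 0 < s * z.im} with hD
  have hDc : IsPreconnected D := ((convex_ball 0 η).inter hconv).isPreconnected
  have hDU : D ⊆ U ∩ {z : ℂ | 0 < s * z.im} := fun z hz => ⟨hball hz.1, hz.2⟩
  have hs2 : s * s = 1 := by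
    have : s * s = |s| * |s| := (abs_mul_abs_self s).symm
    rw [this, hs, one_mul]
  set x₀ : ℂ := ⟨0, s * (η / 2)⟩ with hx₀
  have hx₀D : x₀ ∈ D := by
    constructor
    · rw [mem_ball_zero_iff]
      have h1 := Complex.norm_le_abs_re_add_abs_im x₀
      have h2 : |x₀.im| = η / 2 := by
        rw [hx₀]
        simp only
        rw [abs_mul, hs, one_mul, abs_of_pos (by linarith)]
      have h3 : |x₀.re| = 0 := by
        rw [hx₀]
        simp
      linarith
    · show 0 < s * (s * (η / 2))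
      rw [← mul_assoc, hs2]
      linarith
  apply isPreconnected_of_forall x₀
  intro y hy
  have hy0 : 0 < ‖y‖ := by
    rw [norm_pos_iff]
    intro h
    have := hy.2
    rw [h] at this
    simp at this
  set t : ℝ := min 1 (η / (2 * ‖y‖)) with ht
  have ht0 : 0 < t := lt_min one_pos (by positivity)
  have ht1 : t ≤ 1 := min_le_left _ _
  have hty : t • y ∈ D := by
    constructor
    · rw [mem_ball_zero_iff, norm_smul, Real.norm_of_nonneg ht0.le]
      have h1 : t ≤ η / (2 * ‖y‖) := min_le_right _ _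
      calc t * ‖y‖ ≤ η / (2 * ‖y‖) * ‖y‖ := by gcongr
        _ = η / 2 := by field_simp
        _ < η := by linarith
    · show 0 < s * (t • y).im
      rw [Complex.smul_im, smul_eq_mul]
      have : s * (t * y.im) = t * (s * y.im) := by ring
      rw [this]
      exact mul_pos ht0 hy.2
  set T : Set ℂ := (fun r : ℝ => r • y) '' Icc t 1 with hT
  have hTc : IsPreconnected T := isPreconnected_Icc.image _ (by fun_prop)
  have hTU : T ⊆ U ∩ {z : ℂ | 0 < s * z.im} := by
    rintro _ ⟨r, hr, rfl⟩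
    refine ⟨star_smul_mem hstar hy.1 (ht0.le.trans hr.1) hr.2, ?_⟩
    show 0 < s * (r • y).im
    rw [Complex.smul_im, smul_eq_mul]
    have : s * (r * y.im) = r * (s * y.im) := by ring
    rw [this]
    exact mul_pos (lt_of_lt_of_le ht0 hr.1) hy.2
  refine ⟨T ∪ D, union_subset hTU hDU, Or.inr hx₀D, Or.inl ⟨1, ⟨ht1, le_rfl⟩, one_smul _ _⟩, ?_⟩
  exact IsPreconnected.union (t • y) ⟨t, ⟨le_rfl, ht1⟩, rfl⟩ hty hTc hDc

theorem real_subset_closure {U : Set ℂ} (hU : IsOpen U) {s : ℝ} (hs : |s| = 1) :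
    {z ∈ U | z.im = 0} ⊆ closure (U ∩ {z : ℂ | 0 < s * z.im}) := by
  rintro z ⟨hz, hz0⟩
  have hs2 : s * s = 1 := by
    have : s * s = |s| * |s| := (abs_mul_abs_self s).symm
    rw [this, hs, one_mul]
  rw [Metric.mem_closure_iff]
  intro ε hε
  obtain ⟨δ, hδ, hball⟩ := Metric.isOpen_iff.1 hU z hz
  have hm : 0 < min ε δ := lt_min hε hδ
  set w : ℂ := ⟨z.re, s * (min ε δ / 2)⟩ with hw
  have hdist : dist z w = min ε δ / 2 := by
    have h1 : z - w = ⟨0, -(s * (min ε δ / 2))⟩ := by
      apply Complex.ext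
      · simp [hw]
      · simp [hw, hz0]
    rw [dist_eq_norm, h1, Complex.norm_def, Complex.normSq_mk]
    have h2 : 0 * 0 + -(s * (min ε δ / 2)) * -(s * (min ε δ / 2)) = (min ε δ / 2) ^ 2 := by
      have : 0 * 0 + -(s * (min ε δ / 2)) * -(s * (min ε δ / 2))
          = (s * s) * (min ε δ / 2) ^ 2 := by ring
      rw [this, hs2, one_mul]
    rw [h2, Real.sqrt_sq (by linarith)]
  refine ⟨w, ⟨hball ?_, ?_⟩, ?_⟩
  · rw [mem_ball, dist_comm, hdist]
    have := min_le_right ε δ
    linarith
  · show 0 < s * (s * (min ε δ / 2))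
    rw [← mul_assoc, hs2]
    linarith
  · rw [hdist]
    have := min_le_left ε δ
    linarith

theorem isConnected_diff_slit {U : Set ℂ} (hU : IsOpen U) (hstar : StarConvex ℝ 0 U)
    {a : ℝ} (ha : 0 < a) (hslit : slit a ⊆ U) : IsConnected (U \ slit a) := by
  have hc : IsCompact (slit a) := isCompact_Icc.image Complex.continuous_ofReal
  obtain ⟨η, hη, hth⟩ := hc.exists_thickening_subset_open hU hslit
  have h0s : (0 : ℂ) ∈ slit a := ⟨0, ⟨by linarith, ha.le⟩, by simp⟩
  have has : ((a : ℝ) : ℂ) ∈ slit a := ⟨a, ⟨by linarith, le_rfl⟩, rfl⟩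
  have hball : ball (0 : ℂ) η ⊆ U := (ball_subset_thickening h0s η).trans hth
  set p : ℂ := ((a + η / 2 : ℝ) : ℂ) with hp
  have hpU : p ∈ U := by
    apply hth
    apply ball_subset_thickening has η
    rw [mem_ball, dist_eq_norm, hp, ← Complex.ofReal_sub, Complex.norm_real, Real.norm_eq_abs]
    have : a + η / 2 - a = η / 2 := by ring
    rw [this, abs_of_pos (by linarith)]
    linarith
  have hpr : p.re = a + η / 2 := by rw [hp, Complex.ofReal_re]
  have hpi : p.im = 0 := by rw [hp, Complex.ofReal_im]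
  have hps : p ∉ slit a := by
    rw [mem_slit]
    rintro ⟨-, h⟩
    rw [hpr, abs_of_pos (by linarith)] at h
    linarith
  set R : Set ℂ := {z ∈ U | z.im = 0} \ slit a with hR
  have hpR : p ∈ R := ⟨⟨hpU, hpi⟩, hps⟩
  have key : ∀ s : ℝ, |s| = 1 → IsPreconnected ((U ∩ {z : ℂ | 0 < s * z.im}) ∪ R) := by
    intro s hs
    apply (half_preconnected hstar hη hball hs).subset_closure subset_union_left
    apply union_subset subset_closure
    exact sdiff_subset.trans (real_subset_closure hU hs)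
  have hun : U \ slit a = ((U ∩ {z : ℂ | 0 < (1 : ℝ) * z.im}) ∪ R) ∪
      ((U ∩ {z : ℂ | 0 < (-1 : ℝ) * z.im}) ∪ R) := by
    apply subset_antisymm
    · rintro z ⟨hz, hzs⟩
      rcases lt_trichotomy z.im 0 with h | h | h
      · right; left
        refine ⟨hz, ?_⟩
        show 0 < (-1 : ℝ) * z.im
        linarith
      · left; right
        exact ⟨⟨hz, h⟩, hzs⟩
      · left; left
        refine ⟨hz, ?_⟩
        show 0 < (1 : ℝ) * z.im
        linarith
    · have h1 : ∀ s : ℝ, (U ∩ {z : ℂ | 0 < s * z.im}) ∪ R ⊆ U \ slit a := by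
        intro s
        rintro z (hz | hz)
        · refine ⟨hz.1, fun h => ?_⟩
          have h2 := hz.2
          simp only [mem_ofPred_eq] at h2
          rw [(mem_slit.1 h).1, mul_zero] at h2
          exact lt_irrefl _ h2
        · exact ⟨hz.1.1, hz.2⟩
      exact union_subset (h1 1) (h1 (-1))
  refine ⟨⟨p, hpU, hps⟩, ?_⟩
  rw [hun]
  exact IsPreconnected.union p (Or.inr hpR) (Or.inr hpR) (key 1 (by simp)) (key (-1) (by simp))

/-- The set `{∞} ∪ Uᶜ` is connected for star-shaped `U`. -/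
theorem outer_preconnected {U : Set ℂ} (hstar : StarConvex ℝ 0 U)
    (h0 : (0 : ℂ) ∈ U) : IsPreconnected ((((↑) : ℂ → OnePoint ℂ) '' U)ᶜ) := by
  apply isPreconnected_of_forall (OnePoint.infty : OnePoint ℂ)
  intro y hy
  have hinf : (OnePoint.infty : OnePoint ℂ) ∈ (((↑) : ℂ → OnePoint ℂ) '' U)ᶜ := by
    rintro ⟨z, -, hz⟩
    exact OnePoint.coe_ne_infty z hz
  induction y using OnePoint.rec with
  | infty => exact ⟨{OnePoint.infty}, singleton_subset_iff.2 hinf, rfl, rfl, isPreconnected_singleton⟩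
  | coe z =>
    have hzU : z ∉ U := fun h => hy ⟨z, h, rfl⟩
    have hz0 : z ≠ 0 := fun h => hzU (h ▸ h0)
    set T : Set (OnePoint ℂ) := (fun r : ℝ => ((r • z : ℂ) : OnePoint ℂ)) '' Ici 1 with hT
    have hcont : Continuous (fun r : ℝ => ((r • z : ℂ) : OnePoint ℂ)) :=
      OnePoint.continuous_coe.comp (by fun_prop)
    have hTc : IsPreconnected T := isPreconnected_Ici.image _ hcont.continuousOn
    have hlim : Tendsto (fun r : ℝ => ((r • z : ℂ) : OnePoint ℂ)) atTop (𝓝 OnePoint.infty) := by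
      apply (OnePoint.tendsto_coe_infty (X := ℂ)).comp
      rw [coclosedCompact_eq_cocompact, ← Metric.cobounded_eq_cocompact,
        ← tendsto_norm_atTop_iff_cobounded]
      have h1 : (fun r : ℝ => ‖r • z‖) = fun r : ℝ => |r| * ‖z‖ := by
        ext r
        rw [norm_smul, Real.norm_eq_abs]
      rw [h1]
      exact tendsto_abs_atTop_atTop.atTop_mul_const (norm_pos_iff.2 hz0)
    have hmem : OnePoint.infty ∈ closure T := by
      apply mem_closure_of_tendsto hlim
      filter_upwards [eventually_ge_atTop 1] with r hr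
      exact ⟨r, hr, rfl⟩
    refine ⟨insert OnePoint.infty T, ?_, mem_insert _ _, mem_insert_of_mem _
      ⟨1, mem_Ici.2 le_rfl, congrArg _ (one_smul ℝ z)⟩, ?_⟩
    · apply insert_subset hinf
      rintro _ ⟨r, hr, rfl⟩ ⟨w, hw, hw'⟩
      have h1 : w = r • z := OnePoint.coe_injective hw'
      rw [h1] at hw
      have hr' : (1 : ℝ) ≤ r := hr
      have h2 := star_smul_mem hstar hw (t := 1 / r) (by positivity)
        ((div_le_one (by linarith)).2 hr')
      rw [smul_smul, one_div_mul_cancel (by linarith), one_smul] at h2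
      exact hzU h2
    · apply hTc.subset_closure (subset_insert _ _)
      exact insert_subset hmem subset_closure

/-- Two disjoint closed connected pieces give exactly two components. -/
theorem card_two {X : Type*} [TopologicalSpace X] {C A B : Set X} (hC : C = A ∪ B)
    (hA : IsClosed A) (hB : IsClosed B) (hdisj : Disjoint A B) (hAc : IsConnected A)
    (hBc : IsConnected B) : Nat.card (ConnectedComponents C) = 2 := by
  obtain ⟨a₀, ha₀⟩ := hAc.nonempty
  obtain ⟨b₀, hb₀⟩ := hBc.nonempty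
  have hAC : A ⊆ C := hC ▸ subset_union_left
  have hBC : B ⊆ C := hC ▸ subset_union_right
  have hpre : ∀ {S : Set X}, S ⊆ C → IsPreconnected S →
      IsPreconnected ((↑) ⁻¹' S : Set C) := by
    intro S hS hSc
    rw [← Topology.IsInducing.subtypeVal.isPreconnected_image, Subtype.image_preimage_coe,
      inter_eq_self_of_subset_right hS]
    exact hSc
  have hclopen : IsClopen ((↑) ⁻¹' A : Set C) := by
    refine ⟨hA.preimage continuous_subtype_val, ?_⟩
    have h1 : ((↑) ⁻¹' A : Set C) = ((↑) ⁻¹' B : Set C)ᶜ := by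
      ext x
      have hx : (x : X) ∈ A ∪ B := hC ▸ x.2
      constructor
      · intro h h'
        exact disjoint_left.1 hdisj h h'
      · intro h
        rcases hx with hx | hx
        · exact hx
        · exact absurd hx h
    rw [h1]
    exact (hB.preimage continuous_subtype_val).isOpen_compl
  rw [Nat.card_eq_two_iff]
  refine ⟨((⟨a₀, hAC ha₀⟩ : C) : ConnectedComponents C),
    ((⟨b₀, hBC hb₀⟩ : C) : ConnectedComponents C), ?_, ?_⟩
  · intro h
    rw [ConnectedComponents.coe_eq_coe] at h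
    have h1 : (⟨b₀, hBC hb₀⟩ : C) ∈ connectedComponent (⟨a₀, hAC ha₀⟩ : C) := by
      rw [h]
      exact mem_connectedComponent
    have h2 := hclopen.connectedComponent_subset
      (show (⟨a₀, hAC ha₀⟩ : C) ∈ ((↑) ⁻¹' A : Set C) from ha₀) h1
    exact disjoint_left.1 hdisj h2 hb₀
  · rw [eq_univ_iff_forall]
    intro q
    obtain ⟨x, rfl⟩ := ConnectedComponents.surjective_coe q
    have hx : (x : X) ∈ A ∪ B := hC ▸ x.2
    rcases hx with hx | hx
    · left
      rw [ConnectedComponents.coe_eq_coe]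
      apply connectedComponent_eq
      exact (hpre hAC hAc.isPreconnected).subset_connectedComponent hx ha₀
    · right
      rw [mem_singleton_iff, ConnectedComponents.coe_eq_coe]
      apply connectedComponent_eq
      exact (hpre hBC hBc.isPreconnected).subset_connectedComponent hx hb₀

theorem isKConnected_diff_slit {U : Set ℂ} (hU : IsOpen U) (hstar : StarConvex ℝ 0 U)
    (hne : U ≠ univ) {a : ℝ} (ha : 0 < a) (hslit : slit a ⊆ U) :
    IsKConnectedDomain 2 (U \ slit a) ∧
      ∀ x ∈ ((((↑) : ℂ → OnePoint ℂ) '' (U \ slit a))ᶜ),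
        (connectedComponentIn ((((↑) : ℂ → OnePoint ℂ) '' (U \ slit a))ᶜ) x).Nontrivial := by
  have h0s : (0 : ℂ) ∈ slit a := ⟨0, ⟨by linarith, ha.le⟩, by simp⟩
  have has : ((a : ℝ) : ℂ) ∈ slit a := ⟨a, ⟨by linarith, le_rfl⟩, rfl⟩
  have hc : IsCompact (slit a) := isCompact_Icc.image Complex.continuous_ofReal
  set A : Set (OnePoint ℂ) := ((↑) : ℂ → OnePoint ℂ) '' slit a with hA
  set B : Set (OnePoint ℂ) := (((↑) : ℂ → OnePoint ℂ) '' U)ᶜ with hB
  have hC : (((↑) : ℂ → OnePoint ℂ) '' (U \ slit a))ᶜ = A ∪ B := by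
    rw [image_sdiff OnePoint.coe_injective, hA, hB]
    ext x
    simp only [mem_compl_iff, Set.mem_sdiff, mem_union]
    tauto
  have hAcl : IsClosed A := (hc.image OnePoint.continuous_coe).isClosed
  have hBcl : IsClosed B := (OnePoint.isOpenEmbedding_coe.isOpenMap _ hU).isClosed_compl
  have hdisj : Disjoint A B := by
    rw [disjoint_left]
    rintro _ ⟨z, hz, rfl⟩ h
    exact h ⟨z, hslit hz, rfl⟩
  have hAcon : IsConnected A := by
    refine ⟨⟨_, ⟨0, h0s, rfl⟩⟩, ?_⟩
    apply IsPreconnected.image _ _ OnePoint.continuous_coe.continuousOn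
    exact isPreconnected_Icc.image _ Complex.continuous_ofReal.continuousOn
  have hinfB : (OnePoint.infty : OnePoint ℂ) ∈ B := by
    rintro ⟨z, -, hz⟩
    exact OnePoint.coe_ne_infty z hz
  have hBcon : IsConnected B := ⟨⟨_, hinfB⟩, outer_preconnected hstar (hslit h0s)⟩
  refine ⟨⟨isOpen_diff_slit' hU a, isConnected_diff_slit hU hstar ha hslit, ?_⟩, ?_⟩
  · exact card_two hC hAcl hBcl hdisj hAcon hBcon
  · intro x hx
    rw [hC] at hx ⊢
    rcases hx with hx | hx
    · refine Set.Nontrivial.mono (s := A)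
        (hst := hAcon.isPreconnected.subset_connectedComponentIn hx subset_union_left) ?_
      refine ⟨_, ⟨0, h0s, rfl⟩, _, ⟨_, has, rfl⟩, fun h => ?_⟩
      have := OnePoint.coe_injective h
      have h2 := congrArg Complex.re this
      rw [Complex.zero_re, Complex.ofReal_re] at h2
      exact ha.ne h2
    · refine Set.Nontrivial.mono (s := B)
        (hst := hBcon.isPreconnected.subset_connectedComponentIn hx subset_union_right) ?_
      obtain ⟨w, hw⟩ := (ne_univ_iff_exists_notMem U).1 hne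
      refine ⟨_, hinfB, (w : OnePoint ℂ), ?_, (OnePoint.coe_ne_infty w).symm⟩
      rintro ⟨z, hz, hz'⟩
      rw [OnePoint.coe_injective hz'] at hz
      exact hw hz

end Pool.Agent.Work.MP_a2a261_an
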