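import Mathlib
import Pool.Agent.Work.MP_bc4532_gt.NoRetract

/-!
# A topological lemma for planar homeomorphisms

If `h` is a homeomorphism between open subsets of the plane, `K` is a compact subset of its domain,
`p` is the image of an interior point of `K`, and `G` is continuous on `K` and closer to `h` than
`p` on the frontier of `K`, then `p` is a value of `G` on `K`.
-/

open Set Metric Filter Topology

namespace Pool.Agent.Work.MP_a2a261_an

open Pool.Agent.Work.MP_bc4532_gt (exists_zero_of_id_outside)

/-- A continuous self-map of the plane which is the identity outside a bounded set is onto. -/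
theorem surj_of_id_outside {Φ : ℂ → ℂ} (hΦ : Continuous Φ) {A : Set ℂ}
    (hA : Bornology.IsBounded A) (hid : ∀ q, q ∉ A → Φ q = q) (p : ℂ) : ∃ q, Φ q = p := by
  obtain ⟨R, hR⟩ := hA.subset_closedBall p
  set R' : ℝ := max R 1 with hR'
  have hR1 : 0 < R' + 1 := by positivity
  set r : ℂ := ((R' + 1 : ℝ) : ℂ) with hr
  have hr0 : r ≠ 0 := by
    rw [hr, Ne, Complex.ofReal_eq_zero]
    exact hR1.ne'
  obtain ⟨x, hx⟩ := exists_zero_of_id_outside (E := ℂ)
    (F := fun x => (Φ (p + r * x) - p) / r) (by fun_prop) (fun x hx => by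
      have h1 : p + r * x ∉ A := by
        intro h2
        have h3 := hR h2
        rw [mem_closedBall, dist_eq_norm, add_sub_cancel_left, norm_mul, hr,
          Complex.norm_real, Real.norm_of_nonneg hR1.le] at h3
        have h4 : R ≤ R' := le_max_left _ _
        nlinarith
      show (Φ (p + r * x) - p) / r = x
      rw [hid _ h1]
      field_simp
      ring)
  refine ⟨p + r * x, ?_⟩
  have hx' : (Φ (p + r * x) - p) / r = 0 := hx
  rw [div_eq_zero_iff] at hx'
  rcases hx' with h | h
  · exact sub_eq_zero.mp h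
  · exact absurd h hr0

theorem mem_image_of_near {Ω Ω' : Set ℂ} (hΩ : IsOpen Ω) (hΩ' : IsOpen Ω') (e : Ω ≃ₜ Ω')
    {h : ℂ → ℂ} (he : ∀ z : Ω, h z = e z) {K : Set ℂ} (hK : IsCompact K) (hKΩ : K ⊆ Ω)
    {p : ℂ} (hp : p ∈ h '' interior K) {G : ℂ → ℂ} (hG : ContinuousOn G K)
    (hnear : ∀ x ∈ frontier K, dist (G x) (h x) < dist (h x) p) : p ∈ G '' K := by
  classical
  by_contra hcon
  have hGp : ∀ x ∈ K, G x ≠ p := fun x hx hxp => hcon ⟨x, hx, hxp⟩
  have hKc : IsClosed K := hK.isClosed
  have hfK : frontier K ⊆ K := hKc.frontier_subset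
  -- `h` on `Ω`
  have hh : ContinuousOn h Ω := by
    rw [continuousOn_iff_continuous_domRestrict]
    have : Ω.domRestrict h = fun z : Ω => (e z : ℂ) := by
      funext z
      exact he z
    rw [this]
    exact continuous_subtype_val.comp e.continuous
  have hinj : InjOn h Ω := by
    intro x hx y hy hxy
    have h1 := he ⟨x, hx⟩
    have h2 := he ⟨y, hy⟩
    simp only at h1 h2
    have h3 : e ⟨x, hx⟩ = e ⟨y, hy⟩ := Subtype.ext (by rw [← h1, ← h2, hxy])
    exact congrArg Subtype.val (e.injective h3)
  -- the continuous function `L` on the frontier and its extension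
  have hLc : ContinuousOn (fun x => Complex.log ((h x - p) / (G x - p))) (frontier K) := by
    apply ContinuousOn.clog
    · apply ContinuousOn.div
      · exact (hh.mono (hfK.trans hKΩ)).sub continuousOn_const
      · exact (hG.mono hfK).sub continuousOn_const
      · intro x hx
        exact sub_ne_zero.mpr (hGp x (hfK hx))
    · intro x hx
      have h1 := hnear x hx
      have hhp : h x - p ≠ 0 := by
        intro h2
        rw [dist_eq_norm (h x) p, h2, norm_zero] at h1
        exact absurd h1 (not_lt.mpr dist_nonneg)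
      have hGp' : G x - p ≠ 0 := sub_ne_zero.mpr (hGp x (hfK hx))
      -- `w = (G x - p) / (h x - p)` has positive real part
      set w := (G x - p) / (h x - p) with hw
      have hw1 : ‖w - 1‖ < 1 := by
        have : w - 1 = (G x - h x) / (h x - p) := by
          rw [hw]
          field_simp
          ring
        rw [this, norm_div, div_lt_one (norm_pos_iff.mpr hhp), ← dist_eq_norm, ← dist_eq_norm]
        exact h1
      have hwre : 0 < w.re := by
        have := Complex.abs_re_le_norm (w - 1)
        rw [Complex.sub_re, Complex.one_re] at this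
        have h3 := abs_le.mp this
        linarith [h3.1]
      have hinv : (h x - p) / (G x - p) = w⁻¹ := by
        rw [hw, inv_div]
      rw [hinv, Complex.mem_slitPlane_iff]
      left
      rw [Complex.inv_re]
      apply div_pos hwre
      rw [Complex.normSq_pos]
      intro h4
      rw [h4] at hwre
      simp at hwre
  obtain ⟨Lt, hLt⟩ := ContinuousMap.exists_restrict_eq (X := ℂ) (Y := ℂ) (isClosed_frontier (s := K))
    ⟨(frontier K).domRestrict (fun x => Complex.log ((h x - p) / (G x - p))),
      continuousOn_iff_continuous_domRestrict.mp hLc⟩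
  have hLt' : ∀ x ∈ frontier K, Lt x = Complex.log ((h x - p) / (G x - p)) := by
    intro x hx
    exact DFunLike.congr_fun hLt ⟨x, hx⟩
  -- the modified map
  set G' : ℂ → ℂ := fun x => p + (G x - p) * Complex.exp (Lt x) with hG'
  have hG'c : ContinuousOn G' K := by
    apply continuousOn_const.add
    apply (hG.sub continuousOn_const).mul
    exact (Complex.continuous_exp.comp Lt.continuous).continuousOn
  have hG'p : ∀ x ∈ K, G' x ≠ p := by
    intro x hx h1
    have h2 : (G x - p) * Complex.exp (Lt x) = 0 := by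
      have : p + (G x - p) * Complex.exp (Lt x) = p := h1
      linear_combination this
    rcases mul_eq_zero.mp h2 with h3 | h3
    · exact hGp x hx (sub_eq_zero.mp h3)
    · exact Complex.exp_ne_zero _ h3
  have hG'f : ∀ x ∈ frontier K, G' x = h x := by
    intro x hx
    have h1 := hnear x hx
    have hhp : h x - p ≠ 0 := by
      intro h2
      rw [dist_eq_norm (h x) p, h2, norm_zero] at h1
      exact absurd h1 (not_lt.mpr dist_nonneg)
    have hGp' : G x - p ≠ 0 := sub_ne_zero.mpr (hGp x (hfK hx))
    rw [hG']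
    simp only
    rw [hLt' x hx, Complex.exp_log (div_ne_zero hhp hGp')]
    field_simp
    ring
  -- the inverse homeomorphism
  set k : ℂ → ℂ := fun q => if hq : q ∈ Ω' then (e.symm ⟨q, hq⟩ : ℂ) else 0 with hk
  have hkc : ContinuousOn k Ω' := by
    rw [continuousOn_iff_continuous_domRestrict]
    have : Ω'.domRestrict k = fun z : Ω' => (e.symm z : ℂ) := by
      funext z
      simp [hk, domRestrict_apply]
    rw [this]
    exact continuous_subtype_val.comp e.symm.continuous
  have hkh : ∀ x ∈ Ω, k (h x) = x := by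
    intro x hx
    have h1 : h x = (e ⟨x, hx⟩ : ℂ) := he ⟨x, hx⟩
    rw [h1, hk]
    simp only [Subtype.coe_prop, dite_true, Subtype.coe_eta, Homeomorph.symm_apply_apply]
  have hhΩ' : ∀ x ∈ Ω, h x ∈ Ω' := by
    intro x hx
    rw [he ⟨x, hx⟩]
    exact (e ⟨x, hx⟩).2
  have hhk : ∀ q ∈ Ω', h (k q) = q := by
    intro q hq
    have h1 : k q = (e.symm ⟨q, hq⟩ : ℂ) := by simp [hk, hq]
    rw [h1, he (e.symm ⟨q, hq⟩), Homeomorph.apply_symm_apply]
  have hkΩ : ∀ q ∈ Ω', k q ∈ Ω := by
    intro q hq
    have h1 : k q = (e.symm ⟨q, hq⟩ : ℂ) := by simp [hk, hq]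
    rw [h1]
    exact (e.symm ⟨q, hq⟩).2
  have hAc : IsCompact (h '' K) := hK.image_of_continuousOn (hh.mono hKΩ)
  have hBo : IsOpen (h '' interior K) := by
    have h1 : h '' interior K = Ω' ∩ k ⁻¹' (interior K) := by
      ext q
      constructor
      · rintro ⟨x, hx, rfl⟩
        have hxΩ : x ∈ Ω := hKΩ (interior_subset hx)
        refine ⟨hhΩ' x hxΩ, ?_⟩
        rw [mem_preimage, hkh x hxΩ]
        exact hx
      · rintro ⟨hq, hkq⟩
        exact ⟨k q, hkq, hhk q hq⟩
    rw [h1]
    exact hkc.isOpen_inter_preimage hΩ' isOpen_interior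
  -- the global map
  set Φ : ℂ → ℂ := fun q => if q ∈ h '' K then G' (k q) else q with hΦ
  have hΦA : EqOn Φ (fun q => G' (k q)) (h '' K) := fun q hq => by
    simp only [hΦ, if_pos hq]
  have hΦB : EqOn Φ id (h '' interior K)ᶜ := fun q hq => by
    by_cases hqA : q ∈ h '' K
    · obtain ⟨x, hxK, rfl⟩ := hqA
      have hxf : x ∈ frontier K := by
        rw [hKc.frontier_eq]
        exact ⟨hxK, fun hxi => hq ⟨x, hxi, rfl⟩⟩
      have : Φ (h x) = G' (k (h x)) := hΦA ⟨x, hxK, rfl⟩
      rw [this, hkh x (hKΩ hxK), hG'f x hxf, id]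
    · simp only [hΦ, if_neg hqA, id]
  have hΦc : Continuous Φ := by
    rw [← continuousOn_univ]
    have hcov : (univ : Set ℂ) = h '' K ∪ (h '' interior K)ᶜ := by
      rw [eq_comm, eq_univ_iff_forall]
      intro q
      by_cases hq : q ∈ h '' interior K
      · left
        exact image_mono interior_subset hq
      · right
        exact hq
    rw [hcov]
    apply ContinuousOn.union_of_isClosed
    · refine ContinuousOn.congr ?_ hΦA
      apply hG'c.comp (hkc.mono _)
      · rintro _ ⟨x, hx, rfl⟩
        rw [hkh x (hKΩ hx)]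
        exact hx
      · rintro _ ⟨x, hx, rfl⟩
        exact hhΩ' x (hKΩ hx)
    · exact continuousOn_id.congr hΦB
    · exact hAc.isClosed
    · exact hBo.isClosed_compl
  obtain ⟨q, hq⟩ := surj_of_id_outside hΦc hAc.isBounded
    (fun q hq => by simp only [hΦ, if_neg hq]) p
  by_cases hqA : q ∈ h '' K
  · obtain ⟨x, hxK, rfl⟩ := hqA
    have : Φ (h x) = G' (k (h x)) := hΦA ⟨x, hxK, rfl⟩
    rw [this, hkh x (hKΩ hxK)] at hq
    exact hG'p x hxK hq
  · simp only [hΦ, if_neg hqA] at hq
    rw [hq] at hqA
    exact hqA (image_mono interior_subset hp)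

end Pool.Agent.Work.MP_a2a261_an
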