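import Mathlib
import Pool.Agent.Work.MP_a2a261_an.Defs
import Pool.Agent.Work.MP_a2a261_an.Area59Top

/-!
# The area inequality for planar Sobolev homeomorphisms

If `h` is a homeomorphism of class `W^{1,2}` between planar open sets, its Dirichlet energy is at
least twice the area of the image.
-/

open MeasureTheory Set Metric Filter Topology
open scoped ENNReal NNReal ContDiff Convolution

namespace Pool.Agent.Work.MP_a2a261_an

theorem abs_det_le (A : ℂ →L[ℝ] ℂ) : |A.det| ≤ (‖A 1‖ ^ 2 + ‖A Complex.I‖ ^ 2) / 2 := by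
  have h1 : A.det = (A 1).re * (A Complex.I).im - (A Complex.I).re * (A 1).im := by
    rw [ContinuousLinearMap.det, ← LinearMap.det_toMatrix Complex.basisOneI, Matrix.det_fin_two]
    simp [LinearMap.toMatrix_apply]
  rw [h1, ← Complex.normSq_eq_norm_sq, ← Complex.normSq_eq_norm_sq, Complex.normSq_apply,
    Complex.normSq_apply, abs_le]
  constructor
  · nlinarith [sq_nonneg ((A 1).re + (A Complex.I).im), sq_nonneg ((A 1).im - (A Complex.I).re)]
  · nlinarith [sq_nonneg ((A 1).re - (A Complex.I).im), sq_nonneg ((A 1).im + (A Complex.I).re)]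

theorem sq_lintegral_le {α : Type*} [MeasurableSpace α] {ν : Measure α} (hν : ν univ ≤ 1)
    {f : α → ℝ≥0∞} (hf : AEMeasurable f ν) : (∫⁻ x, f x ∂ν) ^ 2 ≤ ∫⁻ x, f x ^ 2 ∂ν := by
  have h1 := ENNReal.lintegral_mul_le_Lp_mul_Lq ν Real.HolderConjugate.two_two hf
    (aemeasurable_const (b := (1 : ℝ≥0∞)))
  have h2 : (∫⁻ a, ((f * fun _ => (1 : ℝ≥0∞) : α → ℝ≥0∞)) a ∂ν) = ∫⁻ x, f x ∂ν := by
    apply lintegral_congr
    intro a
    simp
  rw [h2] at h1
  have h3 : (∫⁻ a, (fun _ => (1 : ℝ≥0∞)) a ^ (2 : ℝ) ∂ν) ^ (1 / (2 : ℝ)) ≤ 1 := by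
    have : (∫⁻ a, (fun _ => (1 : ℝ≥0∞)) a ^ (2 : ℝ) ∂ν) = ν univ := by simp
    rw [this]
    exact ENNReal.rpow_le_one hν (by norm_num)
  have h4 : ∫⁻ x, f x ∂ν ≤ (∫⁻ a, f a ^ (2 : ℝ) ∂ν) ^ (1 / (2 : ℝ)) :=
    h1.trans (mul_le_of_le_one_right' h3)
  have h5 : (∫⁻ a, f a ^ (2 : ℝ) ∂ν) = ∫⁻ a, f a ^ 2 ∂ν := by
    apply lintegral_congr
    intro a
    exact_mod_cast ENNReal.rpow_natCast (f a) 2
  rw [h5] at h4
  calc (∫⁻ x, f x ∂ν) ^ 2 ≤ ((∫⁻ a, f a ^ 2 ∂ν) ^ (1 / (2 : ℝ))) ^ 2 := by gcongr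
    _ = ∫⁻ a, f a ^ 2 ∂ν := by
      rw [← ENNReal.rpow_natCast, ← ENNReal.rpow_mul]
      norm_num

section

variable (φ : ContDiffBump (0 : ℂ))

/-- the mollifier -/
noncomputable abbrev moll : ℂ → ℝ := φ.normed volume

theorem moll_contDiff : ContDiff ℝ (⊤ : ℕ∞) (moll φ) := φ.contDiff_normed

theorem moll_support_subset : tsupport (moll φ) ⊆ closedBall 0 φ.rOut := by
  rw [φ.tsupport_normed_eq]

/-- the mollification -/
noncomputable def mol (Ω : Set ℂ) (h : ℂ → ℂ) : ℂ → ℂ :=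
  (moll φ ⋆[ContinuousLinearMap.lsmul ℝ ℝ, volume] Ω.indicator h : ℂ → ℂ)

/-- its derivative -/
noncomputable def molD (Ω : Set ℂ) (h : ℂ → ℂ) (x : ℂ) : ℂ →L[ℝ] ℂ :=
  (fderiv ℝ (moll φ) ⋆[(ContinuousLinearMap.lsmul ℝ ℝ).precompL ℂ, volume] Ω.indicator h) x

theorem locInt_indicator {Ω : Set ℂ} (hΩ : IsOpen Ω) {h : ℂ → ℂ}
    (hm : MemLp h 2 (volume.restrict Ω)) : LocallyIntegrable (Ω.indicator h) volume := by
  have h1 : MemLp (Ω.indicator h) 2 volume := (memLp_indicator_iff_restrict hΩ.measurableSet).mpr hm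
  exact h1.locallyIntegrable (by norm_num)

theorem mol_hasFDerivAt {Ω : Set ℂ} (hΩ : IsOpen Ω) {h : ℂ → ℂ}
    (hm : MemLp h 2 (volume.restrict Ω)) (x : ℂ) :
    HasFDerivAt (mol φ Ω h) (molD φ Ω h x) x :=
  φ.hasCompactSupport_normed.hasFDerivAt_convolution_left (ContinuousLinearMap.lsmul ℝ ℝ)
    φ.contDiff_normed (locInt_indicator hΩ hm) x

theorem molD_apply {Ω : Set ℂ} (hΩ : IsOpen Ω) {h : ℂ → ℂ}
    (hm : MemLp h 2 (volume.restrict Ω)) (x v : ℂ) :
    molD φ Ω h x v = ∫ w in Ω, (fderiv ℝ (moll φ) (x - w) v) • h w := by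
  have hex : ConvolutionExistsAt (fderiv ℝ (moll φ)) (Ω.indicator h) x
      ((ContinuousLinearMap.lsmul ℝ ℝ (E := ℂ)).precompL ℂ) volume :=
    (φ.hasCompactSupport_normed.fderiv (𝕜 := ℝ)).convolutionExists_left _
      (φ.contDiff_normed.continuous_fderiv (n := 1) one_ne_zero) (locInt_indicator hΩ hm) x
  rw [molD, convolution_def, ContinuousLinearMap.integral_apply hex.integrable]
  have h1 : (fun t => (((ContinuousLinearMap.lsmul ℝ ℝ (E := ℂ)).precompL ℂ)
      (fderiv ℝ (moll φ) t) (Ω.indicator h (x - t))) v)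
      = fun t => (fun w => (fderiv ℝ (moll φ) (x - w) v) • Ω.indicator h w) (x - t) := by
    funext t
    simp [ContinuousLinearMap.precompL_apply]
  rw [h1, integral_sub_left_eq_self
    (fun w => (fderiv ℝ (moll φ) (x - w) v) • Ω.indicator h w) volume x,
    ← integral_indicator hΩ.measurableSet]
  apply integral_congr_ae
  apply Eventually.of_forall
  intro w
  simp only [indicator]
  split_ifs <;> simp

theorem weak_molD {Ω : Set ℂ} (hΩ : IsOpen Ω) {h g : ℂ → ℂ} {v : ℂ}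
    (hm : MemLp h 2 (volume.restrict Ω)) (hw : IsWeakPartial Ω v h g) {x : ℂ}
    (hx : closedBall x φ.rOut ⊆ Ω) :
    molD φ Ω h x v = ∫ w in Ω, (moll φ (x - w) : ℂ) * g w := by
  have hfd : ∀ w, fderiv ℝ (fun w => moll φ (x - w)) w v = -fderiv ℝ (moll φ) (x - w) v := by
    intro w
    have h1 : HasFDerivAt (moll φ) (fderiv ℝ (moll φ) (x - w)) (x - w) :=
      ((moll_contDiff φ).differentiable (by norm_num) (x - w)).hasFDerivAt
    have h2 : HasFDerivAt (fun w : ℂ => x - w) (-ContinuousLinearMap.id ℝ ℂ) w := by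
      simpa using (hasFDerivAt_id w).const_sub x
    have h3 := h1.comp w h2
    have h4 : fderiv ℝ (fun w => moll φ (x - w)) w
        = (fderiv ℝ (moll φ) (x - w)).comp (-ContinuousLinearMap.id ℝ ℂ) := h3.fderiv
    rw [h4]
    simp
  have hts : tsupport (fun w => moll φ (x - w)) ⊆ closedBall x φ.rOut := by
    apply closure_minimal _ isClosed_closedBall
    intro w hw
    rw [Function.mem_support] at hw
    have h1 : x - w ∈ tsupport (moll φ) := subset_tsupport _ hw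
    have h2 := moll_support_subset φ h1
    rw [mem_closedBall, dist_zero_right] at h2
    rw [mem_closedBall, dist_comm, dist_eq_norm]
    exact h2
  have hcs : HasCompactSupport (fun w => moll φ (x - w)) :=
    (isCompact_closedBall x φ.rOut).of_isClosed_subset (isClosed_tsupport _) hts
  have h1 := hw (fun w => moll φ (x - w))
    ((moll_contDiff φ).comp (contDiff_const.sub contDiff_id)) hcs (hts.trans hx)
  rw [molD_apply φ hΩ hm]
  have h2 : ∫ w in Ω, (fderiv ℝ (moll φ) (x - w) v) • h w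
      = -∫ w in Ω, (fderiv ℝ (fun w => moll φ (x - w)) w v : ℂ) * h w := by
    rw [← integral_neg]
    apply integral_congr_ae
    apply Eventually.of_forall
    intro w
    simp only
    rw [hfd w]
    simp
  rw [h2, h1, neg_neg]

theorem enorm_molD_le {Ω : Set ℂ} (hΩ : IsOpen Ω) {h g : ℂ → ℂ} {v : ℂ}
    (hm : MemLp h 2 (volume.restrict Ω)) (hg : MemLp g 2 (volume.restrict Ω))
    (hw : IsWeakPartial Ω v h g) {x : ℂ}
    (hx : closedBall x φ.rOut ⊆ Ω) :
    ‖molD φ Ω h x v‖ₑ ^ 2 ≤ ∫⁻ w in Ω, ENNReal.ofReal (moll φ (x - w)) * ‖g w‖ₑ ^ 2 := by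
  rw [weak_molD φ hΩ hm hw hx]
  have hmc : Continuous (moll φ) := (moll_contDiff φ).continuous
  set d : ℂ → ℝ≥0∞ := fun w => ENNReal.ofReal (moll φ (x - w)) with hd
  have hdm : Measurable d := (hmc.comp (continuous_const.sub continuous_id)).measurable.ennreal_ofReal
  have h1 : ‖∫ w in Ω, (moll φ (x - w) : ℂ) * g w‖ₑ ≤ ∫⁻ w in Ω, d w * ‖g w‖ₑ := by
    refine (enorm_integral_le_lintegral_enorm _).trans (le_of_eq ?_)
    apply lintegral_congr
    intro w
    rw [enorm_mul]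
    congr 1
    rw [hd]
    simp only
    rw [← ofReal_norm, Complex.norm_real, Real.norm_of_nonneg (φ.nonneg_normed _)]
  have h2 : ∫⁻ w in Ω, d w * ‖g w‖ₑ = ∫⁻ w, ‖g w‖ₑ ∂((volume.restrict Ω).withDensity d) := by
    rw [lintegral_withDensity_eq_lintegral_mul₀ hdm.aemeasurable hg.1.enorm]
    rfl
  have h3 : ∫⁻ w in Ω, d w * ‖g w‖ₑ ^ 2
      = ∫⁻ w, ‖g w‖ₑ ^ 2 ∂((volume.restrict Ω).withDensity d) := by
    rw [lintegral_withDensity_eq_lintegral_mul₀ hdm.aemeasurable (hg.1.enorm.pow_const 2)]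
    rfl
  have hν : ((volume.restrict Ω).withDensity d) univ ≤ 1 := by
    rw [withDensity_apply _ MeasurableSet.univ, Measure.restrict_univ]
    calc ∫⁻ w in Ω, d w ≤ ∫⁻ w, d w := setLIntegral_le_lintegral _ _
      _ = ∫⁻ w, ENNReal.ofReal (moll φ w) := by
        rw [hd]
        exact lintegral_sub_left_eq_self (fun w => ENNReal.ofReal (moll φ w)) x
      _ = ENNReal.ofReal (∫ w, moll φ w) := by
        rw [ofReal_integral_eq_lintegral_ofReal φ.integrable_normed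
          (Eventually.of_forall φ.nonneg_normed)]
      _ = 1 := by rw [φ.integral_normed, ENNReal.ofReal_one]
  rw [h3]
  calc ‖∫ w in Ω, (moll φ (x - w) : ℂ) * g w‖ₑ ^ 2
      ≤ (∫⁻ w, ‖g w‖ₑ ∂((volume.restrict Ω).withDensity d)) ^ 2 := by
        rw [← h2]
        gcongr
    _ ≤ _ := sq_lintegral_le hν
        (hg.1.enorm.mono_ac (withDensity_absolutelyContinuous _ _))

theorem lintegral_molD_le {Ω : Set ℂ} (hΩ : IsOpen Ω) {h g : ℂ → ℂ} {v : ℂ}
    (hm : MemLp h 2 (volume.restrict Ω)) (hg : MemLp g 2 (volume.restrict Ω))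
    (hw : IsWeakPartial Ω v h g) {K : Set ℂ} (hK : MeasurableSet K)
    (hx : ∀ x ∈ K, closedBall x φ.rOut ⊆ Ω) :
    ∫⁻ x in K, ‖molD φ Ω h x v‖ₑ ^ 2 ≤ ∫⁻ w in Ω, ‖g w‖ₑ ^ 2 := by
  have hmc : Continuous (moll φ) := (moll_contDiff φ).continuous
  calc ∫⁻ x in K, ‖molD φ Ω h x v‖ₑ ^ 2
      ≤ ∫⁻ x in K, ∫⁻ w in Ω, ENNReal.ofReal (moll φ (x - w)) * ‖g w‖ₑ ^ 2 :=
        setLIntegral_mono' hK fun x hxK => enorm_molD_le φ hΩ hm hg hw (hx x hxK)
    _ = ∫⁻ w in Ω, ∫⁻ x in K, ENNReal.ofReal (moll φ (x - w)) * ‖g w‖ₑ ^ 2 := by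
        apply lintegral_lintegral_swap
        refine AEMeasurable.mul (f := fun p : ℂ × ℂ => ENNReal.ofReal (moll φ (p.1 - p.2)))
          (g := fun p : ℂ × ℂ => ‖g p.2‖ₑ ^ 2) ?_ ?_
        · exact ((hmc.comp (continuous_fst.sub continuous_snd)).measurable.ennreal_ofReal).aemeasurable
        · exact (hg.1.enorm.pow_const 2).comp_snd
    _ ≤ ∫⁻ w in Ω, ‖g w‖ₑ ^ 2 := by
        apply lintegral_mono
        intro w
        simp only
        have hmw : Measurable fun x : ℂ => ENNReal.ofReal (moll φ (x - w)) :=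
          (hmc.comp (continuous_id.sub continuous_const)).measurable.ennreal_ofReal
        rw [lintegral_mul_const _ hmw]
        apply mul_le_of_le_one_left'
        calc ∫⁻ x in K, ENNReal.ofReal (moll φ (x - w))
            ≤ ∫⁻ x, ENNReal.ofReal (moll φ (x - w)) := setLIntegral_le_lintegral _ _
          _ = ∫⁻ x, ENNReal.ofReal (moll φ x) :=
            lintegral_sub_right_eq_self (fun w => ENNReal.ofReal (moll φ w)) w
          _ = ENNReal.ofReal (∫ w, moll φ w) := by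
            rw [ofReal_integral_eq_lintegral_ofReal φ.integrable_normed
              (Eventually.of_forall φ.nonneg_normed)]
          _ = 1 := by rw [φ.integral_normed, ENNReal.ofReal_one]
          _ ≤ 1 := le_rfl

theorem volume_mol_image_le {Ω : Set ℂ} (hΩ : IsOpen Ω) {h hx hy : ℂ → ℂ}
    (hw : IsW12 Ω h hx hy) {K : Set ℂ} (hK : MeasurableSet K)
    (hKΩ : ∀ x ∈ K, closedBall x φ.rOut ⊆ Ω) :
    2 * volume (mol φ Ω h '' K) ≤ ∫⁻ w in Ω, (‖hx w‖ₑ ^ 2 + ‖hy w‖ₑ ^ 2) := by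
  have h1 : volume (mol φ Ω h '' K)
      ≤ ∫⁻ x in K, ENNReal.ofReal |(molD φ Ω h x).det| :=
    addHaar_image_le_lintegral_abs_det_fderiv volume hK fun x _ =>
      (mol_hasFDerivAt φ hΩ hw.memLp x).hasFDerivWithinAt
  have h2 : ∀ x, 2 * ENNReal.ofReal |(molD φ Ω h x).det|
      ≤ ‖molD φ Ω h x 1‖ₑ ^ 2 + ‖molD φ Ω h x Complex.I‖ₑ ^ 2 := by
    intro x
    have h3 := abs_det_le (molD φ Ω h x)
    have h4 : ∀ z : ℂ, ‖z‖ₑ ^ 2 = ENNReal.ofReal (‖z‖ ^ 2) := by
      intro z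
      rw [ENNReal.ofReal_pow (norm_nonneg _), ofReal_norm]
    rw [h4, h4, ← ENNReal.ofReal_add (by positivity) (by positivity)]
    have h5 : (2 : ℝ≥0∞) = ENNReal.ofReal 2 := by norm_num
    rw [h5, ← ENNReal.ofReal_mul (by norm_num)]
    apply ENNReal.ofReal_le_ofReal
    linarith
  have hmol : Measurable fun x => ‖molD φ Ω h x 1‖ₑ ^ 2 := by
    have : Continuous (molD φ Ω h) :=
      (φ.hasCompactSupport_normed.fderiv (𝕜 := ℝ)).continuous_convolution_left _
        (φ.contDiff_normed.continuous_fderiv (n := 1) one_ne_zero) (locInt_indicator hΩ hw.memLp)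
    exact (((ContinuousLinearMap.apply ℝ ℂ (1 : ℂ)).continuous.comp this).enorm.measurable).pow_const 2
  calc 2 * volume (mol φ Ω h '' K)
      ≤ 2 * ∫⁻ x in K, ENNReal.ofReal |(molD φ Ω h x).det| := by gcongr
    _ = ∫⁻ x in K, 2 * ENNReal.ofReal |(molD φ Ω h x).det| := by
        rw [lintegral_const_mul' _ _ (by norm_num)]
    _ ≤ ∫⁻ x in K, (‖molD φ Ω h x 1‖ₑ ^ 2 + ‖molD φ Ω h x Complex.I‖ₑ ^ 2) :=
        lintegral_mono fun x => h2 x
    _ = (∫⁻ x in K, ‖molD φ Ω h x 1‖ₑ ^ 2) + ∫⁻ x in K, ‖molD φ Ω h x Complex.I‖ₑ ^ 2 :=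
        lintegral_add_left hmol _
    _ ≤ (∫⁻ w in Ω, ‖hx w‖ₑ ^ 2) + ∫⁻ w in Ω, ‖hy w‖ₑ ^ 2 :=
        add_le_add (lintegral_molD_le φ hΩ hw.memLp hw.memLp_x hw.weak_x hK hKΩ)
          (lintegral_molD_le φ hΩ hw.memLp hw.memLp_y hw.weak_y hK hKΩ)
    _ = ∫⁻ w in Ω, (‖hx w‖ₑ ^ 2 + ‖hy w‖ₑ ^ 2) :=
        (lintegral_add_left' (hw.memLp_x.1.enorm.pow_const 2) _).symm

theorem dist_mol_le {Ω : Set ℂ} {h : ℂ → ℂ} (hΩ : IsOpen Ω)
    (hm : MemLp h 2 (volume.restrict Ω)) {x : ℂ} {ε : ℝ}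
    (hx : closedBall x φ.rOut ⊆ Ω) (hε : ∀ y ∈ ball x φ.rOut, dist (h y) (h x) ≤ ε) :
    dist (mol φ Ω h x) (h x) ≤ ε := by
  have hxΩ : x ∈ Ω := hx (mem_closedBall_self φ.rOut_pos.le)
  have h1 : Ω.indicator h x = h x := indicator_of_mem hxΩ h
  have h2 := φ.dist_normed_convolution_le (μ := volume) (x₀ := x) (ε := ε)
    (g := Ω.indicator h) (locInt_indicator hΩ hm).aestronglyMeasurable (fun y hy => by
      rw [h1, indicator_of_mem (hx (ball_subset_closedBall hy))]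
      exact hε y hy)
  rw [h1] at h2
  exact h2

end

/-- The standard sequence of bumps. -/
noncomputable def bump (n : ℕ) : ContDiffBump (0 : ℂ) where
  rIn := 1 / (2 * ((n : ℝ) + 1))
  rOut := 1 / ((n : ℝ) + 1)
  rIn_pos := by positivity
  rIn_lt_rOut := by
    apply one_div_lt_one_div_of_lt (by positivity)
    have : (0 : ℝ) ≤ n := Nat.cast_nonneg n
    linarith

theorem bump_rOut (n : ℕ) : (bump n).rOut = 1 / ((n : ℝ) + 1) := rfl

theorem volume_interior_le {Ω Ω' : Set ℂ} (hΩ : IsOpen Ω) (hΩ' : IsOpen Ω') (e : Ω ≃ₜ Ω')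
    {h hx hy : ℂ → ℂ} (he : ∀ z : Ω, h z = e z) (hw : IsW12 Ω h hx hy) {K : Set ℂ}
    (hK : IsCompact K) (hKΩ : K ⊆ Ω) :
    2 * volume (h '' interior K) ≤ ∫⁻ w in Ω, (‖hx w‖ₑ ^ 2 + ‖hy w‖ₑ ^ 2) := by
  have hh : ContinuousOn h Ω := by
    rw [continuousOn_iff_continuous_domRestrict]
    have : Ω.domRestrict h = fun z : Ω => (e z : ℂ) := by
      funext z
      exact he z
    rw [this]
    exact continuous_subtype_val.comp e.continuous
  have hinj : InjOn h Ω := by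
    intro x hx y hy hxy
    have h1 := he ⟨x, hx⟩
    have h2 := he ⟨y, hy⟩
    simp only at h1 h2
    have h3 : e ⟨x, hx⟩ = e ⟨y, hy⟩ := Subtype.ext (by rw [← h1, ← h2, hxy])
    exact congrArg Subtype.val (e.injective h3)
  obtain ⟨δ, hδ, hδΩ⟩ := hK.exists_cthickening_subset_open hΩ hKΩ
  set K' := cthickening δ K with hK'
  have hK'c : IsCompact K' := hK.cthickening
  obtain ⟨N₀, hN₀⟩ := exists_nat_one_div_lt hδ
  have hball : ∀ n, N₀ ≤ n → ∀ x ∈ K, closedBall x (bump n).rOut ⊆ K' := by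
    intro n hn x hx
    have h1 : (bump n).rOut ≤ δ := by
      rw [bump_rOut]
      refine le_trans ?_ hN₀.le
      apply one_div_le_one_div_of_le (by positivity)
      have : (N₀ : ℝ) ≤ n := Nat.cast_le.mpr hn
      linarith
    exact (closedBall_subset_closedBall h1).trans (closedBall_subset_cthickening hx δ)
  set V : ℕ → Set ℂ := fun N => ⋂ n ∈ Ici (max N N₀), mol (bump n) Ω h '' K with hV
  have hVmono : Monotone V := by
    intro a b hab
    simp only [hV]
    apply biInter_subset_biInter_left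
    intro n hn
    rw [mem_Ici] at hn ⊢
    exact le_trans (max_le_max_right _ hab) hn
  have hVvol : ∀ N, 2 * volume (V N) ≤ ∫⁻ w in Ω, (‖hx w‖ₑ ^ 2 + ‖hy w‖ₑ ^ 2) := by
    intro N
    have h1 : V N ⊆ mol (bump (max N N₀)) Ω h '' K := by
      simp only [hV]
      exact biInter_subset_of_mem (mem_Ici.mpr le_rfl)
    calc 2 * volume (V N) ≤ 2 * volume (mol (bump (max N N₀)) Ω h '' K) := by gcongr
      _ ≤ _ := volume_mol_image_le _ hΩ hw hK.measurableSet
        fun x hx => (hball _ (le_max_right _ _) x hx).trans hδΩ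
  have hsub : h '' interior K ⊆ ⋃ N, V N := by
    intro p hp
    -- distance to the image of the frontier
    obtain ⟨d, hd, hdK⟩ : ∃ d > 0, ∀ x ∈ frontier K, d ≤ dist (h x) p := by
      rcases (frontier K).eq_empty_or_nonempty with hem | hne
      · exact ⟨1, one_pos, fun x hx => by rw [hem] at hx; exact absurd hx (notMem_empty x)⟩
      · have hfc : IsCompact (frontier K) :=
          hK.of_isClosed_subset isClosed_frontier hK.isClosed.frontier_subset
        have hcont : ContinuousOn (fun x => dist (h x) p) (frontier K) :=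
          continuous_dist.comp_continuousOn
            ((hh.mono (hK.isClosed.frontier_subset.trans hKΩ)).prodMk continuousOn_const)
        obtain ⟨x₀, hx₀, hmin⟩ := hfc.exists_isMinOn hne hcont
        refine ⟨dist (h x₀) p, ?_, fun x hx => hmin hx⟩
        rw [gt_iff_lt, dist_pos]
        intro heq
        obtain ⟨y, hy, hyp⟩ := hp
        have : x₀ = y := hinj (hKΩ (hK.isClosed.frontier_subset hx₀)) (hKΩ (interior_subset hy))
          (heq.trans hyp.symm)
        rw [this] at hx₀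
        exact hx₀.2 hy
    -- uniform continuity
    have huc : UniformContinuousOn h K' := hK'c.uniformContinuousOn_of_continuous (hh.mono hδΩ)
    rw [Metric.uniformContinuousOn_iff] at huc
    obtain ⟨η, hη, hηK⟩ := huc (d / 2) (half_pos hd)
    obtain ⟨N₁, hN₁⟩ := exists_nat_one_div_lt hη
    rw [mem_iUnion]
    refine ⟨N₁, ?_⟩
    simp only [hV]
    rw [mem_iInter₂]
    intro n hn
    rw [mem_Ici] at hn
    have hnN₀ : N₀ ≤ n := le_trans (le_max_right _ _) hn
    have hnN₁ : N₁ ≤ n := le_trans (le_max_left _ _) hn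
    have hrη : (bump n).rOut ≤ η := by
      rw [bump_rOut]
      refine le_trans ?_ hN₁.le
      apply one_div_le_one_div_of_le (by positivity)
      have : (N₁ : ℝ) ≤ n := Nat.cast_le.mpr hnN₁
      linarith
    apply mem_image_of_near hΩ hΩ' e he hK hKΩ hp
    · intro x hx
      exact (mol_hasFDerivAt (bump n) hΩ hw.memLp x).continuousAt.continuousWithinAt
    · intro x hx
      have hxK : x ∈ K := hK.isClosed.frontier_subset hx
      have h1 : dist (mol (bump n) Ω h x) (h x) ≤ d / 2 := by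
        apply dist_mol_le _ hΩ hw.memLp ((hball n hnN₀ x hxK).trans hδΩ)
        intro y hy
        apply le_of_lt
        apply hηK y (hball n hnN₀ x hxK (ball_subset_closedBall hy)) x
          (self_subset_cthickening K hxK)
        exact lt_of_lt_of_le (mem_ball.mp hy) hrη
      have h2 := hdK x hx
      linarith
  calc 2 * volume (h '' interior K) ≤ 2 * volume (⋃ N, V N) := by gcongr
    _ = 2 * ⨆ N, volume (V N) := by rw [hVmono.measure_iUnion]
    _ = ⨆ N, 2 * volume (V N) := ENNReal.mul_iSup _ _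
    _ ≤ _ := iSup_le hVvol

theorem area_inequality_lintegral {Ω Ω' : Set ℂ} (hΩ : IsOpen Ω) (hΩ' : IsOpen Ω')
    {h hx hy : ℂ → ℂ} (hh : IsHomeoOnto Ω Ω' h) (hw : IsW12 Ω h hx hy) :
    2 * volume Ω' ≤ ∫⁻ w in Ω, (‖hx w‖ₑ ^ 2 + ‖hy w‖ₑ ^ 2) := by
  obtain ⟨e, he⟩ := hh
  rw [hΩ'.measure_eq_iSup_isCompact, ENNReal.mul_iSup]
  apply iSup_le
  intro C
  rw [ENNReal.mul_iSup]
  apply iSup_le
  intro hCΩ'
  rw [ENNReal.mul_iSup]
  apply iSup_le
  intro hC
  -- the preimage of `C`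
  set C' : Set Ω' := Subtype.val ⁻¹' C with hC'
  have hC'c : IsCompact C' := by
    rw [Subtype.isCompact_iff]
    have : Subtype.val '' C' = C := by
      rw [hC', Subtype.image_preimage_coe]
      exact inter_eq_right.mpr hCΩ'
    rw [this]
    exact hC
  set D : Set ℂ := (fun z => (e.symm z : ℂ)) '' C' with hD
  have hDc : IsCompact D := hC'c.image (continuous_subtype_val.comp e.symm.continuous)
  have hDΩ : D ⊆ Ω := by
    rintro _ ⟨z, _, rfl⟩
    exact (e.symm z).2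
  obtain ⟨K, hK, hDK, hKΩ⟩ := exists_compact_between hDc hΩ hDΩ
  have hsub : C ⊆ h '' interior K := by
    intro q hq
    refine ⟨e.symm ⟨q, hCΩ' hq⟩, hDK ⟨⟨q, hCΩ' hq⟩, hq, rfl⟩, ?_⟩
    rw [he (e.symm ⟨q, hCΩ' hq⟩), Homeomorph.apply_symm_apply]
  calc 2 * volume C ≤ 2 * volume (h '' interior K) := by gcongr
    _ ≤ _ := volume_interior_le hΩ hΩ' e he hw hK hKΩ

/-- **The area inequality.** -/
theorem area_inequality {Ω Ω' : Set ℂ} (hΩ : IsOpen Ω) (hΩ' : IsOpen Ω')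
    {h hx hy : ℂ → ℂ} (hh : IsHomeoOnto Ω Ω' h) (hw : IsW12 Ω h hx hy) :
    2 * (volume Ω').toReal ≤ energy Ω hx hy := by
  have h1 := area_inequality_lintegral hΩ hΩ' hh hw
  have hint : Integrable (fun z => ‖hx z‖ ^ 2 + ‖hy z‖ ^ 2) (volume.restrict Ω) :=
    (hw.memLp_x.integrable_norm_pow (by norm_num)).add (hw.memLp_y.integrable_norm_pow (by norm_num))
  have h2 : energy Ω hx hy = (∫⁻ w in Ω, (‖hx w‖ₑ ^ 2 + ‖hy w‖ₑ ^ 2)).toReal := by
    rw [energy, integral_eq_lintegral_of_nonneg_ae (Eventually.of_forall fun z => by positivity)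
      hint.1]
    congr 1
    apply lintegral_congr
    intro z
    rw [ENNReal.ofReal_add (by positivity) (by positivity), ENNReal.ofReal_pow (norm_nonneg _),
      ENNReal.ofReal_pow (norm_nonneg _), ofReal_norm, ofReal_norm]
  have hfin : (∫⁻ w in Ω, (‖hx w‖ₑ ^ 2 + ‖hy w‖ₑ ^ 2)) ≠ ⊤ := by
    have h3 := hint.2
    rw [HasFiniteIntegral] at h3
    refine ne_of_lt (lt_of_le_of_lt (lintegral_mono fun z => ?_) h3)
    have h4 : ‖(‖hx z‖ ^ 2 + ‖hy z‖ ^ 2 : ℝ)‖ₑ = ENNReal.ofReal (‖hx z‖ ^ 2 + ‖hy z‖ ^ 2) := by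
      rw [← ofReal_norm, Real.norm_of_nonneg (by positivity)]
    rw [h4, ENNReal.ofReal_add (by positivity) (by positivity), ENNReal.ofReal_pow (norm_nonneg _),
      ENNReal.ofReal_pow (norm_nonneg _), ofReal_norm, ofReal_norm]
  rw [h2]
  have h3 := ENNReal.toReal_mono hfin h1
  rwa [ENNReal.toReal_mul, ENNReal.toReal_ofNat] at h3

end Pool.Agent.Work.MP_a2a261_an
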