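import Mathlib
import Pool.Agent.Work.MP_a2a261_an.Defs

/-!
# The energy of a conformal map
-/

open MeasureTheory Set Metric Filter Topology
open scoped ENNReal NNReal ContDiff

namespace Pool.Agent.Work.MP_a2a261_an

theorem det_eq (A : ℂ →L[ℝ] ℂ) :
    A.det = (A 1).re * (A Complex.I).im - (A Complex.I).re * (A 1).im := by
  rw [ContinuousLinearMap.det, ← LinearMap.det_toMatrix Complex.basisOneI, Matrix.det_fin_two]
  simp [LinearMap.toMatrix_apply]

theorem fderiv_apply_of_holo {Ω : Set ℂ} (hΩ : IsOpen Ω) {h : ℂ → ℂ}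
    (hd : DifferentiableOn ℂ h Ω) {z : ℂ} (hz : z ∈ Ω) (v : ℂ) :
    fderiv ℝ h z v = v * deriv h z := by
  have h1 : HasDerivAt h (deriv h z) z := (hd.differentiableAt (hΩ.mem_nhds hz)).hasDerivAt
  have h2 : HasFDerivAt h ((ContinuousLinearMap.toSpanSingleton ℂ (deriv h z)).restrictScalars ℝ)
      z := h1.hasFDerivAt.restrictScalars ℝ
  rw [h2.fderiv]
  simp

theorem lintegral_deriv_sq {Ω : Set ℂ} (hΩ : IsOpen Ω) {h : ℂ → ℂ}
    (hd : DifferentiableOn ℂ h Ω) (hi : InjOn h Ω) :
    ∫⁻ z in Ω, ENNReal.ofReal (‖deriv h z‖ ^ 2) = volume (h '' Ω) := by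
  rw [← lintegral_abs_det_fderiv_eq_addHaar_image (f' := fun z => fderiv ℝ h z) volume
    hΩ.measurableSet (fun z hz => ?_) hi]
  · apply setLIntegral_congr_fun hΩ.measurableSet
    intro z hz
    simp only
    rw [det_eq, fderiv_apply_of_holo hΩ hd hz, fderiv_apply_of_holo hΩ hd hz, one_mul,
      ← Complex.normSq_eq_norm_sq, Complex.normSq_apply]
    congr 1
    rw [abs_of_nonneg]
    · simp
    · simp only [Complex.mul_re, Complex.mul_im, Complex.I_re, Complex.I_im]
      nlinarith [sq_nonneg (deriv h z).re, sq_nonneg (deriv h z).im]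
  · have h1 : HasDerivAt h (deriv h z) z := (hd.differentiableAt (hΩ.mem_nhds hz)).hasDerivAt
    have h2 : HasFDerivAt h ((ContinuousLinearMap.toSpanSingleton ℂ (deriv h z)).restrictScalars ℝ)
        z := h1.hasFDerivAt.restrictScalars ℝ
    exact h2.differentiableAt.hasFDerivAt.hasFDerivWithinAt

theorem isWeakPartial_of_holo {Ω : Set ℂ} (hΩ : IsOpen Ω) {h : ℂ → ℂ}
    (hd : DifferentiableOn ℂ h Ω) (v : ℂ) : IsWeakPartial Ω v h (fun z => v * deriv h z) := by
  intro φ hφ hφc hφs
  set f : ℂ → ℂ := fun z => (φ z : ℂ) with hf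
  have hfd : ∀ z, fderiv ℝ f z v = ((fderiv ℝ φ z v : ℝ) : ℂ) := by
    intro z
    have h1 : HasFDerivAt φ (fderiv ℝ φ z) z :=
      (hφ.differentiable (by simp)).differentiableAt.hasFDerivAt
    have h2 : HasFDerivAt f (Complex.ofRealCLM.comp (fderiv ℝ φ z)) z :=
      Complex.ofRealCLM.hasFDerivAt.comp z h1
    rw [h2.fderiv]
    rfl
  have hts : tsupport f ⊆ tsupport φ := by
    apply closure_mono
    intro z hz
    rw [Function.mem_support] at hz ⊢
    intro h
    exact hz (by rw [hf]; simp only [h, Complex.ofReal_zero])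
  have hK : IsCompact (tsupport φ) := hφc
  have hhc : ContinuousOn h (tsupport φ) := hd.continuousOn.mono hφs
  have hh'c : ContinuousOn (deriv h) (tsupport φ) := (hd.deriv hΩ).continuousOn.mono hφs
  have hfc : Continuous f := Complex.continuous_ofReal.comp hφ.continuous
  have hf'c : Continuous fun z => ((fderiv ℝ φ z v : ℝ) : ℂ) :=
    Complex.continuous_ofReal.comp ((hφ.continuous_fderiv (by simp)).clm_apply continuous_const)
  have hz0 : ∀ z, z ∉ tsupport φ → f z = 0 := by
    intro z hz
    rw [hf]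
    simp only
    rw [image_eq_zero_of_notMem_tsupport hz, Complex.ofReal_zero]
  have hz1 : ∀ z, z ∉ tsupport φ → ((fderiv ℝ φ z v : ℝ) : ℂ) = 0 := by
    intro z hz
    have h1 : fderiv ℝ φ z = 0 := by
      have := support_fderiv_subset ℝ (f := φ)
      by_contra hcon
      exact hz (this hcon)
    rw [h1]
    simp
  have key : ∀ A : ℂ → ℂ, ContinuousOn A (tsupport φ) → (∀ z, z ∉ tsupport φ → A z = 0) →
      Integrable A volume := by
    intro A hA hA0
    have h1 : IntegrableOn A (tsupport φ) volume := hA.integrableOn_compact hK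
    rw [← integrableOn_iff_integrable_of_support_subset (s := tsupport φ)]
    · exact h1
    · intro z hz
      by_contra hcon
      exact hz (hA0 z hcon)
  have hcong : ∀ z, f z * fderiv ℝ h z v = f z * (v * deriv h z) := by
    intro z
    by_cases hz : z ∈ tsupport φ
    · rw [fderiv_apply_of_holo hΩ hd (hφs hz)]
    · rw [hz0 z hz, zero_mul, zero_mul]
  have hI1 : Integrable (fun z => fderiv ℝ f z v * h z) volume := by
    apply key
    · simp only [hfd]
      exact hf'c.continuousOn.mul hhc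
    · intro z hz
      rw [hfd, hz1 z hz, zero_mul]
  have hI2 : Integrable (fun z => f z * fderiv ℝ h z v) volume := by
    simp only [hcong]
    apply key
    · exact hfc.continuousOn.mul (continuousOn_const.mul hh'c)
    · intro z hz
      rw [hz0 z hz, zero_mul]
  have hI3 : Integrable (fun z => f z * h z) volume := by
    apply key
    · exact hfc.continuousOn.mul hhc
    · intro z hz
      rw [hz0 z hz, zero_mul]
  have hmain := integral_mul_fderiv_eq_neg_fderiv_mul_of_integrable (μ := volume) hI1 hI2 hI3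
    (fun z _ => by
      have h1 : DifferentiableAt ℝ φ z := (hφ.differentiable (by simp)).differentiableAt
      exact Complex.ofRealCLM.differentiableAt.comp z h1)
    (fun z hz => ((hd.differentiableAt (hΩ.mem_nhds (hφs (hts hz)))).restrictScalars ℝ))
  simp only [hcong, hfd] at hmain
  rw [setIntegral_eq_integral_of_forall_compl_eq_zero, setIntegral_eq_integral_of_forall_compl_eq_zero]
  · rw [hmain, neg_neg]
  · intro z hz
    have : z ∉ tsupport φ := fun h => hz (hφs h)
    have h2 := hz0 z this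
    rw [hf] at h2
    simp only at h2
    rw [h2, zero_mul]
  · intro z hz
    have : z ∉ tsupport φ := fun h => hz (hφs h)
    rw [hz1 z this, zero_mul]

theorem integrable_deriv_sq {Ω : Set ℂ} (hΩ : IsOpen Ω) {h : ℂ → ℂ}
    (hd : DifferentiableOn ℂ h Ω) (hi : InjOn h Ω) (hfin : volume (h '' Ω) ≠ ⊤) :
    IntegrableOn (fun z => ‖deriv h z‖ ^ 2) Ω volume := by
  have hm : AEStronglyMeasurable (fun z => ‖deriv h z‖ ^ 2) (volume.restrict Ω) :=
    (((hd.deriv hΩ).continuousOn.norm).pow 2).aestronglyMeasurable hΩ.measurableSet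
  refine ⟨hm, ?_⟩
  rw [hasFiniteIntegral_iff_ofReal (Eventually.of_forall fun z => by positivity),
    lintegral_deriv_sq hΩ hd hi]
  exact lt_top_iff_ne_top.2 hfin

theorem integral_deriv_sq {Ω : Set ℂ} (hΩ : IsOpen Ω) {h : ℂ → ℂ}
    (hd : DifferentiableOn ℂ h Ω) (hi : InjOn h Ω) :
    ∫ z in Ω, ‖deriv h z‖ ^ 2 = (volume (h '' Ω)).toReal := by
  have hm : AEStronglyMeasurable (fun z => ‖deriv h z‖ ^ 2) (volume.restrict Ω) :=
    (((hd.deriv hΩ).continuousOn.norm).pow 2).aestronglyMeasurable hΩ.measurableSet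
  rw [integral_eq_lintegral_of_nonneg_ae (Eventually.of_forall fun z => by positivity) hm,
    lintegral_deriv_sq hΩ hd hi]

/-- A conformal map of a bounded open set onto a bounded open set is of class `W^{1,2}`. -/
theorem isW12_of_holo {Ω : Set ℂ} (hΩ : IsOpen Ω) (hb : Bornology.IsBounded Ω) {h : ℂ → ℂ}
    (hd : DifferentiableOn ℂ h Ω) (hi : InjOn h Ω) (hb' : Bornology.IsBounded (h '' Ω)) :
    IsW12 Ω h (fun z => 1 * deriv h z) (fun z => Complex.I * deriv h z) := by
  have hfin : volume (h '' Ω) ≠ ⊤ := hb'.measure_lt_top.ne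
  have hfinΩ : IsFiniteMeasure (volume.restrict Ω) :=
    ⟨by rw [Measure.restrict_apply_univ]; exact hb.measure_lt_top⟩
  have hmd : AEStronglyMeasurable (deriv h) (volume.restrict Ω) :=
    (hd.deriv hΩ).continuousOn.aestronglyMeasurable hΩ.measurableSet
  have hL2 : MemLp (deriv h) 2 (volume.restrict Ω) :=
    (memLp_two_iff_integrable_sq_norm hmd).2 (integrable_deriv_sq hΩ hd hi hfin)
  refine ⟨?_, hL2.const_mul 1, hL2.const_mul Complex.I, isWeakPartial_of_holo hΩ hd 1,
    isWeakPartial_of_holo hΩ hd Complex.I⟩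
  obtain ⟨C, hC⟩ := hb'.exists_norm_le
  refine MemLp.of_bound (hd.continuousOn.aestronglyMeasurable hΩ.measurableSet) C ?_
  rw [ae_restrict_iff' hΩ.measurableSet]
  exact Eventually.of_forall fun z hz => hC _ ⟨z, hz, rfl⟩

/-- The energy of a conformal map is twice the area of its image. -/
theorem energy_of_holo {Ω : Set ℂ} (hΩ : IsOpen Ω) {h : ℂ → ℂ}
    (hd : DifferentiableOn ℂ h Ω) (hi : InjOn h Ω) :
    energy Ω (fun z => 1 * deriv h z) (fun z => Complex.I * deriv h z)
      = 2 * (volume (h '' Ω)).toReal := by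
  rw [energy, ← integral_deriv_sq hΩ hd hi, ← integral_const_mul]
  apply integral_congr_ae
  apply Eventually.of_forall
  intro z
  simp only [one_mul, norm_mul, Complex.norm_I]
  ring

end Pool.Agent.Work.MP_a2a261_an
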