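import Mathlib
import Pool.Agent.Work.MP_a2a261_an.Conf

/-!
# The domains `U ε = {|x| < w (ε y), |ε y| < 1}`
-/

open Filter Metric Set Topology
open scoped ComplexConjugate

namespace Pool.Agent.Work.MP_a2a261_an

theorem IsRM.norm_le {U : Set ℂ} (hU : IsOpen U) {f g : ℂ → ℂ} (hf : IsRM U f)
    (hg : DifferentiableOn ℂ g U) (hgm : MapsTo g U (ball 0 1)) (hg0 : g 0 = 0)
    (h0 : (0 : ℂ) ∈ U) {z : ℂ} (hz : z ∈ U) : ‖g z‖ ≤ ‖f z‖ := by
  obtain ⟨k, hk1, hk2, hk3, hk4, -⟩ := hf.exists_inverse hU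
  have hk0 : k 0 = 0 := by
    have := hk4 0 h0
    rwa [hf.zero] at this
  have h := schwarz_disc (r := 1) hg hgm hg0 hk1 hk2 hk0 (hf.mapsTo hz)
  rwa [hk4 z hz, div_one] at h

/-- The width function. -/
noncomputable def wd (s : ℝ) : ℝ :=
  if s = 0 then 1 else 1 + 5 * max 0 (Real.sin (Real.log (10 + |Real.log s|)))

theorem wd_zero : wd 0 = 1 := if_pos rfl

theorem wd_of_ne {s : ℝ} (hs : s ≠ 0) :
    wd s = 1 + 5 * max 0 (Real.sin (Real.log (10 + |Real.log s|))) := if_neg hs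

theorem one_le_wd (s : ℝ) : 1 ≤ wd s := by
  rw [wd]
  split_ifs
  · exact le_rfl
  · have := le_max_left 0 (Real.sin (Real.log (10 + |Real.log s|)))
    linarith

theorem wd_le (s : ℝ) : wd s ≤ 6 := by
  rw [wd]
  split_ifs
  · norm_num
  · have : max 0 (Real.sin (Real.log (10 + |Real.log s|))) ≤ 1 :=
      max_le zero_le_one (Real.sin_le_one _)
    linarith

theorem wd_neg (s : ℝ) : wd (-s) = wd s := by
  rw [wd, wd, Real.log_neg_eq_log]
  simp

theorem log_lip {x y : ℝ} (hx : 0 ≤ x) (hy : 0 ≤ y) :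
    |Real.log (10 + x) - Real.log (10 + y)| ≤ |x - y| / 10 := by
  have key : ∀ u v : ℝ, 0 ≤ u → 0 ≤ v → Real.log (10 + u) - Real.log (10 + v) ≤ |u - v| / 10 := by
    intro u v hu hv
    rcases le_total u v with h | h
    · have h1 : Real.log (10 + u) ≤ Real.log (10 + v) := Real.log_le_log (by linarith) (by linarith)
      have h2 : 0 ≤ |u - v| / 10 := by positivity
      linarith
    · rw [← Real.log_div (by linarith) (by linarith)]
      have h1 : (10 + u) / (10 + v) = 1 + (u - v) / (10 + v) := by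
        have : (10 + v) ≠ 0 := by linarith
        field_simp
        ring
      rw [h1, abs_of_nonneg (by linarith)]
      have h2 : 0 ≤ (u - v) / (10 + v) := div_nonneg (by linarith) (by linarith)
      have h3 := Real.log_le_sub_one_of_pos (show 0 < 1 + (u - v) / (10 + v) by linarith)
      have h4 : (u - v) / (10 + v) ≤ (u - v) / 10 :=
        div_le_div_of_nonneg_left (by linarith) (by norm_num) (by linarith)
      linarith
  rw [abs_le]
  constructor
  · have := key y x hy hx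
    rw [abs_sub_comm] at this
    linarith
  · exact key x y hx hy

theorem wd_lip {s t : ℝ} (hs : s ≠ 0) (ht : t ≠ 0) :
    |wd s - wd t| ≤ |Real.log s - Real.log t| / 2 := by
  rw [wd_of_ne hs, wd_of_ne ht]
  set A := Real.log (10 + |Real.log s|)
  set B := Real.log (10 + |Real.log t|)
  have h1 : |A - B| ≤ |Real.log s - Real.log t| / 10 := by
    refine (log_lip (abs_nonneg _) (abs_nonneg _)).trans ?_
    have := abs_abs_sub_abs_le_abs_sub (Real.log s) (Real.log t)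
    linarith
  have h2 : |Real.sin A - Real.sin B| ≤ |A - B| := by
    have := Real.abs_sin_sub_sin_le A B
    exact this
  have h3 : |max 0 (Real.sin A) - max 0 (Real.sin B)| ≤ |Real.sin A - Real.sin B| := by
    have := abs_max_sub_max_le_max 0 (Real.sin A) 0 (Real.sin B)
    rwa [sub_self, abs_zero, max_eq_right (abs_nonneg (Real.sin A - Real.sin B))] at this
  have h4 : (1 + 5 * max 0 (Real.sin A)) - (1 + 5 * max 0 (Real.sin B))
      = 5 * (max 0 (Real.sin A) - max 0 (Real.sin B)) := by ring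
  rw [h4, abs_mul, abs_of_pos (by norm_num : (0 : ℝ) < 5)]
  linarith

theorem wd_scale (s : ℝ) {r : ℝ} (hr : 1 ≤ r) : wd s ≤ r * wd (s / r) := by
  by_cases hs : s = 0
  · subst hs
    rw [zero_div, wd_zero]
    linarith
  · have hr0 : r ≠ 0 := by linarith
    have h1 := wd_lip hs (div_ne_zero hs hr0)
    rw [Real.log_div hs hr0, sub_sub_cancel, abs_of_nonneg (Real.log_nonneg hr)] at h1
    have h2 := (abs_le.1 h1).2
    have h3 := Real.log_le_sub_one_of_pos (show 0 < r by linarith)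
    have h4 := one_le_wd (s / r)
    nlinarith

theorem wd_comp (y : ℝ) {ε ε' r : ℝ} (hε : 0 < ε) (hε' : 0 < ε') (hr : 1 ≤ r)
    (h1 : ε ≤ r * ε') (h2 : ε' ≤ r * ε) : wd (ε' * y) ≤ r * wd (ε * (y / r)) := by
  by_cases hy : y = 0
  · subst hy
    rw [mul_zero, zero_div, mul_zero, wd_zero]
    linarith
  · have hr0 : 0 < r := by linarith
    have hs : ε' * y ≠ 0 := mul_ne_zero hε'.ne' hy
    have ht : ε * (y / r) ≠ 0 := mul_ne_zero hε.ne' (div_ne_zero hy hr0.ne')
    have h3 := wd_lip hs ht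
    rw [Real.log_mul hε'.ne' hy, Real.log_mul hε.ne' (div_ne_zero hy hr0.ne'),
      Real.log_div hy hr0.ne'] at h3
    have h4 : Real.log ε ≤ Real.log r + Real.log ε' := by
      rw [← Real.log_mul hr0.ne' hε'.ne']
      exact Real.log_le_log hε h1
    have h5 : Real.log ε' ≤ Real.log r + Real.log ε := by
      rw [← Real.log_mul hr0.ne' hε.ne']
      exact Real.log_le_log hε' h2
    have h6 : |Real.log ε' + Real.log y - (Real.log ε + (Real.log y - Real.log r))|
        ≤ 2 * Real.log r := by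
      rw [abs_le]
      constructor <;> linarith
    have h7 := (abs_le.1 h3).2
    have h8 := Real.log_le_sub_one_of_pos hr0
    have h9 := one_le_wd (ε * (y / r))
    nlinarith

theorem continuousAt_wd {s : ℝ} (hs : s ≠ 0) : ContinuousAt wd s := by
  have h1 : ContinuousAt (fun s => 1 + 5 * max 0 (Real.sin (Real.log (10 + |Real.log s|)))) s := by
    have h2 : ContinuousAt Real.log s := Real.continuousAt_log hs
    have h3 : (10 + |Real.log s|) ≠ 0 := by positivity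
    have h4 : ContinuousAt (fun s => Real.log (10 + |Real.log s|)) s :=
      (continuousAt_const.add h2.abs).log h3
    have h5 : ContinuousAt (fun s => Real.sin (Real.log (10 + |Real.log s|))) s :=
      Real.continuous_sin.continuousAt.comp h4
    exact continuousAt_const.add (continuousAt_const.mul (continuousAt_const.max h5))
  refine h1.congr ?_
  filter_upwards [isOpen_ne.mem_nhds hs] with t ht
  exact (wd_of_ne ht).symm

/-- The domains. -/
def Dm (ε : ℝ) : Set ℂ := {z | |z.re| < wd (ε * z.im) ∧ |ε * z.im| < 1}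

theorem isOpen_Dm (ε : ℝ) : IsOpen (Dm ε) := by
  rw [isOpen_iff_mem_nhds]
  rintro z ⟨h1, h2⟩
  have hb : ∀ᶠ y : ℂ in 𝓝 z, |ε * y.im| < 1 := by
    have hc : Continuous fun y : ℂ => |ε * y.im| := (continuous_const.mul Complex.continuous_im).abs
    exact hc.continuousAt.eventually_lt continuousAt_const h2
  by_cases hz : ε * z.im = 0
  · rw [hz, wd_zero] at h1
    have ha : ∀ᶠ y : ℂ in 𝓝 z, |y.re| < 1 :=
      (Complex.continuous_re.abs).continuousAt.eventually_lt continuousAt_const h1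
    filter_upwards [ha, hb] with y hy1 hy2
    exact ⟨lt_of_lt_of_le hy1 (one_le_wd _), hy2⟩
  · have hc : ContinuousAt (fun y : ℂ => wd (ε * y.im)) z :=
      ContinuousAt.comp (f := fun y : ℂ => ε * y.im) (continuousAt_wd hz)
        (continuous_const.mul Complex.continuous_im).continuousAt
    have ha : ∀ᶠ y : ℂ in 𝓝 z, |y.re| < wd (ε * y.im) :=
      (Complex.continuous_re.abs).continuousAt.eventually_lt hc h1
    filter_upwards [ha, hb] with y hy1 hy2
    exact ⟨hy1, hy2⟩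

theorem zero_mem_Dm (ε : ℝ) : (0 : ℂ) ∈ Dm ε := by
  refine ⟨?_, ?_⟩
  · rw [Complex.zero_re, abs_zero]
    exact lt_of_lt_of_le one_pos (one_le_wd _)
  · simp

theorem Dm_smul {ε : ℝ} {z : ℂ} (hz : z ∈ Dm ε) {t : ℝ} (ht0 : 0 ≤ t) (ht1 : t ≤ 1) :
    (t : ℂ) * z ∈ Dm ε := by
  rcases eq_or_lt_of_le ht0 with h | h
  · rw [← h, Complex.ofReal_zero, zero_mul]
    exact zero_mem_Dm ε
  · obtain ⟨h1, h2⟩ := hz
    refine ⟨?_, ?_⟩
    · rw [Complex.re_ofReal_mul, Complex.im_ofReal_mul, abs_mul, abs_of_pos h]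
      have h3 := wd_scale (ε * z.im) (r := 1 / t) ((one_le_div h).2 ht1)
      have h4 : ε * z.im / (1 / t) = ε * (t * z.im) := by field_simp
      rw [h4] at h3
      have h5 : t * |z.re| < t * wd (ε * z.im) := mul_lt_mul_of_pos_left h1 h
      have h6 : t * wd (ε * z.im) ≤ t * (1 / t * wd (ε * (t * z.im))) :=
        mul_le_mul_of_nonneg_left h3 ht0
      have h7 : t * (1 / t * wd (ε * (t * z.im))) = wd (ε * (t * z.im)) := by
        field_simp
      linarith
    · rw [Complex.im_ofReal_mul, mul_left_comm, abs_mul, abs_of_pos h]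
      nlinarith [abs_nonneg (ε * z.im)]

theorem starConvex_Dm (ε : ℝ) : StarConvex ℝ 0 (Dm ε) := by
  rw [starConvex_zero_iff]
  intro z hz t ht0 ht1
  rw [Complex.real_smul]
  exact Dm_smul hz ht0 ht1

theorem Dm_ne_univ (ε : ℝ) : Dm ε ≠ univ := by
  intro h
  have h1 : (6 : ℂ) ∈ Dm ε := by rw [h]; trivial
  have h2 := h1.1
  have h3 := wd_le (ε * (6 : ℂ).im)
  have h4 : |(6 : ℂ).re| = 6 := by simp
  linarith

theorem Dm_conj {ε : ℝ} {z : ℂ} (hz : z ∈ Dm ε) : conj z ∈ Dm ε := by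
  obtain ⟨h1, h2⟩ := hz
  refine ⟨?_, ?_⟩
  · rw [Complex.conj_re, Complex.conj_im, mul_neg, wd_neg]
    exact h1
  · rw [Complex.conj_im, mul_neg, abs_neg]
    exact h2

theorem Dm_neg {ε : ℝ} {z : ℂ} (hz : z ∈ Dm ε) : -z ∈ Dm ε := by
  obtain ⟨h1, h2⟩ := hz
  refine ⟨?_, ?_⟩
  · rw [Complex.neg_re, Complex.neg_im, mul_neg, wd_neg, abs_neg]
    exact h1
  · rw [Complex.neg_im, mul_neg, abs_neg]
    exact h2

theorem mem_Dm_of_real {ε x : ℝ} (hx : |x| < 1) : (x : ℂ) ∈ Dm ε := by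
  refine ⟨?_, ?_⟩
  · rw [Complex.ofReal_re]
    exact lt_of_lt_of_le hx (one_le_wd _)
  · rw [Complex.ofReal_im, mul_zero, abs_zero]
    exact one_pos

theorem slit_subset_Dm {ε a : ℝ} (ha : a < 1) : slit a ⊆ Dm ε := by
  rintro _ ⟨x, hx, rfl⟩
  exact mem_Dm_of_real (lt_of_le_of_lt (abs_le.2 hx) ha)

/-- The Riemann map of `Dm ε`. -/
noncomputable def rm (ε : ℝ) : ℂ → ℂ :=
  Classical.choose (exists_RM (isOpen_Dm ε) (starConvex_Dm ε) (zero_mem_Dm ε) (Dm_ne_univ ε))

theorem isRM (ε : ℝ) : IsRM (Dm ε) (rm ε) :=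
  Classical.choose_spec (exists_RM (isOpen_Dm ε) (starConvex_Dm ε) (zero_mem_Dm ε) (Dm_ne_univ ε))

/-- The conformal invariant. -/
noncomputable def tau (ε : ℝ) : ℝ := ‖rm ε ((3 / 5 : ℝ) : ℂ)‖

theorem norm_rm_le {ε ε' r : ℝ} (hε : 0 < ε) (hε' : 0 < ε') (hr : 1 ≤ r)
    (h1 : ε ≤ r * ε') (h2 : ε' ≤ r * ε) {z : ℂ} (hz : z ∈ Dm ε') :
    ‖rm ε (((1 / r : ℝ) : ℂ) * z)‖ ≤ ‖rm ε' z‖ := by
  have hr0 : 0 < r := by linarith
  have hmaps : ∀ z ∈ Dm ε', ((1 / r : ℝ) : ℂ) * z ∈ Dm ε := by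
    rintro z ⟨h3, h4⟩
    refine ⟨?_, ?_⟩
    · rw [Complex.re_ofReal_mul, Complex.im_ofReal_mul, abs_mul, abs_of_pos (by positivity)]
      have h5 := wd_comp z.im hε hε' hr h1 h2
      have h6 : ε * (1 / r * z.im) = ε * (z.im / r) := by ring
      rw [h6]
      have h7 : 1 / r * |z.re| < 1 / r * (r * wd (ε * (z.im / r))) :=
        mul_lt_mul_of_pos_left (lt_of_lt_of_le h3 h5) (by positivity)
      have h8 : 1 / r * (r * wd (ε * (z.im / r))) = wd (ε * (z.im / r)) := by field_simp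
      linarith
    · rw [Complex.im_ofReal_mul]
      have h5 : |ε * (1 / r * z.im)| = (ε / (r * ε')) * |ε' * z.im| := by
        rw [abs_mul, abs_mul, abs_mul, abs_of_pos hε, abs_of_pos hε',
          abs_of_pos (by positivity : 0 < 1 / r)]
        field_simp
      rw [h5]
      have h6 : ε / (r * ε') ≤ 1 := (div_le_one (by positivity)).2 h1
      calc ε / (r * ε') * |ε' * z.im| ≤ 1 * |ε' * z.im| := by gcongr
        _ < 1 := by rw [one_mul]; exact h4
  have hd : DifferentiableOn ℂ (fun z => rm ε (((1 / r : ℝ) : ℂ) * z)) (Dm ε') :=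
    (isRM ε).diff.comp (by fun_prop) hmaps
  exact (isRM ε').norm_le (isOpen_Dm ε') hd (fun z hz => (isRM ε).mapsTo (hmaps z hz))
    (by simp [(isRM ε).zero]) (zero_mem_Dm ε') hz

theorem ball_subset_Dm {ε : ℝ} (hε : 0 < ε) (hε2 : ε ≤ 2) :
    ball ((3 / 5 : ℝ) : ℂ) (2 / 5) ⊆ Dm ε := by
  intro z h1
  rw [mem_ball, dist_eq_norm] at h1
  have h3 := Complex.abs_re_le_norm (z - ((3 / 5 : ℝ) : ℂ))
  have h5 := Complex.abs_im_le_norm (z - ((3 / 5 : ℝ) : ℂ))
  rw [Complex.sub_re, Complex.ofReal_re] at h3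
  rw [Complex.sub_im, Complex.ofReal_im, sub_zero] at h5
  refine ⟨?_, ?_⟩
  · have h4 : |z.re| ≤ |z.re - 3 / 5| + 3 / 5 := by
      have := abs_add_le (z.re - 3 / 5) (3 / 5)
      rw [sub_add_cancel, abs_of_pos (by norm_num : (0 : ℝ) < 3 / 5)] at this
      exact this
    have := one_le_wd (ε * z.im)
    linarith
  · rw [abs_mul, abs_of_pos hε]
    have := abs_nonneg z.im
    nlinarith

theorem rm_lip {ε : ℝ} (hε : 0 < ε) (hε2 : ε ≤ 2) {z : ℂ}
    (hz : z ∈ ball ((3 / 5 : ℝ) : ℂ) (2 / 5)) :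
    dist (rm ε z) (rm ε ((3 / 5 : ℝ) : ℂ)) ≤ 5 * dist z ((3 / 5 : ℝ) : ℂ) := by
  have h1 := Complex.dist_le_div_mul_dist_of_mapsTo_ball
    ((isRM ε).diff.mono (ball_subset_Dm hε hε2)) (R₂ := 2) (fun w hw => by
      have h2 := (isRM ε).mapsTo (ball_subset_Dm hε hε2 hw)
      have h3 := (isRM ε).mapsTo (ball_subset_Dm hε hε2 (mem_ball_self (by norm_num :
        (0 : ℝ) < 2 / 5)))
      rw [mem_ball_zero_iff] at h2 h3
      rw [mem_closedBall, dist_eq_norm]
      exact (norm_sub_le _ _).trans (by linarith)) hz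
  norm_num at h1 ⊢
  exact h1

theorem tau_sub_le {ε ε' r : ℝ} (hε : 0 < ε) (hε2 : ε ≤ 2) (hε' : 0 < ε') (hr : 1 ≤ r)
    (hr2 : r ≤ 2) (h1 : ε ≤ r * ε') (h2 : ε' ≤ r * ε) : tau ε - tau ε' ≤ 3 * (r - 1) := by
  have hr0 : 0 < r := by linarith
  have hmem : ((3 / 5 : ℝ) : ℂ) ∈ Dm ε' := mem_Dm_of_real (by
    rw [abs_of_pos] <;> norm_num)
  have h3 := norm_rm_le hε hε' hr h1 h2 hmem
  have e1 : ((1 / r : ℝ) : ℂ) * ((3 / 5 : ℝ) : ℂ) = ((3 / (5 * r) : ℝ) : ℂ) := by
    rw [← Complex.ofReal_mul]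
    congr 1
    field_simp
  rw [e1] at h3
  have e2 : dist (((3 / (5 * r) : ℝ)) : ℂ) ((3 / 5 : ℝ) : ℂ) = 3 / 5 * (1 - 1 / r) := by
    rw [dist_eq_norm, ← Complex.ofReal_sub, Complex.norm_real, Real.norm_eq_abs]
    have h4 : 3 / (5 * r) - 3 / 5 = -(3 / 5 * (1 - 1 / r)) := by field_simp; ring
    have h5 : 1 / r ≤ 1 := (div_le_one hr0).2 hr
    rw [h4, abs_neg, abs_of_nonneg (by nlinarith)]
  have h6 : 1 - 1 / r ≤ r - 1 := by
    have h7 : r + 1 / r - 2 = (r - 1) ^ 2 / r := by field_simp; ring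
    have h8 : 0 ≤ (r - 1) ^ 2 / r := by positivity
    linarith
  have h9 : 1 - 1 / r ≤ 1 / 2 := by
    have : 1 / 2 ≤ 1 / r := one_div_le_one_div_of_le hr0 hr2
    linarith
  have hz : ((3 / (5 * r) : ℝ) : ℂ) ∈ ball ((3 / 5 : ℝ) : ℂ) (2 / 5) := by
    rw [mem_ball, e2]
    linarith
  have h10 := rm_lip hε hε2 hz
  rw [e2, dist_eq_norm] at h10
  have h11 := norm_sub_norm_le (rm ε ((3 / 5 : ℝ) : ℂ)) (rm ε ((3 / (5 * r) : ℝ) : ℂ))
  rw [norm_sub_rev] at h11
  rw [tau, tau]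
  linarith

theorem continuousOn_tau : ContinuousOn tau (Ioo 0 2) := by
  rw [Metric.continuousOn_iff]
  rintro ε ⟨hε, hε2⟩ η hη
  set r : ℝ := 1 + min (η / 6) 1 with hr
  have hm : 0 < min (η / 6) 1 := lt_min (by linarith) one_pos
  have hr1 : 1 < r := by rw [hr]; linarith
  have hr2 : r ≤ 2 := by
    have := min_le_right (η / 6) 1
    rw [hr]; linarith
  have hr3 : 3 * (r - 1) < η := by
    have := min_le_left (η / 6) 1
    rw [hr]; linarith
  refine ⟨min (ε * (1 - 1 / r)) (ε * (r - 1)), ?_, ?_⟩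
  · have : 1 / r < 1 := (div_lt_one (by linarith)).2 hr1
    apply lt_min
    · apply mul_pos hε; linarith
    · apply mul_pos hε; linarith
  · rintro ε' ⟨hε', hε'2⟩ hd
    rw [Real.dist_eq] at hd
    have hd1 := (abs_lt.1 (lt_of_lt_of_le hd (min_le_left _ _))).1
    have hd2 := (abs_lt.1 (lt_of_lt_of_le hd (min_le_right _ _))).2
    have h1 : ε ≤ r * ε' := by
      have h3 : ε / r < ε' := by
        have : ε * (1 - 1 / r) = ε - ε / r := by ring
        linarith
      rw [div_lt_iff₀ (by linarith)] at h3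
      linarith
    have h2 : ε' ≤ r * ε := by
      have : ε * (r - 1) = r * ε - ε := by ring
      linarith
    have h3 := tau_sub_le hε hε2.le hε' hr1.le hr2 h1 h2
    have h4 := tau_sub_le hε' hε'2.le hε hr1.le hr2 h2 h1
    rw [Real.dist_eq, abs_lt]
    constructor <;> linarith

end Pool.Agent.Work.MP_a2a261_an
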