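import Mathlib
import Pool.Agent.Work.MP_a2a261_an.Shape

/-!
# Oscillation of the invariant: narrow scales
-/

open Filter Metric Set Topology
open scoped ComplexConjugate

namespace Pool.Agent.Work.MP_a2a261_an

/-- The exponential `e^{iπz/2}`. -/
noncomputable def Ez (z : ℂ) : ℂ := Complex.exp (Complex.I * (Real.pi / 2 : ℝ) * z)

/-- The Riemann map of the strip. -/
noncomputable def Tz (z : ℂ) : ℂ := (Ez z - 1) / (Ez z + 1)

theorem Ez_re_pos {z : ℂ} (h : |z.re| < 1) : 0 < (Ez z).re := by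
  rw [Ez, Complex.exp_re]
  apply mul_pos (Real.exp_pos _)
  have h1 : (Complex.I * (Real.pi / 2 : ℝ) * z).im = Real.pi / 2 * z.re := by
    simp
  rw [h1]
  have h2 := abs_lt.1 h
  have h3 := Real.pi_pos
  apply Real.cos_pos_of_mem_Ioo
  constructor <;> nlinarith

theorem Ez_add_one_ne {z : ℂ} (h : |z.re| < 1) : Ez z + 1 ≠ 0 := by
  intro h1
  have h2 := congrArg Complex.re h1
  rw [Complex.add_re, Complex.one_re, Complex.zero_re] at h2
  have := Ez_re_pos h
  linarith

theorem norm_Tz_lt {z : ℂ} (h : |z.re| < 1) : ‖Tz z‖ < 1 := by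
  rw [Tz, norm_div, div_lt_one (norm_pos_iff.2 (Ez_add_one_ne h))]
  have h1 := Ez_re_pos h
  have h2 : ‖Ez z + 1‖ ^ 2 - ‖Ez z - 1‖ ^ 2 = 4 * (Ez z).re := by
    simp only [← Complex.normSq_eq_norm_sq, Complex.normSq_apply, Complex.add_re, Complex.add_im,
      Complex.sub_re, Complex.sub_im, Complex.one_re, Complex.one_im]
    ring
  exact lt_of_pow_lt_pow_left₀ 2 (norm_nonneg _) (by linarith)

theorem Tz_zero : Tz 0 = 0 := by
  rw [Tz, Ez, mul_zero, Complex.exp_zero, sub_self, zero_div]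

theorem differentiableAt_Tz {z : ℂ} (h : |z.re| < 1) : DifferentiableAt ℂ Tz z := by
  have h1 : DifferentiableAt ℂ Ez z := by
    unfold Ez
    fun_prop
  exact (h1.sub_const 1).div (h1.add_const 1) (Ez_add_one_ne h)

/-- Lower bound for the strip map at `3/5`. -/
theorem norm_Tz_ge : (47 / 100 : ℝ) ≤ ‖Tz ((3 / 5 : ℝ) : ℂ)‖ := by
  set θ : ℝ := 3 * Real.pi / 20 with hθ
  have hθpos : 0 < θ := by
    have := Real.pi_pos
    rw [hθ]; positivity
  have hθlt : θ < Real.pi / 2 := by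
    have := Real.pi_pos
    rw [hθ]; linarith
  have hcos : 0 < Real.cos θ := Real.cos_pos_of_mem_Ioo ⟨by linarith, hθlt⟩
  have hE : Ez ((3 / 5 : ℝ) : ℂ) = Complex.exp ((θ : ℂ) * Complex.I) ^ 2 := by
    rw [Ez, ← Complex.exp_nat_mul]
    congr 1
    rw [hθ]
    push_cast
    ring
  have hnum : Ez ((3 / 5 : ℝ) : ℂ) - 1
      = Complex.exp ((θ : ℂ) * Complex.I) * (2 * Complex.I * (Real.sin θ : ℂ)) := by
    rw [hE]
    have h1 : Complex.exp ((θ : ℂ) * Complex.I) = Real.cos θ + Real.sin θ * Complex.I := by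
      rw [Complex.exp_mul_I, Complex.ofReal_cos, Complex.ofReal_sin]
    rw [h1]
    have h2 : ((Real.cos θ : ℝ) : ℂ) ^ 2 + ((Real.sin θ : ℝ) : ℂ) ^ 2 = 1 := by
      rw [← Complex.ofReal_pow, ← Complex.ofReal_pow, ← Complex.ofReal_add, Real.cos_sq_add_sin_sq,
        Complex.ofReal_one]
    linear_combination h2 + (-(Real.sin θ : ℂ) ^ 2) * Complex.I_sq
  have hden : Ez ((3 / 5 : ℝ) : ℂ) + 1
      = Complex.exp ((θ : ℂ) * Complex.I) * (2 * (Real.cos θ : ℂ)) := by
    rw [hE]
    have h1 : Complex.exp ((θ : ℂ) * Complex.I) = Real.cos θ + Real.sin θ * Complex.I := by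
      rw [Complex.exp_mul_I, Complex.ofReal_cos, Complex.ofReal_sin]
    rw [h1]
    have h2 : ((Real.cos θ : ℝ) : ℂ) ^ 2 + ((Real.sin θ : ℝ) : ℂ) ^ 2 = 1 := by
      rw [← Complex.ofReal_pow, ← Complex.ofReal_pow, ← Complex.ofReal_add, Real.cos_sq_add_sin_sq,
        Complex.ofReal_one]
    linear_combination (-1 : ℂ) * h2 + ((Real.sin θ : ℂ) ^ 2) * Complex.I_sq
  have hnorm : ‖Tz ((3 / 5 : ℝ) : ℂ)‖ = Real.tan θ := by
    rw [Tz, hnum, hden, norm_div, norm_mul, norm_mul, norm_mul, norm_mul, norm_mul,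
      Complex.norm_exp_ofReal_mul_I, Complex.norm_two, Complex.norm_I, Complex.norm_real,
      Complex.norm_real, Real.norm_of_nonneg hcos.le, Real.norm_of_nonneg
      (Real.sin_nonneg_of_nonneg_of_le_pi hθpos.le (by linarith [Real.pi_pos])),
      Real.tan_eq_sin_div_cos]
    field_simp
  rw [hnorm]
  have h1 := Real.lt_tan hθpos hθlt
  have h2 := Real.pi_gt_d2
  rw [hθ] at h1 ⊢
  linarith

theorem re_gt_of_mem_Dm {ε : ℝ} {z : ℂ} (hz : z ∈ Dm ε) : -6 < z.re := by
  have h2 := wd_le (ε * z.im)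
  have h3 := neg_abs_le z.re
  have h1 := hz.1
  linarith

theorem add_twelve_ne {z : ℂ} (hz : -6 < z.re) : z + 12 ≠ 0 := by
  intro h
  have h1 : (z + 12).re = 0 := by rw [h, Complex.zero_re]
  rw [Complex.add_re, Complex.re_ofNat] at h1
  linarith

theorem norm_crude_lt {z : ℂ} (hz : -6 < z.re) : ‖z / (z + 12)‖ < 1 := by
  rw [norm_div, div_lt_one (norm_pos_iff.2 (add_twelve_ne hz))]
  have h3 : ‖z + 12‖ ^ 2 - ‖z‖ ^ 2 = 24 * (z.re + 6) := by
    simp only [← Complex.normSq_eq_norm_sq, Complex.normSq_apply, Complex.add_re,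
      Complex.add_im, Complex.re_ofNat, Complex.im_ofNat]
    ring
  exact lt_of_pow_lt_pow_left₀ 2 (norm_nonneg _) (by linarith)

theorem differentiableOn_crude (ε : ℝ) :
    DifferentiableOn ℂ (fun z : ℂ => z / (z + 12)) (Dm ε) := by
  intro z hz
  have h := add_twelve_ne (re_gt_of_mem_Dm hz)
  have h1 : DifferentiableAt ℂ (fun z : ℂ => z) z := differentiableAt_id
  have h2 : DifferentiableAt ℂ (fun z : ℂ => z + 12) z := h1.add_const 12
  exact (h1.div h2 h).differentiableWithinAt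

/-- Crude lower bound for the Riemann map of `Dm ε`. -/
theorem norm_rm_ge {ε : ℝ} {z : ℂ} (hz : z ∈ Dm ε) : ‖z / (z + 12)‖ ≤ ‖rm ε z‖ := by
  have hm : MapsTo (fun z : ℂ => z / (z + 12)) (Dm ε) (ball 0 1) := by
    intro w hw
    rw [mem_ball_zero_iff]
    exact norm_crude_lt (re_gt_of_mem_Dm hw)
  have h0 : (fun z : ℂ => z / (z + 12)) 0 = 0 := zero_div _
  exact (isRM ε).norm_le (isOpen_Dm ε) (differentiableOn_crude ε) hm h0 (zero_mem_Dm ε) hz

/-- The barrier function. -/
noncomputable def Vz (z : ℂ) : ℂ :=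
  ((Real.log 42 : ℝ) - Complex.log (1 - z)) / 20000 +
    ((Real.log 42 : ℝ) - Complex.log (1 + z)) / 20000 +
    2 * Complex.cos ((Real.pi / 4 : ℝ) * z) / (Real.cosh (Real.pi * 10) : ℝ)

theorem Vz_re (z : ℂ) : (Vz z).re = (Real.log 42 - Real.log ‖1 - z‖) / 20000 +
    (Real.log 42 - Real.log ‖1 + z‖) / 20000 +
    2 * (Real.cos (Real.pi / 4 * z.re) * Real.cosh (Real.pi / 4 * z.im)) /
      Real.cosh (Real.pi * 10) := by
  have h1 : ∀ w : ℂ, (((Real.log 42 : ℝ) - Complex.log w) / 20000).re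
      = (Real.log 42 - Real.log ‖w‖) / 20000 := by
    intro w
    have : (20000 : ℂ) = ((20000 : ℝ) : ℂ) := by norm_num
    rw [this, Complex.div_ofReal_re, Complex.sub_re, Complex.ofReal_re, Complex.log_re]
  have h2 : (Complex.cos ((Real.pi / 4 : ℝ) * z)).re
      = Real.cos (Real.pi / 4 * z.re) * Real.cosh (Real.pi / 4 * z.im) := by
    rw [Complex.cos_eq ((Real.pi / 4 : ℝ) * z)]
    have e1 : ((Real.pi / 4 : ℝ) * z).re = Real.pi / 4 * z.re := by simp
    have e2 : ((Real.pi / 4 : ℝ) * z).im = Real.pi / 4 * z.im := by simp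
    rw [e1, e2, Complex.sub_re]
    rw [← Complex.ofReal_cos, ← Complex.ofReal_cosh, ← Complex.ofReal_sin, ← Complex.ofReal_sinh,
      ← Complex.ofReal_mul, ← Complex.ofReal_mul, Complex.ofReal_re, Complex.re_ofReal_mul,
      Complex.I_re, mul_zero, sub_zero]
  rw [Vz, Complex.add_re, Complex.add_re, h1, h1, Complex.div_ofReal_re]
  have h3 : (2 * Complex.cos ((Real.pi / 4 : ℝ) * z)).re
      = 2 * (Complex.cos ((Real.pi / 4 : ℝ) * z)).re := by
    rw [Complex.mul_re, Complex.re_ofNat, Complex.im_ofNat, zero_mul, sub_zero]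
  rw [h3, h2]

theorem log_nonneg_aux {z : ℂ} (hz : |z.re| < 1) (hy : |z.im| ≤ 40) :
    0 ≤ (Real.log 42 - Real.log ‖1 - z‖) / 20000 ∧
      0 ≤ (Real.log 42 - Real.log ‖1 + z‖) / 20000 := by
  have h1 := abs_lt.1 hz
  have key : ∀ w : ℂ, |w.re| ≤ 2 → |w.im| ≤ 40 → 0 < ‖w‖ →
      0 ≤ (Real.log 42 - Real.log ‖w‖) / 20000 := by
    intro w h2 h3 h4
    have h5 : ‖w‖ ≤ 42 := (Complex.norm_le_abs_re_add_abs_im w).trans (by linarith)
    have h6 := Real.log_le_log h4 h5
    apply div_nonneg _ (by norm_num)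
    linarith
  constructor
  · apply key
    · rw [Complex.sub_re, Complex.one_re, abs_le]; constructor <;> linarith
    · rw [Complex.sub_im, Complex.one_im, zero_sub, abs_neg]; exact hy
    · rw [norm_pos_iff]
      intro h
      have := congrArg Complex.re h
      rw [Complex.sub_re, Complex.one_re, Complex.zero_re] at this
      linarith
  · apply key
    · rw [Complex.add_re, Complex.one_re, abs_le]; constructor <;> linarith
    · rw [Complex.add_im, Complex.one_im, zero_add]; exact hy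
    · rw [norm_pos_iff]
      intro h
      have := congrArg Complex.re h
      rw [Complex.add_re, Complex.one_re, Complex.zero_re] at this
      linarith

theorem cos_ge_aux {z : ℂ} (hz : |z.re| < 1) : 1 / 2 ≤ Real.cos (Real.pi / 4 * z.re) := by
  have h0 := Real.pi_pos
  have h1 : Real.cos (Real.pi / 3) ≤ Real.cos |Real.pi / 4 * z.re| := by
    apply Real.cos_le_cos_of_nonneg_of_le_pi (abs_nonneg _) (by linarith)
    rw [abs_mul, abs_of_pos (by positivity)]
    nlinarith
  rwa [Real.cos_pi_div_three, Real.cos_abs] at h1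

theorem cos_term_nonneg {z : ℂ} (hz : |z.re| < 1) :
    0 ≤ 2 * (Real.cos (Real.pi / 4 * z.re) * Real.cosh (Real.pi / 4 * z.im)) /
      Real.cosh (Real.pi * 10) := by
  have h1 := cos_ge_aux hz
  have h2 := Real.cosh_pos (Real.pi / 4 * z.im)
  have h3 := Real.cosh_pos (Real.pi * 10)
  have h4 : 0 ≤ Real.cos (Real.pi / 4 * z.re) := by linarith
  positivity

theorem Vz_re_nonneg {z : ℂ} (hz : |z.re| < 1) (hy : |z.im| ≤ 40) : 0 ≤ (Vz z).re := by
  rw [Vz_re]
  have h1 := log_nonneg_aux hz hy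
  have h2 := cos_term_nonneg hz
  linarith [h1.1, h1.2]

theorem Vz_re_top {z : ℂ} (hz : |z.re| < 1) (hy : |z.im| = 40) : 1 ≤ (Vz z).re := by
  rw [Vz_re]
  have h1 := log_nonneg_aux hz hy.le
  have h2 : 1 ≤ 2 * (Real.cos (Real.pi / 4 * z.re) * Real.cosh (Real.pi / 4 * z.im)) /
      Real.cosh (Real.pi * 10) := by
    have h3 := cos_ge_aux hz
    have h4 : Real.cosh (Real.pi / 4 * z.im) = Real.cosh (Real.pi * 10) := by
      rw [← Real.cosh_abs (Real.pi / 4 * z.im), abs_mul, hy, abs_of_pos (by positivity)]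
      congr 1
      ring
    have h5 := Real.cosh_pos (Real.pi * 10)
    rw [h4, one_le_div h5]
    nlinarith
  linarith [h1.1, h1.2]

theorem Vz_re_gap {z : ℂ} {δ : ℝ} (hδ : δ = 42 * Real.exp (-20000)) (hz : |z.re| < 1)
    (hz2 : 1 - δ / 2 ≤ |z.re|) (hy : |z.im| ≤ δ / 2) : 1 ≤ (Vz z).re := by
  have hδpos : 0 < δ := by rw [hδ]; positivity
  have hδle : δ ≤ 42 := by
    rw [hδ]
    have : Real.exp (-20000) ≤ 1 := Real.exp_le_one_iff.2 (by norm_num)
    linarith
  rw [Vz_re]
  have h1 := log_nonneg_aux hz (hy.trans (by linarith))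
  have h2 := cos_term_nonneg hz
  have key : ∀ w : ℂ, 0 < ‖w‖ → ‖w‖ ≤ δ → 1 ≤ (Real.log 42 - Real.log ‖w‖) / 20000 := by
    intro w hw hw2
    have h3 := Real.log_le_log hw hw2
    rw [hδ, Real.log_mul (by norm_num) (Real.exp_pos _).ne', Real.log_exp] at h3
    rw [one_le_div (by norm_num)]
    linarith
  rcases le_total 0 z.re with h | h
  · rw [abs_of_nonneg h] at hz hz2
    have h3 : 1 ≤ (Real.log 42 - Real.log ‖1 - z‖) / 20000 := by
      apply key
      · rw [norm_pos_iff]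
        intro h
        have := congrArg Complex.re h
        rw [Complex.sub_re, Complex.one_re, Complex.zero_re] at this
        linarith
      · refine (Complex.norm_le_abs_re_add_abs_im _).trans ?_
        rw [Complex.sub_re, Complex.one_re, Complex.sub_im, Complex.one_im, zero_sub, abs_neg,
          abs_of_pos (by linarith)]
        linarith
    linarith [h1.1, h1.2]
  · rw [abs_of_nonpos h] at hz hz2
    have h3 : 1 ≤ (Real.log 42 - Real.log ‖1 + z‖) / 20000 := by
      apply key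
      · rw [norm_pos_iff]
        intro h
        have := congrArg Complex.re h
        rw [Complex.add_re, Complex.one_re, Complex.zero_re] at this
        linarith
      · refine (Complex.norm_le_abs_re_add_abs_im _).trans ?_
        rw [Complex.add_re, Complex.one_re, Complex.add_im, Complex.one_im, zero_add,
          abs_of_pos (by linarith)]
        linarith
    linarith [h1.1, h1.2]

theorem Vz_re_point : (Vz ((3 / 5 : ℝ) : ℂ)).re ≤ 1 / 60 := by
  rw [Vz_re]
  have e1 : ‖(1 : ℂ) - ((3 / 5 : ℝ) : ℂ)‖ = 2 / 5 := by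
    rw [← Complex.ofReal_one, ← Complex.ofReal_sub, Complex.norm_real, Real.norm_of_nonneg]
    · norm_num
    · norm_num
  have e2 : ‖(1 : ℂ) + ((3 / 5 : ℝ) : ℂ)‖ = 8 / 5 := by
    rw [← Complex.ofReal_one, ← Complex.ofReal_add, Complex.norm_real, Real.norm_of_nonneg]
    · norm_num
    · norm_num
  rw [e1, e2, Complex.ofReal_im, Complex.ofReal_re, mul_zero, Real.cosh_zero, mul_one]
  have h1 : Real.log 42 - Real.log (2 / 5) ≤ 105 := by
    rw [← Real.log_div (by norm_num) (by norm_num)]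
    have := Real.log_le_sub_one_of_pos (show (0 : ℝ) < 42 / (2 / 5) by norm_num)
    norm_num at this ⊢
    linarith
  have h2 : Real.log 42 - Real.log (8 / 5) ≤ 27 := by
    rw [← Real.log_div (by norm_num) (by norm_num)]
    have := Real.log_le_sub_one_of_pos (show (0 : ℝ) < 42 / (8 / 5) by norm_num)
    norm_num at this ⊢
    linarith
  have h3 : (240 : ℝ) ≤ Real.cosh (Real.pi * 10) := by
    have h4 : (30 : ℝ) ≤ Real.pi * 10 := by
      have := Real.pi_gt_three
      linarith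
    have h5 := Real.quadratic_le_exp_of_nonneg (show 0 ≤ Real.pi * 10 by linarith)
    rw [Real.cosh_eq]
    have h6 := Real.exp_pos (-(Real.pi * 10))
    nlinarith
  have h7 : 2 * Real.cos (Real.pi / 4 * (3 / 5)) / Real.cosh (Real.pi * 10) ≤ 2 / 240 := by
    have h8 := Real.cos_le_one (Real.pi / 4 * (3 / 5))
    rw [div_le_div_iff₀ (by linarith) (by norm_num)]
    nlinarith
  have h9 : (Real.log 42 - Real.log (2 / 5)) / 20000 ≤ 105 / 20000 :=
    div_le_div_of_nonneg_right h1 (by norm_num)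
  have h10 : (Real.log 42 - Real.log (8 / 5)) / 20000 ≤ 27 / 20000 :=
    div_le_div_of_nonneg_right h2 (by norm_num)
  norm_num at h7 h9 h10 ⊢
  linarith

end Pool.Agent.Work.MP_a2a261_an
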