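import Mathlib
import Pool.Agent.Work.MP_a2a261_an.OscN

/-!
# The lower bound at narrow scales
-/

open Filter Metric Set Topology
open scoped ComplexConjugate

namespace Pool.Agent.Work.MP_a2a261_an

/-- The strip piece. -/
def Wn : Set ℂ := {z | |z.re| < 1 ∧ |z.im| < 50}

theorem isOpen_Wn : IsOpen Wn := by
  have h1 : Continuous fun z : ℂ => |z.re| := Complex.continuous_re.abs
  have h2 : Continuous fun z : ℂ => |z.im| := Complex.continuous_im.abs
  exact (isOpen_lt h1 continuous_const).inter (isOpen_lt h2 continuous_const)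

theorem zero_mem_Wn : (0 : ℂ) ∈ Wn := by
  constructor <;> simp

theorem Wn_subset_Dm {ε : ℝ} (hε : 0 < ε) (hε2 : ε ≤ 1 / 50) : Wn ⊆ Dm ε := by
  rintro z ⟨h1, h2⟩
  refine ⟨lt_of_lt_of_le h1 (one_le_wd _), ?_⟩
  rw [abs_mul, abs_of_pos hε]
  nlinarith [abs_nonneg z.im]

/-- Uniform closeness to the wall. -/
theorem exists_wall {ε δ η : ℝ} 
    (hw : ∀ y, δ / 2 ≤ |y| → |y| ≤ 40 → wd (ε * y) = 1) (hη : 0 < η) :
    ∃ ρ < 1, ∀ z ∈ Dm ε, |z.re| < 1 → ρ < |z.re| → δ / 2 ≤ |z.im| → |z.im| ≤ 40 →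
      1 - η ≤ ‖rm ε z‖ := by
  obtain ⟨k, hk1, hk2, hk3, hk4, -⟩ := (isRM ε).exists_inverse (isOpen_Dm ε)
  have hcb : closedBall (0 : ℂ) (1 - η) ⊆ ball 0 1 := closedBall_subset_ball (by linarith)
  set K := k '' closedBall (0 : ℂ) (1 - η) with hK
  have hKc : IsCompact K :=
    (isCompact_closedBall _ _).image_of_continuousOn (hk1.continuousOn.mono hcb)
  have hKD : K ⊆ Dm ε := by
    rintro _ ⟨w, hw, rfl⟩
    exact hk2 (hcb hw)
  set C := K ∩ {z : ℂ | δ / 2 ≤ |z.im| ∧ |z.im| ≤ 40} with hC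
  have hCc : IsCompact C := by
    apply hKc.inter_right
    have h2 : Continuous fun z : ℂ => |z.im| := Complex.continuous_im.abs
    exact (isClosed_le continuous_const h2).inter (isClosed_le h2 continuous_const)
  have hmem : ∀ z ∈ Dm ε, δ / 2 ≤ |z.im| → |z.im| ≤ 40 → ‖rm ε z‖ < 1 - η → z ∈ C := by
    intro z hz h1 h2 h3
    refine ⟨⟨rm ε z, ?_, hk4 z hz⟩, h1, h2⟩
    rw [mem_closedBall_zero_iff]
    exact h3.le
  rcases C.eq_empty_or_nonempty with hE | hne
  · refine ⟨0, one_pos, fun z hz _ _ h1 h2 => ?_⟩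
    by_contra hcon
    push Not at hcon
    have := hmem z hz h1 h2 hcon
    rw [hE] at this
    exact this
  · obtain ⟨z₀, hz₀, hmax⟩ := hCc.exists_isMaxOn hne
      (Complex.continuous_re.abs.continuousOn (s := C))
    refine ⟨|z₀.re|, ?_, fun z hz _ hρ h1 h2 => ?_⟩
    · have h1 := (hKD hz₀.1).1
      rwa [hw z₀.im hz₀.2.1 hz₀.2.2] at h1
    · by_contra hcon
      push Not at hcon
      have h3 := hmax (hmem z hz h1 h2 hcon)
      simp only [mem_ofPred_eq] at h3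
      linarith

theorem differentiableOn_Vz : DifferentiableOn ℂ Vz Wn := by
  intro z hz
  have h1 := abs_lt.1 hz.1
  have h2 : (1 - z) ∈ Complex.slitPlane := by
    left
    rw [Complex.sub_re, Complex.one_re]
    linarith
  have h3 : (1 + z) ∈ Complex.slitPlane := by
    left
    rw [Complex.add_re, Complex.one_re]
    linarith
  have h4 : DifferentiableAt ℂ (fun z => Complex.log (1 - z)) z :=
    (differentiableAt_id.const_sub 1).clog h2
  have h5 : DifferentiableAt ℂ (fun z => Complex.log (1 + z)) z :=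
    (differentiableAt_id.const_add 1).clog h3
  have h6 : DifferentiableAt ℂ (fun z => Complex.cos ((Real.pi / 4 : ℝ) * z)) z := by fun_prop
  unfold Vz
  exact ((((h4.const_sub _).div_const _).add ((h5.const_sub _).div_const _)).add
    ((h6.const_mul 2).div_const _)).differentiableWithinAt

theorem dslope_ne {ε : ℝ} {z : ℂ} (hz : z ∈ Dm ε) : dslope (rm ε) 0 z ≠ 0 := by
  by_cases h : z = 0
  · subst h
    rw [dslope_same]
    exact (isRM ε).deriv_ne 0 hz
  · rw [dslope_of_ne _ h, slope_def_field, (isRM ε).zero, sub_zero, sub_zero]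
    apply div_ne_zero _ h
    intro h1
    exact h ((isRM ε).inj hz (zero_mem_Dm ε) (h1.trans (isRM ε).zero.symm))

/-- The comparison function. -/
noncomputable def Qz (ε : ℝ) (z : ℂ) : ℂ :=
  dslope Tz 0 z / dslope (rm ε) 0 z * Complex.exp (-3 * Vz z)

theorem norm_Qz {ε : ℝ} {z : ℂ} (hz : z ≠ 0) :
    ‖Qz ε z‖ = ‖Tz z‖ / ‖rm ε z‖ * Real.exp (-3 * (Vz z).re) := by
  have hz' : ‖z‖ ≠ 0 := norm_ne_zero_iff.2 hz
  have h1 : (-3 * Vz z).re = -3 * (Vz z).re := by
    rw [Complex.mul_re]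
    simp
  rw [Qz, norm_mul, Complex.norm_exp, h1, dslope_of_ne _ hz, dslope_of_ne _ hz, slope_def_field,
    slope_def_field, Tz_zero, (isRM ε).zero, sub_zero, sub_zero, sub_zero, norm_div, norm_div,
    norm_div, div_div_div_cancel_right₀ hz']

theorem differentiableOn_Qz {ε : ℝ} (hε : 0 < ε) (hε2 : ε ≤ 1 / 50) :
    DifferentiableOn ℂ (Qz ε) Wn := by
  have hn : Wn ∈ 𝓝 (0 : ℂ) := isOpen_Wn.mem_nhds zero_mem_Wn
  have h1 : DifferentiableOn ℂ (dslope Tz 0) Wn :=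
    (Complex.differentiableOn_dslope hn).2 fun z hz =>
      (differentiableAt_Tz hz.1).differentiableWithinAt
  have h2 : DifferentiableOn ℂ (dslope (rm ε) 0) Wn :=
    (Complex.differentiableOn_dslope hn).2 ((isRM ε).diff.mono (Wn_subset_Dm hε hε2))
  have h3 : DifferentiableOn ℂ (fun z => Complex.exp (-3 * Vz z)) Wn :=
    (differentiableOn_Vz.const_mul (-3)).cexp
  exact (h1.div h2 fun z hz => dslope_ne (Wn_subset_Dm hε hε2 hz)).mul h3

theorem norm_Qz_le {ε η ρ δ : ℝ} (hδ : δ = 42 * Real.exp (-20000))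
    (hε : 0 < ε) (hε2 : ε ≤ 1 / 50) (hη0 : 0 < η) (hη : η < 1) (hρ0 : 3 / 4 ≤ ρ)
    (hρ2 : 1 - δ / 2 ≤ ρ) {z : ℂ} (hz1 : |z.re| < 1) (hz2 : |z.im| ≤ 40)
    (hz3 : |z.im| = 40 ∨ ρ = |z.re|)
    (hw : δ / 2 ≤ |z.im| → ρ = |z.re| → 1 - η ≤ ‖rm ε z‖) : ‖Qz ε z‖ ≤ 1 / (1 - η) := by
  have hzW : z ∈ Wn := ⟨hz1, by linarith⟩
  have hzD := Wn_subset_Dm hε hε2 hzW
  have hnz : 3 / 4 ≤ ‖z‖ := by
    rcases hz3 with h | h
    · have := Complex.abs_im_le_norm z
      linarith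
    · have := Complex.abs_re_le_norm z
      linarith
  have hz0 : z ≠ 0 := by
    intro h
    rw [h, norm_zero] at hnz
    linarith
  have hT := norm_Tz_lt hz1
  have hV := Vz_re_nonneg hz1 hz2
  have hcrude := norm_rm_ge hzD
  rw [norm_div] at hcrude
  have hz12 : ‖z + 12‖ ≤ ‖z‖ + 12 := by
    have := norm_add_le z 12
    simpa using this
  have hz12pos : 0 < ‖z + 12‖ := norm_pos_iff.2 (add_twelve_ne (re_gt_of_mem_Dm hzD))
  have hge : 1 / 17 ≤ ‖rm ε z‖ := by
    refine le_trans ?_ hcrude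
    rw [div_le_div_iff₀ (by norm_num) hz12pos]
    linarith
  have h1η : 1 ≤ 1 / (1 - η) := by
    rw [one_le_div (by linarith)]
    linarith
  rw [norm_Qz hz0]
  have hrpos : 0 < ‖rm ε z‖ := by linarith
  by_cases hcase : 1 ≤ (Vz z).re
  · have h2 : Real.exp (-3 * (Vz z).re) ≤ Real.exp (-3) := Real.exp_le_exp.2 (by linarith)
    have h3 : ‖Tz z‖ / ‖rm ε z‖ ≤ 1 / ‖rm ε z‖ := div_le_div_of_nonneg_right hT.le hrpos.le
    have h5 : 1 / ‖rm ε z‖ ≤ 17 := by
      rw [div_le_iff₀ hrpos]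
      linarith
    have h6 : Real.exp (-3 : ℝ) ≤ 1 / 17 := by
      have h7 : Real.exp 3 = Real.exp 1 ^ 3 := by
        rw [← Real.exp_nat_mul]; norm_num
      have h8 := Real.exp_one_gt_d9
      rw [Real.exp_neg, h7, inv_eq_one_div]
      apply one_div_le_one_div_of_le (by norm_num)
      have h9 : (2.7 : ℝ) ≤ Real.exp 1 := by linarith
      nlinarith [pow_le_pow_left₀ (by norm_num : (0 : ℝ) ≤ 2.7) h9 3]
    refine le_trans ?_ h1η
    calc ‖Tz z‖ / ‖rm ε z‖ * Real.exp (-3 * (Vz z).re) ≤ 17 * (1 / 17) :=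
          mul_le_mul (h3.trans h5) (h2.trans h6) (Real.exp_pos _).le (by norm_num)
      _ = 1 := by norm_num
  · push Not at hcase
    have h2 : Real.exp (-3 * (Vz z).re) ≤ 1 := Real.exp_le_one_iff.2 (by linarith)
    have h3 : ρ = |z.re| := by
      rcases hz3 with h | h
      · have := Vz_re_top hz1 h
        linarith
      · exact h
    have h4 : δ / 2 ≤ |z.im| := by
      by_contra hcon
      push Not at hcon
      have := Vz_re_gap hδ hz1 (by linarith) hcon.le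
      linarith
    have h5 := hw h4 h3
    calc ‖Tz z‖ / ‖rm ε z‖ * Real.exp (-3 * (Vz z).re) ≤ (1 / (1 - η)) * 1 := by
          apply mul_le_mul _ h2 (Real.exp_pos _).le (by positivity)
          rw [div_le_div_iff₀ hrpos (by linarith)]
          nlinarith [norm_nonneg (Tz z)]
      _ = 1 / (1 - η) := mul_one _

theorem tau_ge_aux {ε η δ : ℝ} (hδ : δ = 42 * Real.exp (-20000))
    (hε : 0 < ε) (hε2 : ε ≤ 1 / 50) (hη0 : 0 < η) (hη : η < 1)
    (hw : ∀ y, δ / 2 ≤ |y| → |y| ≤ 40 → wd (ε * y) = 1) :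
    (1 - η) * (47 / 100 * (19 / 20)) ≤ tau ε := by
  have hδpos : 0 < δ := by rw [hδ]; positivity
  obtain ⟨ρ₀, hρ₀, hwall⟩ := exists_wall hw hη0
  set m := max ρ₀ (max (1 - δ / 2) (3 / 4)) with hm
  have hm1 : m < 1 := max_lt hρ₀ (max_lt (by linarith) (by norm_num))
  set ρ := (m + 1) / 2 with hρ
  have hmρ : m < ρ := by rw [hρ]; linarith
  have hρ1 : ρ < 1 := by rw [hρ]; linarith
  have hρ2 : ρ₀ < ρ := lt_of_le_of_lt (le_max_left _ _) hmρ
  have hρ3 : 1 - δ / 2 ≤ ρ := ((le_max_left _ _).trans (le_max_right _ _)).trans hmρ.le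
  have hρ4 : 3 / 4 ≤ ρ := ((le_max_right _ _).trans (le_max_right _ _)).trans hmρ.le
  have hρpos : 0 < ρ := by linarith
  set R : Set ℂ := Ioo (-ρ) ρ ×ℂ Ioo (-40) 40 with hR
  have hclos : closure R = Icc (-ρ) ρ ×ℂ Icc (-40) 40 := by
    rw [hR, Complex.closure_reProdIm, closure_Ioo (by linarith), closure_Ioo (by norm_num)]
  have hsub : closure R ⊆ Wn := by
    rw [hclos]
    rintro z ⟨h1, h2⟩
    exact ⟨lt_of_le_of_lt (abs_le.2 h1) hρ1, lt_of_le_of_lt (abs_le.2 h2) (by norm_num)⟩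
  have hbd : Bornology.IsBounded R :=
    (Metric.isBounded_Ioo _ _).reProdIm (Metric.isBounded_Ioo _ _)
  have hdc : DiffContOnCl ℂ (Qz ε) R :=
    ((differentiableOn_Qz hε hε2).mono hsub).diffContOnCl
  have hfr : ∀ z ∈ frontier R, ‖Qz ε z‖ ≤ 1 / (1 - η) := by
    intro z hz
    have hzc : z ∈ closure R := frontier_subset_closure hz
    have hzc' := hzc
    rw [hclos] at hzc'
    have hz1 : |z.re| ≤ ρ := abs_le.2 hzc'.1
    have hz2 : |z.im| ≤ 40 := abs_le.2 hzc'.2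
    have hz3 : |z.im| = 40 ∨ ρ = |z.re| := by
      have hρρ : -ρ < ρ := by linarith
      have h40 : (-40 : ℝ) < 40 := by norm_num
      rw [hR, Complex.frontier_reProdIm, frontier_Ioo hρρ, frontier_Ioo h40] at hz
      rcases hz with h | h
      · left
        have h2 := h.2
        simp only [mem_preimage, mem_insert_iff, mem_singleton_iff] at h2
        rcases h2 with h2 | h2 <;> rw [h2] <;> norm_num
      · right
        have h2 := h.1
        simp only [mem_preimage, mem_insert_iff, mem_singleton_iff] at h2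
        rcases h2 with h2 | h2 <;> rw [h2]
        · rw [abs_neg, abs_of_pos hρpos]
        · rw [abs_of_pos hρpos]
    refine norm_Qz_le hδ hε hε2 hη0 hη hρ4 hρ3 (lt_of_le_of_lt hz1 hρ1) hz2 hz3 ?_
    intro h1 h2
    exact hwall z (Wn_subset_Dm hε hε2 (hsub hzc)) (lt_of_le_of_lt hz1 hρ1) (by
      rw [← h2]; exact hρ2) h1 hz2
  have hpt : ((3 / 5 : ℝ) : ℂ) ∈ closure R := by
    rw [hclos]
    constructor
    · rw [mem_preimage, Complex.ofReal_re]
      constructor <;> linarith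
    · rw [mem_preimage, Complex.ofReal_im]
      constructor <;> norm_num
  have hmain := Complex.norm_le_of_forall_mem_frontier_norm_le hbd hdc hfr hpt
  have hne : ((3 / 5 : ℝ) : ℂ) ≠ 0 := by
    rw [Ne, Complex.ofReal_eq_zero]; norm_num
  rw [norm_Qz hne] at hmain
  have hrpos : 0 < tau ε := by
    rw [tau, norm_pos_iff]
    intro h
    have hmem : ((3 / 5 : ℝ) : ℂ) ∈ Dm ε := mem_Dm_of_real (by rw [abs_of_pos] <;> norm_num)
    exact hne ((isRM ε).inj hmem (zero_mem_Dm ε) (h.trans (isRM ε).zero.symm))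
  have hT := norm_Tz_ge
  have hV := Vz_re_point
  have hexp : 19 / 20 ≤ Real.exp (-3 * (Vz ((3 / 5 : ℝ) : ℂ)).re) := by
    have := Real.add_one_le_exp (-3 * (Vz ((3 / 5 : ℝ) : ℂ)).re)
    linarith
  have h1 : 47 / 100 * (19 / 20) / tau ε ≤ 1 / (1 - η) := by
    refine le_trans ?_ hmain
    have h2 : ‖Tz ((3 / 5 : ℝ) : ℂ)‖ / ‖rm ε ((3 / 5 : ℝ) : ℂ)‖ *
        Real.exp (-3 * (Vz ((3 / 5 : ℝ) : ℂ)).re)
        = ‖Tz ((3 / 5 : ℝ) : ℂ)‖ * Real.exp (-3 * (Vz ((3 / 5 : ℝ) : ℂ)).re) / tau ε :=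
      div_mul_eq_mul_div _ _ _
    rw [h2]
    exact div_le_div_of_nonneg_right (mul_le_mul hT hexp (by norm_num) (norm_nonneg _)) hrpos.le
  rw [div_le_div_iff₀ hrpos (by linarith)] at h1
  linarith

/-- At narrow scales the invariant is at least `0.43`. -/
theorem exists_narrow : ∃ δ > 0, δ ≤ 40 ∧ ∀ ε, 0 < ε → ε ≤ 1 / 50 →
    (∀ y, δ ≤ |y| → |y| ≤ 40 → wd (ε * y) = 1) → 43 / 100 ≤ tau ε := by
  refine ⟨42 * Real.exp (-20000) / 2, by positivity, ?_, fun ε hε hε2 hw => ?_⟩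
  · have : Real.exp (-20000) ≤ 1 := Real.exp_le_one_iff.2 (by norm_num)
    linarith
  · have := tau_ge_aux rfl hε hε2 (η := 1 / 100) (by norm_num) (by norm_num) hw
    linarith

end Pool.Agent.Work.MP_a2a261_an
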