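import Mathlib
import Pool.Agent.Work.MP_a2a261_an.Shape

/-!
# Oscillation of the invariant: wide scales
-/

open Filter Metric Set Topology
open scoped ComplexConjugate

namespace Pool.Agent.Work.MP_a2a261_an

/-- The Riemann map of the plane minus two rays. -/
noncomputable def jk (ζ : ℂ) : ℂ := 2 * ζ / (1 + ζ ^ 2)

theorem one_add_sq_ne {ζ : ℂ} (h : ‖ζ‖ ≤ 4 / 5) : 1 + ζ ^ 2 ≠ 0 := by
  intro h1
  have h2 : ζ ^ 2 = -1 := by linear_combination h1
  have h3 : ‖ζ‖ ^ 2 = 1 := by rw [← norm_pow, h2, norm_neg, norm_one]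
  nlinarith [norm_nonneg ζ]

theorem continuousOn_jk : ContinuousOn jk (closedBall 0 (4 / 5)) := by
  intro ζ hζ
  rw [mem_closedBall_zero_iff] at hζ
  refine ContinuousAt.continuousWithinAt ?_
  refine ContinuousAt.div ?_ ?_ (one_add_sq_ne hζ)
  · fun_prop
  · fun_prop

theorem differentiableOn_jk : DifferentiableOn ℂ jk (ball 0 (4 / 5)) := by
  intro ζ hζ
  rw [mem_ball_zero_iff] at hζ
  refine DifferentiableAt.differentiableWithinAt ?_
  refine DifferentiableAt.div ?_ ?_ (one_add_sq_ne hζ.le)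
  · fun_prop
  · fun_prop

theorem norm_jk_le {ζ : ℂ} (h : ‖ζ‖ ≤ 4 / 5) : ‖jk ζ‖ ≤ 40 / 9 := by
  have h1 := one_add_sq_ne h
  rw [jk, norm_div, div_le_iff₀ (norm_pos_iff.2 h1), norm_mul, Complex.norm_two]
  have h2 : 1 - ‖ζ‖ ^ 2 ≤ ‖1 + ζ ^ 2‖ := by
    have h3 : ‖(1 : ℂ)‖ - ‖ζ ^ 2‖ ≤ ‖1 + ζ ^ 2‖ := by
      have := norm_sub_norm_le (1 : ℂ) (-ζ ^ 2)
      rwa [norm_neg, sub_neg_eq_add] at this
    rwa [norm_one, norm_pow] at h3
  nlinarith [norm_nonneg ζ]

theorem jk_im_ne {ζ : ℂ} (h : ‖ζ‖ ≤ 4 / 5) (hre : 1 ≤ |(jk ζ).re|) : (jk ζ).im ≠ 0 := by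
  intro him
  set x := (jk ζ).re with hx
  have hjk : jk ζ = (x : ℂ) := Complex.ext (by rw [Complex.ofReal_re]) (by
    rw [him, Complex.ofReal_im])
  have h1 := one_add_sq_ne h
  have h2 : 2 * ζ = x * (1 + ζ ^ 2) := by
    rw [jk, div_eq_iff h1] at hjk
    exact hjk
  set a := ζ.re with ha
  set b := ζ.im with hb
  have hr : 2 * a = x * (1 + a ^ 2 - b ^ 2) := by
    have := congrArg Complex.re h2
    simp only [Complex.mul_re, Complex.ofReal_re, Complex.ofReal_im, Complex.add_re, Complex.one_re,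
      pow_two, Complex.re_ofNat, Complex.im_ofNat, ← ha, ← hb] at this
    linear_combination this
  have hi : 2 * b = x * (2 * a * b) := by
    have := congrArg Complex.im h2
    simp only [Complex.mul_im, Complex.ofReal_re, Complex.ofReal_im, Complex.add_im, Complex.one_im,
      pow_two, Complex.re_ofNat, Complex.im_ofNat, ← ha, ← hb] at this
    linear_combination this
  have hn : a ^ 2 + b ^ 2 ≤ (4 / 5) ^ 2 := by
    have h3 : ‖ζ‖ ^ 2 = a ^ 2 + b ^ 2 := by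
      rw [← Complex.normSq_eq_norm_sq, Complex.normSq_apply]
      ring
    rw [← h3]
    exact pow_le_pow_left₀ (norm_nonneg _) h 2
  have hx2 : 1 ≤ x ^ 2 := by
    rw [← sq_abs]
    nlinarith [abs_nonneg x]
  have hb' : b * (1 - x * a) = 0 := by linear_combination hi / 2
  rcases mul_eq_zero.1 hb' with h3 | h3
  · rw [h3] at hr hn
    have h4 : 4 * a ^ 2 = x ^ 2 * (1 + a ^ 2) ^ 2 := by
      have : (2 * a) ^ 2 = (x * (1 + a ^ 2 - 0 ^ 2)) ^ 2 := by rw [hr]
      linear_combination this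
    nlinarith [sq_nonneg (1 - a ^ 2), sq_nonneg a, sq_nonneg (1 + a ^ 2)]
  · have h4 : x * a = 1 := by linarith
    have h5 : x ^ 2 * (a ^ 2 + b ^ 2) = x ^ 2 := by
      have h6 : x * (2 * a) = x * (x * (1 + a ^ 2 - b ^ 2)) := by rw [hr]
      have h7 : x ^ 2 * a ^ 2 = 1 := by
        have : (x * a) ^ 2 = 1 := by rw [h4, one_pow]
        linear_combination this
      nlinarith
    nlinarith

theorem exists_gap : ∃ δ : ℝ, 0 < δ ∧ ∀ ζ : ℂ, ‖ζ‖ ≤ 4 / 5 → 1 ≤ |(jk ζ).re| →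
    δ ≤ |(jk ζ).im| := by
  set C : Set ℂ := closedBall 0 (4 / 5) ∩ {ζ | 1 ≤ |(jk ζ).re|} with hC
  have hCc : IsCompact C := by
    have hcont : ContinuousOn (fun ζ => |(jk ζ).re|) (closedBall 0 (4 / 5)) :=
      (Complex.continuous_re.comp_continuousOn continuousOn_jk).abs
    have h1 : IsClosed C := by
      have := hcont.preimage_isClosed_of_isClosed isClosed_closedBall (isClosed_Ici (a := (1 : ℝ)))
      exact this
    exact (isCompact_closedBall _ _).of_isClosed_subset h1 inter_subset_left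
  rcases C.eq_empty_or_nonempty with h | hne
  · refine ⟨1, one_pos, fun ζ h1 h2 => ?_⟩
    have : ζ ∈ C := ⟨mem_closedBall_zero_iff.2 h1, h2⟩
    rw [h] at this
    exact absurd this (notMem_empty _)
  · have hcont : ContinuousOn (fun ζ => |(jk ζ).im|) C :=
      ((Complex.continuous_im.comp_continuousOn continuousOn_jk).abs).mono inter_subset_left
    obtain ⟨ζ₀, hζ₀, hmin⟩ := hCc.exists_isMinOn hne hcont
    refine ⟨|(jk ζ₀).im|, abs_pos.2 (jk_im_ne (mem_closedBall_zero_iff.1 hζ₀.1) hζ₀.2),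
      fun ζ h1 h2 => hmin ⟨mem_closedBall_zero_iff.2 h1, h2⟩⟩

/-- The bound at wide scales. -/
theorem exists_wide : ∃ δ : ℝ, 0 < δ ∧ δ < 5 ∧ ∀ ε : ℝ, 0 < ε → ε ≤ 1 / 5 →
    (∀ y : ℝ, δ ≤ |y| → |y| ≤ 5 → 9 / 2 ≤ wd (ε * y)) → tau ε ≤ 5 / 12 := by
  obtain ⟨δ, hδ, hgap⟩ := exists_gap
  refine ⟨min δ 1, lt_min hδ one_pos, lt_of_le_of_lt (min_le_right _ _) (by norm_num), ?_⟩
  intro ε hε hε5 hw
  have hmaps : MapsTo jk (ball 0 (4 / 5)) (Dm ε) := by
    intro ζ hζ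
    rw [mem_ball_zero_iff] at hζ
    have h1 := norm_jk_le hζ.le
    have h2 := Complex.abs_re_le_norm (jk ζ)
    have h3 := Complex.abs_im_le_norm (jk ζ)
    refine ⟨?_, ?_⟩
    · by_cases hre : 1 ≤ |(jk ζ).re|
      · have h4 := hgap ζ hζ.le hre
        have h5 := hw (jk ζ).im ((min_le_left _ _).trans h4) (by linarith)
        linarith
      · push Not at hre
        exact lt_of_lt_of_le hre (one_le_wd _)
    · rw [abs_mul, abs_of_pos hε]
      nlinarith [abs_nonneg (jk ζ).im]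
  have h3 : (1 / 3 : ℂ) ∈ ball (0 : ℂ) (4 / 5) := by
    rw [mem_ball_zero_iff]
    norm_num
  have h4 := schwarz_disc (isRM ε).diff (isRM ε).mapsTo (isRM ε).zero differentiableOn_jk hmaps
    (by simp [jk]) h3
  have h5 : jk (1 / 3) = ((3 / 5 : ℝ) : ℂ) := by
    rw [jk]
    push_cast
    norm_num
  rw [h5] at h4
  rw [tau]
  refine h4.trans ?_
  norm_num

end Pool.Agent.Work.MP_a2a261_an
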