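import Mathlib
import Pool.Agent.Work.MP_a2a261_an.OscW
import Pool.Agent.Work.MP_a2a261_an.Narrow

/-!
# The invariant takes the value `21/50` at arbitrarily small scales
-/

open Filter Metric Set Topology

namespace Pool.Agent.Work.MP_a2a261_an

/-- The scales. -/
noncomputable def Es (θ : ℝ) : ℝ := Real.exp (10 - Real.exp θ)

theorem Es_pos (θ : ℝ) : 0 < Es θ := Real.exp_pos _

theorem log_one_sub_bound {u : ℝ} (hu : |u| ≤ 1 / 3) : |Real.log (1 - u)| ≤ 1 / 2 := by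
  have h := abs_le.1 hu
  have hpos : 0 < 1 - u := by linarith
  rw [abs_le]
  constructor
  · have h1 := Real.one_sub_inv_le_log_of_pos hpos
    have h2 : (1 - u)⁻¹ ≤ 3 / 2 := by
      rw [inv_le_comm₀ hpos (by norm_num)]
      linarith
    linarith
  · have h1 := Real.log_le_sub_one_of_pos hpos
    linarith

theorem wd_Es {θ Λ y : ℝ} (hy : y ≠ 0) (hΛ : |Real.log y| ≤ Λ) (hθ : 10 + 3 * Λ ≤ Real.exp θ) :
    ∃ s, |s| ≤ 1 / 2 ∧ wd (Es θ * y) = 1 + 5 * max 0 (Real.sin (θ + s)) := by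
  have hΛ0 : 0 ≤ Λ := (abs_nonneg _).trans hΛ
  have hΛ' := abs_le.1 hΛ
  have hE := Real.exp_pos θ
  refine ⟨Real.log (1 - Real.log y / Real.exp θ), log_one_sub_bound ?_, ?_⟩
  · rw [abs_div, abs_of_pos hE, div_le_iff₀ hE]
    linarith
  · rw [wd_of_ne (mul_ne_zero (Es_pos θ).ne' hy), Real.log_mul (Es_pos θ).ne' hy, Es, Real.log_exp]
    have h1 : |10 - Real.exp θ + Real.log y| = Real.exp θ - 10 - Real.log y := by
      rw [abs_of_nonpos (by linarith)]
      ring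
    have h2 : 0 < 1 - Real.log y / Real.exp θ := by
      rw [sub_pos, div_lt_one hE]
      linarith
    have h3 : 10 + (Real.exp θ - 10 - Real.log y)
        = Real.exp θ * (1 - Real.log y / Real.exp θ) := by
      field_simp
      ring
    rw [h1, h3, Real.log_mul hE.ne' h2.ne', Real.log_exp]

theorem wd_Es_wide {n : ℕ} {Λ y : ℝ} (hy : y ≠ 0) (hΛ : |Real.log y| ≤ Λ)
    (hθ : 10 + 3 * Λ ≤ Real.exp (Real.pi / 2 + n * (2 * Real.pi))) :
    9 / 2 ≤ wd (Es (Real.pi / 2 + n * (2 * Real.pi)) * y) := by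
  obtain ⟨s, hs, h⟩ := wd_Es hy hΛ hθ
  rw [h]
  have h1 : Real.sin (Real.pi / 2 + n * (2 * Real.pi) + s) = Real.cos s := by
    have : Real.pi / 2 + n * (2 * Real.pi) + s = (s + Real.pi / 2) + n * (2 * Real.pi) := by ring
    rw [this, Real.sin_add_nat_mul_two_pi, Real.sin_add_pi_div_two]
  have h2 := Real.one_sub_sq_div_two_le_cos (x := s)
  have h3 : s ^ 2 ≤ 1 / 4 := by
    rw [← sq_abs]
    nlinarith [abs_nonneg s]
  have h4 := le_max_right 0 (Real.sin (Real.pi / 2 + n * (2 * Real.pi) + s))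
  rw [h1] at h4 ⊢
  linarith

theorem wd_Es_narrow {n : ℕ} {Λ y : ℝ} (hy : y ≠ 0) (hΛ : |Real.log y| ≤ Λ)
    (hθ : 10 + 3 * Λ ≤ Real.exp (3 * Real.pi / 2 + n * (2 * Real.pi))) :
    wd (Es (3 * Real.pi / 2 + n * (2 * Real.pi)) * y) = 1 := by
  obtain ⟨s, hs, h⟩ := wd_Es hy hΛ hθ
  rw [h]
  have h1 : Real.sin (3 * Real.pi / 2 + n * (2 * Real.pi) + s) = -Real.cos s := by
    have : 3 * Real.pi / 2 + n * (2 * Real.pi) + s
        = ((s + Real.pi / 2) + Real.pi) + n * (2 * Real.pi) := by ring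
    rw [this, Real.sin_add_nat_mul_two_pi, Real.sin_add_pi, Real.sin_add_pi_div_two]
  have h2 := Real.one_sub_sq_div_two_le_cos (x := s)
  have h3 : s ^ 2 ≤ 1 / 4 := by
    rw [← sq_abs]
    nlinarith [abs_nonneg s]
  rw [h1, max_eq_left (by linarith)]
  ring

theorem abs_log_le {a b y : ℝ} (ha : 0 < a) (h1 : a ≤ |y|) (h2 : |y| ≤ b) :
    y ≠ 0 ∧ |Real.log y| ≤ |Real.log a| + |Real.log b| := by
  have hy : 0 < |y| := lt_of_lt_of_le ha h1
  refine ⟨abs_pos.1 hy, ?_⟩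
  rw [← Real.log_abs]
  have h3 := Real.log_le_log ha h1
  have h4 := Real.log_le_log hy h2
  have h5 := neg_abs_le (Real.log a)
  have h6 := le_abs_self (Real.log b)
  have h7 := abs_nonneg (Real.log a)
  have h8 := abs_nonneg (Real.log b)
  rw [abs_le]
  constructor <;> linarith

theorem tendsto_exp_wide : Tendsto (fun n : ℕ => Real.exp (Real.pi / 2 + n * (2 * Real.pi)))
    atTop atTop := by
  apply Real.tendsto_exp_atTop.comp
  apply tendsto_atTop_add_const_left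
  exact (tendsto_natCast_atTop_atTop (R := ℝ)).atTop_mul_const (by have := Real.pi_pos; positivity)

theorem exists_eps {η : ℝ} (hη : 0 < η) : ∃ ε, 0 < ε ∧ ε < η ∧ ε < 1 ∧ tau ε = 21 / 50 := by
  obtain ⟨δ₁, hδ₁, hδ₁', hwide⟩ := exists_wide
  obtain ⟨δ₂, hδ₂, hδ₂', hnarrow⟩ := exists_narrow
  set Λ₁ := |Real.log δ₁| + |Real.log 5| with hΛ₁
  set Λ₂ := |Real.log δ₂| + |Real.log 40| with hΛ₂
  obtain ⟨n, hn1, hn2, hn3, hn4⟩ := ((tendsto_exp_wide.eventually_ge_atTop (10 + 3 * Λ₁)).and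
    ((tendsto_exp_wide.eventually_ge_atTop (10 + 3 * Λ₂)).and
    ((tendsto_exp_wide.eventually_ge_atTop 20).and
    (tendsto_exp_wide.eventually_gt_atTop (10 - Real.log η))))).exists
  have hpi := Real.pi_pos
  set A := Real.pi / 2 + n * (2 * Real.pi) with hA
  set B := 3 * Real.pi / 2 + n * (2 * Real.pi) with hB
  have hAB : Real.exp A ≤ Real.exp B := Real.exp_le_exp.2 (by rw [hA, hB]; linarith)
  have hEle : ∀ θ, 20 ≤ Real.exp θ → Es θ ≤ 1 / 50 := by
    intro θ hθ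
    have h1 : Es θ ≤ Real.exp (-10) := Real.exp_le_exp.2 (by linarith)
    have h2 : Real.exp (-10) ≤ 1 / 50 := by
      have h3 := Real.quadratic_le_exp_of_nonneg (show (0 : ℝ) ≤ 10 by norm_num)
      rw [Real.exp_neg, inv_eq_one_div]
      apply one_div_le_one_div_of_le (by norm_num)
      linarith
    linarith
  have hEA : Es A ≤ 1 / 50 := hEle A hn3
  have hEB : Es B ≤ 1 / 50 := hEle B (hn3.trans hAB)
  have h1 : tau (Es A) ≤ 5 / 12 := by
    apply hwide (Es A) (Es_pos A) (by linarith)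
    intro y hy1 hy2
    obtain ⟨h1, h2⟩ := abs_log_le hδ₁ hy1 hy2
    exact wd_Es_wide h1 h2 hn1
  have h2 : 43 / 100 ≤ tau (Es B) := by
    apply hnarrow (Es B) (Es_pos B) hEB
    intro y hy1 hy2
    obtain ⟨h1, h2⟩ := abs_log_le hδ₂ hy1 hy2
    exact wd_Es_narrow h1 h2 (hn2.trans hAB)
  have hle : Es B ≤ Es A := Real.exp_le_exp.2 (by linarith)
  have hc : ContinuousOn tau (Icc (Es B) (Es A)) :=
    continuousOn_tau.mono fun x hx => ⟨lt_of_lt_of_le (Es_pos B) hx.1,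
      lt_of_le_of_lt hx.2 (by linarith)⟩
  obtain ⟨ε, hε, hε'⟩ := intermediate_value_Icc' hle hc
    (show (21 / 50 : ℝ) ∈ Icc (tau (Es A)) (tau (Es B)) from ⟨by linarith, by linarith⟩)
  refine ⟨ε, lt_of_lt_of_le (Es_pos B) hε.1, ?_, ?_, hε'⟩
  · refine lt_of_le_of_lt hε.2 ?_
    rw [Es, ← Real.lt_log_iff_exp_lt hη]
    linarith
  · linarith [hε.2]

end Pool.Agent.Work.MP_a2a261_an
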