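import Mathlib
import Pool.Agent.Work.MP_a2a261_an.Scales
import Pool.Agent.Work.MP_a2a261_an.Energy
import Pool.Agent.Work.MP_a2a261_an.Area59

/-!
# Conformal maps onto the compressed domains
-/

open MeasureTheory Set Metric Filter Topology

namespace Pool.Agent.Work.MP_a2a261_an

theorem isHomeoOnto_of {Ω Ω' : Set ℂ} {h g : ℂ → ℂ} (hc : ContinuousOn h Ω)
    (gc : ContinuousOn g Ω') (hm : MapsTo h Ω Ω') (gm : MapsTo g Ω' Ω)
    (gh : ∀ z ∈ Ω, g (h z) = z) (hg : ∀ w ∈ Ω', h (g w) = w) : IsHomeoOnto Ω Ω' h := by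
  refine ⟨{ toFun := hm.restrict h Ω Ω', invFun := gm.restrict g Ω' Ω,
            left_inv := fun z => Subtype.ext (gh z z.2),
            right_inv := fun w => Subtype.ext (hg w w.2),
            continuous_toFun := hc.mapsToRestrict hm,
            continuous_invFun := gc.mapsToRestrict gm }, fun z => rfl⟩

/-- A conformal map between bounded domains is an energy-minimal homeomorphism. -/
theorem isEnergyMinimal_of_holo {Ω Ω' : Set ℂ} (hΩ : IsOpen Ω) (hΩ' : IsOpen Ω')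
    (hb : Bornology.IsBounded Ω) (hb' : Bornology.IsBounded Ω') {h g : ℂ → ℂ}
    (hd : DifferentiableOn ℂ h Ω) (gc : ContinuousOn g Ω') (hm : MapsTo h Ω Ω')
    (gm : MapsTo g Ω' Ω) (gh : ∀ z ∈ Ω, g (h z) = z) (hg : ∀ w ∈ Ω', h (g w) = w) :
    IsEnergyMinimal Ω Ω' h := by
  have hi : InjOn h Ω := by
    intro a ha b hb hab
    rw [← gh a ha, ← gh b hb, hab]
  have himg : h '' Ω = Ω' := by
    apply subset_antisymm
    · rintro _ ⟨z, hz, rfl⟩
      exact hm hz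
    · intro w hw
      exact ⟨g w, gm hw, hg w hw⟩
  refine ⟨_, _, isHomeoOnto_of hd.continuousOn gc hm gm gh hg,
    isW12_of_holo hΩ hb hd hi (by rw [himg]; exact hb'), fun f fx fy hf1 hf2 => ?_⟩
  rw [energy_of_holo hΩ hd hi, himg]
  exact area_inequality hΩ hΩ' hf1 hf2

theorem mem_compress {ε a : ℝ} (hε : 0 < ε) {z : ℂ} :
    z ∈ compress ε '' (Dm 1 \ slit a) ↔ ((ε⁻¹ : ℝ) : ℂ) * z ∈ Dm ε \ slit a := by
  have key : ∀ x y : ℝ, ((⟨x, y⟩ : ℂ) ∈ Dm 1 \ slit a ↔ (⟨x, ε⁻¹ * y⟩ : ℂ) ∈ Dm ε \ slit a) := by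
    intro x y
    have h1 : ε * (ε⁻¹ * y) = y := by field_simp
    have h2 : ε⁻¹ * y = 0 ↔ y = 0 := by
      constructor
      · intro h
        rcases mul_eq_zero.1 h with h | h
        · exact absurd h (inv_ne_zero hε.ne')
        · exact h
      · intro h
        rw [h, mul_zero]
    simp only [Set.mem_sdiff, mem_slit, Dm, mem_ofPred_eq, one_mul, h1, h2]
  constructor
  · rintro ⟨w, hw, rfl⟩
    have h1 : ((ε⁻¹ : ℝ) : ℂ) * compress ε w = ⟨w.re, ε⁻¹ * w.im⟩ := by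
      apply Complex.ext
      · rw [Complex.re_ofReal_mul, compress]
        field_simp
      · rw [Complex.im_ofReal_mul, compress]
    rw [h1, ← key]
    exact hw
  · intro h
    refine ⟨⟨ε⁻¹ * z.re, z.im⟩, ?_, ?_⟩
    · rw [key]
      have h1 : ((ε⁻¹ : ℝ) : ℂ) * z = ⟨ε⁻¹ * z.re, ε⁻¹ * z.im⟩ := by
        apply Complex.ext
        · rw [Complex.re_ofReal_mul]
        · rw [Complex.im_ofReal_mul]
      rwa [← h1]
    · apply Complex.ext
      · rw [compress]
        field_simp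
      · rw [compress]

theorem isOpen_diff_slit {U : Set ℂ} (hU : IsOpen U) (a : ℝ) : IsOpen (U \ slit a) := by
  have hc : IsCompact (slit a) := isCompact_Icc.image Complex.continuous_ofReal
  exact hU.sdiff hc.isClosed

theorem isOpen_compress {ε a : ℝ} (hε : 0 < ε) : IsOpen (compress ε '' (Dm 1 \ slit a)) := by
  have h1 : compress ε '' (Dm 1 \ slit a)
      = (fun z : ℂ => ((ε⁻¹ : ℝ) : ℂ) * z) ⁻¹' (Dm ε \ slit a) := by
    ext z
    exact mem_compress hε
  rw [h1]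
  exact (isOpen_diff_slit (isOpen_Dm ε) a).preimage (by fun_prop)

theorem isBounded_Dm_one : Bornology.IsBounded (Dm 1) := by
  refine (isBounded_closedBall (x := (0 : ℂ)) (r := 7)).subset ?_
  rintro z ⟨h1, h2⟩
  rw [mem_closedBall_zero_iff]
  have h3 := Complex.norm_le_abs_re_add_abs_im z
  have h4 := wd_le (1 * z.im)
  rw [one_mul] at h2
  linarith

theorem isBounded_compress {ε : ℝ} (hε : 0 < ε) (hε1 : ε < 1) {A : Set ℂ}
    (hA : Bornology.IsBounded A) : Bornology.IsBounded (compress ε '' A) := by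
  obtain ⟨C, hC⟩ := hA.exists_norm_le
  refine (isBounded_closedBall (x := (0 : ℂ)) (r := 2 * C)).subset ?_
  rintro _ ⟨w, hw, rfl⟩
  rw [mem_closedBall_zero_iff]
  have h1 := hC w hw
  have h2 := Complex.norm_le_abs_re_add_abs_im (compress ε w)
  have h3 : |(compress ε w).re| ≤ |w.re| := by
    rw [compress, abs_mul, abs_of_pos hε]
    nlinarith [abs_nonneg w.re]
  have h4 : |(compress ε w).im| = |w.im| := rfl
  have h5 := Complex.abs_re_le_norm w
  have h6 := Complex.abs_im_le_norm w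
  linarith

/-- The domain `Ω`: the unit disc minus a slit. -/
def Om : Set ℂ := ball 0 1 \ slit (21 / 50)

/-- The domain `Ω*`. -/
noncomputable def OmStar : Set ℂ := Dm 1 \ slit (3 / 5)

theorem exists_minimal {ε : ℝ} (hε : 0 < ε) (hε1 : ε < 1) (hτ : tau ε = 21 / 50) :
    ∃ h, IsEnergyMinimal Om (compress ε '' OmStar) h := by
  obtain ⟨k, hk1, hk2, hk3, hk4, -⟩ := (isRM ε).exists_inverse (isOpen_Dm ε)
  have himg : rm ε '' slit (3 / 5) = slit (21 / 50) := by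
    rw [(isRM ε).image_slit (isOpen_Dm ε) (fun z hz => Dm_conj hz) (fun z hz => Dm_neg hz)
      (by norm_num) (slit_subset_Dm (by norm_num))]
    exact congrArg slit hτ
  have hsub : slit (3 / 5) ⊆ Dm ε := slit_subset_Dm (by norm_num)
  have hε' : (ε : ℂ) ≠ 0 := by
    rw [Ne, Complex.ofReal_eq_zero]
    exact hε.ne'
  have hcancel : ∀ z : ℂ, ((ε⁻¹ : ℝ) : ℂ) * ((ε : ℂ) * z) = z := by
    intro z
    rw [Complex.ofReal_inv, inv_mul_cancel_left₀ hε']
  have hcancel' : ∀ z : ℂ, (ε : ℂ) * (((ε⁻¹ : ℝ) : ℂ) * z) = z := by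
    intro z
    rw [Complex.ofReal_inv, mul_inv_cancel_left₀ hε']
  refine ⟨fun w => (ε : ℂ) * k w, isEnergyMinimal_of_holo
    (g := fun z => rm ε (((ε⁻¹ : ℝ) : ℂ) * z)) (isOpen_diff_slit isOpen_ball _)
    (isOpen_compress hε) (isBounded_ball.subset sdiff_subset)
    (isBounded_compress hε hε1 (isBounded_Dm_one.subset sdiff_subset)) ?_ ?_ ?_ ?_ ?_ ?_⟩
  · exact (hk1.mono sdiff_subset).const_mul _
  · apply (isRM ε).diff.continuousOn.comp (by fun_prop)
    intro z hz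
    exact ((mem_compress hε).1 hz).1
  · intro w hw
    show (ε : ℂ) * k w ∈ compress ε '' (Dm 1 \ slit (3 / 5))
    rw [mem_compress hε, hcancel]
    refine ⟨hk2 hw.1, fun hs => hw.2 ?_⟩
    rw [← himg]
    exact ⟨k w, hs, hk3 w hw.1⟩
  · intro z hz
    have hz' := (mem_compress hε).1 hz
    refine ⟨(isRM ε).mapsTo hz'.1, fun hs => ?_⟩
    rw [← himg] at hs
    obtain ⟨s, hs1, hs2⟩ := hs
    have := (isRM ε).inj (hsub hs1) hz'.1 hs2
    rw [this] at hs1
    exact hz'.2 hs1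
  · intro w hw
    show rm ε (((ε⁻¹ : ℝ) : ℂ) * ((ε : ℂ) * k w)) = w
    rw [hcancel, hk3 w hw.1]
  · intro z hz
    have hz' := (mem_compress hε).1 hz
    show (ε : ℂ) * k (rm ε (((ε⁻¹ : ℝ) : ℂ) * z)) = z
    rw [hk4 _ hz'.1, hcancel']

theorem exists_seq : ∃ ε : ℕ → ℝ, (∀ j, 0 < ε j) ∧ Tendsto ε atTop (𝓝 0) ∧
    ∀ j, ∃ h, IsEnergyMinimal Om (compress (ε j) '' OmStar) h := by
  have h : ∀ j : ℕ, ∃ ε, 0 < ε ∧ ε < 1 / ((j : ℝ) + 1) ∧ ε < 1 ∧ tau ε = 21 / 50 := fun j =>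
    exists_eps (by positivity)
  choose ε h1 h2 h3 h4 using h
  refine ⟨ε, h1, ?_, fun j => exists_minimal (h1 j) (h3 j) (h4 j)⟩
  exact squeeze_zero (fun j => (h1 j).le) (fun j => (h2 j).le) tendsto_one_div_add_atTop_nhds_zero_nat

end Pool.Agent.Work.MP_a2a261_an
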